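import Mathlib
set_option autoImplicit false
set_option linter.unusedSectionVars false
set_option linter.unusedSimpArgs false
set_option linter.unusedVariables false

namespace Pool.Agent.N249.Ed
open MeasureTheory Filter
open scoped ENNReal Topology

/-- decreasing rearrangement of the absolute values of a complex sequence, indexed from `0` -/
noncomputable def rearr (lam : ℕ → ℂ) (n : ℕ) : ℝ :=
  sInf {s : ℝ | 0 ≤ s ∧ {j | s < ‖lam j‖}.encard ≤ n}

lemma superlevel_finite {lam : ℕ → ℂ} (h : Tendsto lam atTop (𝓝 0)) {s : ℝ} (hs : 0 < s) :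
    {j | s < ‖lam j‖}.Finite := by
  have h1 : ∀ᶠ j in atTop, ‖lam j‖ < s := by
    have := h.norm
    rw [norm_zero] at this
    exact (this.eventually (gt_mem_nhds hs))
  obtain ⟨N, hN⟩ := eventually_atTop.mp h1
  refine (Set.finite_lt_nat N).subset fun j hj => ?_
  by_contra hcon
  have h2 := hN j (not_lt.mp hcon)
  have h3 : s < ‖lam j‖ := hj
  linarith

lemma rearr_bound {lam : ℕ → ℂ} (h : Tendsto lam atTop (𝓝 0)) {s : ℝ} (hs : 0 ≤ s) {n : ℕ}
    (hn : (n : ℕ∞) < {j | s < ‖lam j‖}.encard) : s ≤ rearr lam n := by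
  unfold rearr
  refine le_csInf ?_ ?_
  · -- nonempty
    obtain ⟨C, hC⟩ := h.norm.bddAbove_range
    refine ⟨max C 0, le_max_right _ _, ?_⟩
    have : {j | max C 0 < ‖lam j‖} = ∅ := by
      ext j
      simp only [Set.mem_setOf_eq, Set.mem_empty_iff_false, iff_false, not_lt]
      exact (hC ⟨j, rfl⟩).trans (le_max_left _ _)
    rw [this]; simp
  · rintro s' ⟨_, hs'⟩
    by_contra hcon
    push Not at hcon
    have hsub : {j | s < ‖lam j‖} ⊆ {j | s' < ‖lam j‖} := fun j hj => hcon.trans hj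
    have := (Set.encard_le_encard hsub).trans hs'
    exact absurd hn (not_lt.mpr this)

lemma card_pow_le (θ : ℝ) (h0 : 0 < θ) (h1 : θ ≤ 1) (m : ℕ) :
    (m : ℝ≥0∞) ^ θ ≤ ∑ n ∈ Finset.range m, ENNReal.ofReal (((n : ℝ) + 1) ^ (θ - 1)) := by
  induction m with
  | zero => simp [ENNReal.zero_rpow_of_pos h0]
  | succ m ih =>
    rw [Finset.sum_range_succ]
    refine le_trans ?_ (add_le_add ih le_rfl)
    have e1 : ((m + 1 : ℕ) : ℝ≥0∞) = ENNReal.ofReal ((m : ℝ) + 1) := by
      rw [ENNReal.ofReal_add (Nat.cast_nonneg m) (by norm_num)]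
      simp
    have e2 : (m : ℝ≥0∞) = ENNReal.ofReal (m : ℝ) := by simp
    have hx : (0 : ℝ) < (m : ℝ) + 1 := by positivity
    rw [e1, e2, ENNReal.ofReal_rpow_of_nonneg hx.le h0.le,
      ENNReal.ofReal_rpow_of_nonneg (Nat.cast_nonneg m) h0.le,
      ← ENNReal.ofReal_add (by positivity) (by positivity)]
    refine ENNReal.ofReal_le_ofReal ?_
    -- (m+1)^θ ≤ m^θ + (m+1)^(θ-1)
    have h2 : ((m : ℝ) + 1) ^ θ * ((m : ℝ) / ((m : ℝ) + 1)) ≤ (m : ℝ) ^ θ := by
      have h3 : (m : ℝ) ^ θ = ((m : ℝ) + 1) ^ θ * ((m : ℝ) / ((m : ℝ) + 1)) ^ θ := by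
        rw [← Real.mul_rpow hx.le (by positivity)]
        congr 1
        field_simp
      rw [h3]
      refine mul_le_mul_of_nonneg_left ?_ (Real.rpow_nonneg hx.le _)
      have h4 : (m : ℝ) / ((m : ℝ) + 1) ≤ 1 := by
        rw [div_le_one hx]; linarith
      rcases Nat.eq_zero_or_pos m with hm | hm
      · subst hm
        simp only [Nat.cast_zero, zero_div]
        exact Real.rpow_nonneg le_rfl _
      · have hm' : (0 : ℝ) < m := by exact_mod_cast hm
        calc (m : ℝ) / ((m : ℝ) + 1) = ((m : ℝ) / ((m : ℝ) + 1)) ^ (1 : ℝ) := (Real.rpow_one _).symm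
          _ ≤ _ := Real.rpow_le_rpow_of_exponent_ge (by positivity) h4 h1
    have h5 : ((m : ℝ) + 1) ^ (θ - 1) = ((m : ℝ) + 1) ^ θ * (1 / ((m : ℝ) + 1)) := by
      rw [Real.rpow_sub hx, Real.rpow_one]; ring
    have h6 : ((m : ℝ) + 1) ^ θ = ((m : ℝ) + 1) ^ θ * ((m : ℝ) / ((m : ℝ) + 1)) +
        ((m : ℝ) + 1) ^ θ * (1 / ((m : ℝ) + 1)) := by
      field_simp
    rw [h5]
    linarith

theorem layer_cake {lam : ℕ → ℂ} (h : Tendsto lam atTop (𝓝 0)) (θ : ℝ) (h0 : 0 < θ) (h1 : θ ≤ 1)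
    (a : ℕ → ℝ≥0∞) (C : ℝ≥0∞)
    (ha : ∀ J : Finset ℕ, ∑ j ∈ J, a j ≤ C * (J.card : ℝ≥0∞) ^ θ) :
    ∑' j, ENNReal.ofReal ‖lam j‖ * a j ≤
      C * ∑' n : ℕ, ENNReal.ofReal (((n : ℝ) + 1) ^ (θ - 1) * rearr lam n) := by
  have e1 : ∀ j, ENNReal.ofReal ‖lam j‖ * a j =
      ∫⁻ s in Set.Ioi (0 : ℝ), (Set.Iio ‖lam j‖).indicator (fun _ => a j) s := by
    intro j
    rw [lintegral_indicator measurableSet_Iio, lintegral_const, Measure.restrict_restrict
      measurableSet_Iio, Measure.restrict_apply_univ, Set.inter_comm, Set.Ioi_inter_Iio,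
      Real.volume_Ioo, sub_zero, mul_comm]
  simp_rw [e1]
  rw [← lintegral_tsum fun j => (measurable_const.indicator measurableSet_Iio).aemeasurable]
  have e2 : ∀ s ∈ Set.Ioi (0 : ℝ), ∑' j, (Set.Iio ‖lam j‖).indicator (fun _ => a j) s ≤
      ∑' n : ℕ, (C * ENNReal.ofReal (((n : ℝ) + 1) ^ (θ - 1))) *
        (Set.Iic (rearr lam n)).indicator (fun _ => (1 : ℝ≥0∞)) s := by
    intro s hs
    have hs0 : (0 : ℝ) < s := hs
    have hfin := superlevel_finite h hs0
    set J : Finset ℕ := hfin.toFinset with hJ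
    have hJmem : ∀ j, j ∈ J ↔ s < ‖lam j‖ := by
      intro j; rw [hJ, Set.Finite.mem_toFinset]; rfl
    have e3 : ∑' j, (Set.Iio ‖lam j‖).indicator (fun _ => a j) s = ∑ j ∈ J, a j := by
      rw [tsum_eq_sum (s := J)]
      · refine Finset.sum_congr rfl fun j hj => ?_
        rw [Set.indicator_of_mem (Set.mem_Iio.mpr ((hJmem j).mp hj))]
      · intro j hj
        refine Set.indicator_of_notMem ?_ _
        rw [hJmem] at hj
        rw [Set.mem_Iio]
        exact hj
    rw [e3]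
    refine (ha J).trans ?_
    calc C * (J.card : ℝ≥0∞) ^ θ
        ≤ C * ∑ n ∈ Finset.range J.card, ENNReal.ofReal (((n : ℝ) + 1) ^ (θ - 1)) := by
          gcongr; exact card_pow_le θ h0 h1 J.card
      _ = ∑ n ∈ Finset.range J.card, (C * ENNReal.ofReal (((n : ℝ) + 1) ^ (θ - 1))) *
          (Set.Iic (rearr lam n)).indicator (fun _ => (1 : ℝ≥0∞)) s := by
          rw [Finset.mul_sum]
          refine Finset.sum_congr rfl fun n hn => ?_
          rw [Set.indicator_of_mem, mul_one]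
          refine rearr_bound h hs0.le ?_
          have hcard : {j | s < ‖lam j‖}.encard = J.card := by
            rw [← Set.encard_coe_eq_coe_finsetCard, hJ, Set.Finite.coe_toFinset]
          rw [hcard]
          exact_mod_cast Finset.mem_range.mp hn
      _ ≤ _ := ENNReal.sum_le_tsum _
  refine (setLIntegral_mono' measurableSet_Ioi e2).trans ?_
  rw [lintegral_tsum fun n => ((measurable_const.indicator measurableSet_Iic).const_mul
    _).aemeasurable, ← ENNReal.tsum_mul_left]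
  refine ENNReal.tsum_le_tsum fun n => ?_
  rw [lintegral_const_mul _ (measurable_const.indicator measurableSet_Iic),
    lintegral_indicator measurableSet_Iic, lintegral_const, Measure.restrict_restrict
      measurableSet_Iic, Measure.restrict_apply_univ, Set.inter_comm, Set.Ioi_inter_Iic,
      Real.volume_Ioc, sub_zero, one_mul, mul_assoc, ← ENNReal.ofReal_mul (by positivity)]

end Pool.Agent.N249.Ed
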