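import Pool.Agent.N249.Mixed
import Pool.Agent.N249.Layer
set_option autoImplicit false
set_option linter.unusedSectionVars false
set_option linter.unusedSimpArgs false
set_option linter.unusedVariables false

namespace Pool.Agent.N249.Ed
open MeasureTheory Complex Filter
open scoped ComplexConjugate ENNReal Topology

section AM
variable {H : Type*} [NormedAddCommGroup H] [InnerProductSpace ℂ H] [CompleteSpace H]
variable {X : Type*} [MeasurableSpace X]
variable {ν : Measure X} [SigmaFinite ν]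
variable {e : ℝ × X → H} {M : ℝ}

/-- weighted density of the whole system -/
noncomputable def wdens (e : ℝ × X → H) (f : ℕ → H) (lam : ℕ → ℂ) (z : ℝ × X) : ℝ≥0∞ :=
  ∑' j, ENNReal.ofReal ‖lam j‖ * ‖inner ℂ (e z) (f j)‖ₑ ^ 2

lemma wdens_meas (he : Fam e M) (f : ℕ → H) (lam : ℕ → ℂ) : Measurable (wdens e f lam) := by
  unfold wdens
  exact Measurable.ennreal_tsum fun j => ((he.inner_meas (f j)).measurable.enorm.pow_const 2).const_mul _

theorem abs_main {c₀ : ℝ} (hc₀ : 0 < c₀) {k : ℕ} (hk : 1 ≤ k) (he : Fam e M)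
    (hD : Disp ν e c₀ (k + 1)) (f : ℕ → H) (hf : Orthonormal ℂ f) (lam : ℕ → ℂ)
    (hlam : Tendsto lam atTop (𝓝 0)) :
    II ν k (wdens e f lam) ≤ (ENNReal.ofReal (KK c₀ k) *
      ∑' n : ℕ, ENNReal.ofReal (((n : ℝ) + 1) ^ (-(1 / ((k : ℝ) + 2))) * rearr lam n)) ^
        (((k : ℝ) + 2) / (k + 1)) := by
  have hk2 : (0 : ℝ) < (k : ℝ) + 2 := by positivity
  have hθ0 : 0 < 1 - 1 / ((k : ℝ) + 2) := by
    rw [sub_pos, div_lt_one hk2]
    have : (0 : ℝ) ≤ k := Nat.cast_nonneg k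
    linarith
  have hθ1 : 1 - 1 / ((k : ℝ) + 2) ≤ 1 := by
    have : 0 ≤ 1 / ((k : ℝ) + 2) := by positivity
    linarith
  refine mixed_of_dual hk _ (wdens_meas he f lam) _ fun g hg => ?_
  set a : ℕ → ℝ≥0∞ := fun j => ∫⁻ z, ‖inner ℂ (e z) (f j)‖ₑ ^ 2 * g z ∂((volume : Measure ℝ).prod ν)
    with ha
  have hmj : ∀ j, Measurable fun z => ‖inner ℂ (e z) (f j)‖ₑ ^ 2 * g z := fun j =>
    ((he.inner_meas (f j)).measurable.enorm.pow_const 2).mul hg
  have h1 : ∫⁻ z, wdens e f lam z * g z ∂((volume : Measure ℝ).prod ν) =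
      ∑' j, ENNReal.ofReal ‖lam j‖ * a j := by
    have h2 : ∀ z, wdens e f lam z * g z =
        ∑' j, ENNReal.ofReal ‖lam j‖ * (‖inner ℂ (e z) (f j)‖ₑ ^ 2 * g z) := by
      intro z
      unfold wdens
      rw [← ENNReal.tsum_mul_right]
      exact tsum_congr fun j => by ring
    simp_rw [h2]
    rw [lintegral_tsum fun j => ((hmj j).const_mul _).aemeasurable]
    exact tsum_congr fun j => lintegral_const_mul _ (hmj j)
  rw [h1]
  have h3 : ∀ J : Finset ℕ, ∑ j ∈ J, a j ≤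
      (ENNReal.ofReal (KK c₀ k) * (GG ν k g) ^ (1 / ((k : ℝ) + 2))) *
        (J.card : ℝ≥0∞) ^ (1 - 1 / ((k : ℝ) + 2)) := by
    intro J
    let en := J.equivFin
    let f' : Fin J.card → H := fun i => f (en.symm i : ℕ)
    have hf' : Orthonormal ℂ f' := hf.comp _ (Subtype.val_injective.comp en.symm.injective)
    have h4 := strong_abs hc₀ hk he hD f' hf' g hg
    refine le_trans (le_of_eq ?_) h4
    have h5 : ∀ z, dens e f' z * g z = ∑ j ∈ J, ‖inner ℂ (e z) (f j)‖ₑ ^ 2 * g z := by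
      intro z
      unfold dens
      rw [Finset.sum_mul, ← Finset.sum_coe_sort J]
      exact (Equiv.sum_comp en.symm (fun j : J => ‖inner ℂ (e z) (f (j : ℕ))‖ₑ ^ 2 * g z))
    simp_rw [h5]
    rw [lintegral_finsetSum' _ fun j _ => (hmj j).aemeasurable]
  have h6 := layer_cake hlam _ hθ0 hθ1 a _ h3
  refine h6.trans (le_of_eq ?_)
  have h7 : (1 - 1 / ((k : ℝ) + 2)) - 1 = -(1 / ((k : ℝ) + 2)) := by ring
  rw [h7]
  ring

end AM
end Pool.Agent.N249.Ed
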