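import Mathlib
set_option autoImplicit false
set_option linter.unusedSectionVars false
set_option linter.unusedSimpArgs false

namespace Pool.Agent.N249.Ed
open MeasureTheory Complex
open scoped ComplexConjugate ENNReal

section Basic
variable {H : Type*} [NormedAddCommGroup H] [InnerProductSpace ℂ H] [CompleteSpace H]
variable {Ω : Type*} [MeasurableSpace Ω]

/-- a bounded strongly measurable family of vectors -/
structure Fam (e : Ω → H) (M : ℝ) : Prop where
  meas : StronglyMeasurable e
  bdd : ∀ z, ‖e z‖ ≤ M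

noncomputable def T (e : Ω → H) (m : Measure Ω) (f : H) : H := ∫ z, (inner ℂ (e z) f) • e z ∂m

noncomputable def Q (e : Ω → H) (m : Measure Ω) (f : H) : ℝ := ∫ z, ‖inner ℂ (e z) f‖ ^ 2 ∂m

variable {e : Ω → H} {M : ℝ}

lemma Fam.inner_meas (he : Fam e M) (f : H) : StronglyMeasurable fun z => inner ℂ (e z) f :=
  he.meas.inner stronglyMeasurable_const

lemma Fam.inner_meas' (he : Fam e M) (f : H) : StronglyMeasurable fun z => inner ℂ f (e z) :=
  stronglyMeasurable_const.inner he.meas

lemma Fam.norm_inner_le (he : Fam e M) (f : H) (z : Ω) : ‖inner ℂ (e z) f‖ ≤ M * ‖f‖ :=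
  (norm_inner_le_norm _ _).trans (mul_le_mul_of_nonneg_right (he.bdd z) (norm_nonneg _))

lemma Fam.M_nonneg (he : Fam e M) (z : Ω) : 0 ≤ M := (norm_nonneg _).trans (he.bdd z)

lemma Fam.integrable_T (he : Fam e M) (m : Measure Ω) [IsFiniteMeasure m] (f : H) :
    Integrable (fun z => (inner ℂ (e z) f) • e z) m := by
  refine Integrable.of_bound (C := M * ‖f‖ * M) ?_ ?_
  · exact ((he.inner_meas f).smul he.meas).aestronglyMeasurable
  · refine Filter.Eventually.of_forall fun z => ?_
    rw [norm_smul]
    exact mul_le_mul (he.norm_inner_le f z) (he.bdd z) (norm_nonneg _)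
      (mul_nonneg (he.M_nonneg z) (norm_nonneg _))

lemma Fam.integrable_Q (he : Fam e M) (m : Measure Ω) [IsFiniteMeasure m] (f : H) :
    Integrable (fun z => ‖inner ℂ (e z) f‖ ^ 2) m := by
  refine Integrable.of_bound (C := (M * ‖f‖) ^ 2) ?_ ?_
  · exact ((he.inner_meas f).norm.pow 2).aestronglyMeasurable
  · refine Filter.Eventually.of_forall fun z => ?_
    rw [Real.norm_eq_abs, abs_of_nonneg (by positivity)]
    exact pow_le_pow_left₀ (norm_nonneg _) (he.norm_inner_le f z) 2

lemma inner_T (he : Fam e M) (m : Measure Ω) [IsFiniteMeasure m] (f h : H) :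
    inner ℂ h (T e m f) = ∫ z, inner ℂ (e z) f * inner ℂ h (e z) ∂m := by
  unfold T
  rw [← integral_inner (he.integrable_T m f)]
  simp [inner_smul_right]

lemma inner_T_self (he : Fam e M) (m : Measure Ω) [IsFiniteMeasure m] (f : H) :
    inner ℂ f (T e m f) = (Q e m f : ℂ) := by
  rw [inner_T he m f f]
  unfold Q
  rw [← integral_complex_ofReal]
  refine integral_congr_ae (Filter.Eventually.of_forall fun z => ?_)
  simp only
  rw [← inner_conj_symm f (e z), Complex.mul_conj]
  rw [Complex.normSq_eq_norm_sq]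

lemma T_symm (he : Fam e M) (m : Measure Ω) [IsFiniteMeasure m] (f h : H) :
    inner ℂ h (T e m f) = inner ℂ (T e m h) f := by
  rw [← inner_conj_symm (T e m h) f, inner_T he m f h, inner_T he m h f, ← integral_conj]
  refine integral_congr_ae (Filter.Eventually.of_forall fun z => ?_)
  simp only [map_mul, inner_conj_symm]
  ring

lemma Q_nonneg (m : Measure Ω) (f : H) : 0 ≤ Q e m f :=
  integral_nonneg fun _ => by positivity

lemma T_add_vec (he : Fam e M) (m : Measure Ω) [IsFiniteMeasure m] (f h : H) :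
    T e m (f + h) = T e m f + T e m h := by
  unfold T
  rw [← integral_add (he.integrable_T m f) (he.integrable_T m h)]
  simp [inner_add_right, add_smul]

lemma T_smul_vec (m : Measure Ω) (c : ℂ) (f : H) :
    T e m (c • f) = c • T e m f := by
  unfold T
  rw [← integral_smul]
  simp [inner_smul_right, mul_smul]

/-- Cauchy-Schwarz for the form -/
lemma norm_inner_T_le (he : Fam e M) (m : Measure Ω) [IsFiniteMeasure m] (f h : H) :
    ‖inner ℂ h (T e m f)‖ ≤ √(Q e m h) * √(Q e m f) := by
  rw [inner_T he m f h]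
  have h1 : ‖∫ z, inner ℂ (e z) f * inner ℂ h (e z) ∂m‖ ≤
      ∫ z, ‖inner ℂ (e z) f‖ * ‖inner ℂ (e z) h‖ ∂m := by
    refine (norm_integral_le_integral_norm _).trans (le_of_eq ?_)
    refine integral_congr_ae (Filter.Eventually.of_forall fun z => ?_)
    simp only [norm_mul]
    rw [norm_inner_symm h (e z)]
  refine h1.trans ?_
  have h2 := integral_mul_le_Lp_mul_Lq_of_nonneg (μ := m) (p := 2) (q := 2)
    (f := fun z => ‖inner ℂ (e z) f‖) (g := fun z => ‖inner ℂ (e z) h‖)
    Real.HolderConjugate.two_two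
    (Filter.Eventually.of_forall fun _ => norm_nonneg _)
    (Filter.Eventually.of_forall fun _ => norm_nonneg _) ?_ ?_
  · refine h2.trans (le_of_eq ?_)
    unfold Q
    simp only [Real.rpow_two]
    rw [← Real.sqrt_eq_rpow, ← Real.sqrt_eq_rpow, mul_comm]
  · rw [show ENNReal.ofReal 2 = 2 by simp]
    refine MemLp.of_bound (he.inner_meas f).norm.aestronglyMeasurable (M * ‖f‖) ?_
    exact Filter.Eventually.of_forall fun z => by
      rw [norm_norm]; exact he.norm_inner_le f z
  · rw [show ENNReal.ofReal 2 = 2 by simp]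
    refine MemLp.of_bound (he.inner_meas h).norm.aestronglyMeasurable (M * ‖h‖) ?_
    exact Filter.Eventually.of_forall fun z => by
      rw [norm_norm]; exact he.norm_inner_le h z

lemma norm_T_sq_le (he : Fam e M) (m : Measure Ω) [IsFiniteMeasure m] (L : ℝ)
    (hL : ∀ h, Q e m h ≤ L * ‖h‖ ^ 2) (f : H) : ‖T e m f‖ ^ 2 ≤ L * Q e m f := by
  have h1 := norm_inner_T_le he m f (T e m f)
  have h2 : ‖inner ℂ (T e m f) (T e m f)‖ = ‖T e m f‖ ^ 2 := by
    rw [inner_self_eq_norm_sq_to_K]
    simp
  rw [h2] at h1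
  by_cases h0 : ‖T e m f‖ = 0
  · rw [h0]
    have : 0 ≤ L * Q e m f := by
      by_cases hL0 : 0 ≤ L
      · exact mul_nonneg hL0 (Q_nonneg m f)
      · have := hL f
        have h3 := Q_nonneg (e := e) m f
        have h4 : L * ‖f‖ ^ 2 ≤ 0 := mul_nonpos_of_nonpos_of_nonneg (by linarith) (by positivity)
        have : Q e m f = 0 := by linarith
        rw [this]; simp
    simpa using this
  · have hpos : 0 < ‖T e m f‖ := lt_of_le_of_ne (norm_nonneg _) (Ne.symm h0)
    have h3 : √(Q e m (T e m f)) ≤ √L * ‖T e m f‖ := by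
      have := Real.sqrt_le_sqrt (hL (T e m f))
      have hLn : 0 ≤ L := by
        by_contra hneg
        have h5 := hL (T e m f)
        have h6 := Q_nonneg (e := e) m (T e m f)
        have : L * ‖T e m f‖ ^ 2 < 0 := mul_neg_of_neg_of_pos (by linarith) (by positivity)
        linarith
      rw [Real.sqrt_mul hLn, Real.sqrt_sq hpos.le] at this
      exact this
    have h4 : ‖T e m f‖ ^ 2 ≤ √L * ‖T e m f‖ * √(Q e m f) :=
      h1.trans (mul_le_mul_of_nonneg_right h3 (Real.sqrt_nonneg _))
    have h5 : ‖T e m f‖ ≤ √L * √(Q e m f) := by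
      have : ‖T e m f‖ * ‖T e m f‖ ≤ (√L * √(Q e m f)) * ‖T e m f‖ := by
        calc _ = ‖T e m f‖ ^ 2 := by ring
          _ ≤ _ := h4
          _ = _ := by ring
      exact le_of_mul_le_mul_right this hpos
    have hLn : 0 ≤ L := by
      by_contra hneg
      have h5 := hL (T e m f)
      have h6 := Q_nonneg (e := e) m (T e m f)
      have : L * ‖T e m f‖ ^ 2 < 0 := mul_neg_of_neg_of_pos (by linarith) (by positivity)
      linarith
    calc ‖T e m f‖ ^ 2 ≤ (√L * √(Q e m f)) ^ 2 := pow_le_pow_left₀ hpos.le h5 2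
      _ = L * Q e m f := by
        rw [mul_pow, Real.sq_sqrt hLn, Real.sq_sqrt (Q_nonneg m f)]

/-- the double integral -/
lemma inner_T_T (he : Fam e M) (m m' : Measure Ω) [IsFiniteMeasure m] [IsFiniteMeasure m']
    (f : H) : inner ℂ (T e m f) (T e m' f) =
      ∫ p, conj (inner ℂ (e p.1) f) * inner ℂ (e p.1) (e p.2) * inner ℂ (e p.2) f
        ∂(m.prod m') := by
  have hint : Integrable (fun p : Ω × Ω => conj (inner ℂ (e p.1) f) * inner ℂ (e p.1) (e p.2) *
      inner ℂ (e p.2) f) (m.prod m') := by
    refine Integrable.of_bound (C := (M * ‖f‖) * (M * M) * (M * ‖f‖)) ?_ ?_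
    · have h1 : StronglyMeasurable fun p : Ω × Ω => e p.1 := he.meas.comp_measurable measurable_fst
      have h2 : StronglyMeasurable fun p : Ω × Ω => e p.2 := he.meas.comp_measurable measurable_snd
      have h3 : StronglyMeasurable fun p : Ω × Ω => conj (inner ℂ (e p.1) f) :=
        RCLike.continuous_conj.comp_stronglyMeasurable (h1.inner stronglyMeasurable_const)
      exact ((h3.mul (h1.inner h2)).mul (h2.inner stronglyMeasurable_const)).aestronglyMeasurable
    · refine Filter.Eventually.of_forall fun p => ?_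
      have hM := he.M_nonneg p.1
      rw [norm_mul, norm_mul, RCLike.norm_conj]
      refine mul_le_mul (mul_le_mul (he.norm_inner_le _ _) ?_ (norm_nonneg _) (by positivity))
        (he.norm_inner_le _ _) (norm_nonneg _) (by positivity)
      exact (norm_inner_le_norm _ _).trans
        (mul_le_mul (he.bdd _) (he.bdd _) (norm_nonneg _) hM)
  rw [integral_prod _ hint]
  rw [← T_symm he m, inner_T he m]
  -- inner (e z) (T m' f) * inner f (e z)
  refine integral_congr_ae (Filter.Eventually.of_forall fun z => ?_)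
  simp only
  rw [inner_T he m' f (e z), ← integral_mul_const]
  refine integral_congr_ae (Filter.Eventually.of_forall fun w => ?_)
  simp only
  rw [inner_conj_symm]
  ring

end Basic
end Pool.Agent.N249.Ed
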