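import Pool.Agent.N249.NearFar
set_option autoImplicit false
set_option linter.unusedSectionVars false
set_option linter.unusedSimpArgs false

namespace Pool.Agent.N249.Ed
open MeasureTheory Complex
open scoped ComplexConjugate ENNReal

section Blocks
variable {H : Type*} [NormedAddCommGroup H] [InnerProductSpace ℂ H] [CompleteSpace H]
variable {Ω : Type*} [MeasurableSpace Ω]
variable {e : Ω → H} {M : ℝ}

lemma FF_rect (he : Fam e M) (m : Measure Ω) [IsFiniteMeasure m] (A A' : Set Ω) (f : H) :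
    ∫ p in A ×ˢ A', FF e f p ∂(m.prod m) =
      inner ℂ (T e (m.restrict A) f) (T e (m.restrict A') f) := by
  rw [inner_T_T he, Measure.prod_restrict]
  rfl

lemma Q_union (he : Fam e M) (m : Measure Ω) [IsFiniteMeasure m] (P : Set Ω)
    (hP : MeasurableSet P) (β : Ω → ℤ) (hβ : Measurable β) (K : Finset ℤ) (hK : ∀ z, β z ∈ K)
    (f : H) : ∑ b ∈ K, Q e (m.restrict (P ∩ {z | β z = b})) f = Q e (m.restrict P) f := by
  unfold Q
  have hun : P = ⋃ b ∈ K, P ∩ {z | β z = b} := by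
    ext z
    simp only [Set.mem_iUnion, Set.mem_inter_iff, Set.mem_setOf_eq, exists_prop]
    constructor
    · intro hz
      exact ⟨β z, hK z, hz, rfl⟩
    · rintro ⟨b, _, hz, _⟩
      exact hz
  conv_rhs => rw [hun]
  rw [integral_biUnion_finset]
  · intro b _
    exact hP.inter (hβ (measurableSet_singleton b))
  · intro b _ b' _ hbb
    refine Set.disjoint_left.mpr ?_
    rintro z ⟨_, h1⟩ ⟨_, h2⟩
    exact hbb (h1.symm.trans h2)
  · intro b _
    exact (he.integrable_Q m f).integrableOn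

lemma near_count (K : Finset ℤ) (u v : ℤ → ℝ) (hu : ∀ b, 0 ≤ u b) (hv : ∀ b, 0 ≤ v b) :
    ∑ q ∈ (K ×ˢ K).filter (fun q => |q.1 - q.2| ≤ 1), (u q.1 + v q.2) ≤
      3 * (∑ b ∈ K, u b + ∑ b ∈ K, v b) := by
  have hcard : ∀ b : ℤ, ((K.filter fun b' => |b - b'| ≤ 1).card : ℝ) ≤ 3 := by
    intro b
    have hsub : (K.filter fun b' => |b - b'| ≤ 1) ⊆ Finset.Icc (b - 1) (b + 1) := by
      intro b' hb'
      rw [Finset.mem_filter] at hb'
      rw [Finset.mem_Icc]
      have := abs_le.mp hb'.2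
      constructor <;> linarith [this.1, this.2]
    have := Finset.card_le_card hsub
    have h2 : (Finset.Icc (b - 1) (b + 1)).card = 3 := by
      rw [Int.card_Icc]
      have : b + 1 + 1 - (b - 1) = 3 := by ring
      rw [this]; rfl
    rw [h2] at this
    exact_mod_cast this
  have hcard' : ∀ b : ℤ, ((K.filter fun b' => |b' - b| ≤ 1).card : ℝ) ≤ 3 := by
    intro b
    have := hcard b
    simpa [abs_sub_comm] using this
  rw [Finset.sum_add_distrib, mul_add]
  refine add_le_add ?_ ?_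
  · rw [Finset.sum_filter, Finset.sum_product, Finset.mul_sum]
    refine Finset.sum_le_sum fun b _ => ?_
    rw [← Finset.sum_filter]
    simp only [Finset.sum_const, nsmul_eq_mul]
    exact mul_le_mul_of_nonneg_right (hcard b) (hu b)
  · rw [Finset.sum_filter, Finset.sum_product_right, Finset.mul_sum]
    refine Finset.sum_le_sum fun b _ => ?_
    rw [← Finset.sum_filter]
    simp only [Finset.sum_const, nsmul_eq_mul]
    exact mul_le_mul_of_nonneg_right (hcard' b) (hv b)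

lemma near_pair (he : Fam e M) (m : Measure Ω) [IsFiniteMeasure m] (P P' : Set Ω)
    (hP : MeasurableSet P) (hP' : MeasurableSet P') (β : Ω → ℤ) (hβ : Measurable β)
    (K : Finset ℤ) (hK : ∀ z, β z ∈ K) (f : H) (c : ℝ) (hc : 0 ≤ c)
    (h : ∀ b b', |b - b'| ≤ 1 →
      ‖inner ℂ (T e (m.restrict (P ∩ {z | β z = b})) f)
        (T e (m.restrict (P' ∩ {z | β z = b'})) f)‖ ≤
      c * (Q e (m.restrict (P ∩ {z | β z = b})) f + Q e (m.restrict (P' ∩ {z | β z = b'})) f)) :
    ‖∫ p in (P ×ˢ P') ∩ {p | |β p.1 - β p.2| ≤ 1}, FF e f p ∂(m.prod m)‖ ≤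
      3 * c * (Q e (m.restrict P) f + Q e (m.restrict P') f) := by
  set S := (K ×ˢ K).filter (fun q => |q.1 - q.2| ≤ 1) with hS
  have hun : (P ×ˢ P') ∩ {p | |β p.1 - β p.2| ≤ 1} =
      ⋃ q ∈ S, (P ∩ {z | β z = q.1}) ×ˢ (P' ∩ {z | β z = q.2}) := by
    ext p
    simp only [Set.mem_iUnion, Set.mem_inter_iff, Set.mem_setOf_eq, exists_prop, Set.mem_prod,
      hS, Finset.mem_filter, Finset.mem_product]
    constructor
    · rintro ⟨⟨h1, h2⟩, h3⟩
      exact ⟨(β p.1, β p.2), ⟨⟨hK _, hK _⟩, h3⟩, ⟨h1, rfl⟩, ⟨h2, rfl⟩⟩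
    · rintro ⟨q, ⟨⟨_, _⟩, h3⟩, ⟨h1, h4⟩, ⟨h2, h5⟩⟩
      refine ⟨⟨h1, h2⟩, ?_⟩
      rw [h4, h5]; exact h3
  rw [hun, integral_biUnion_finset]
  · refine (norm_sum_le _ _).trans ?_
    have h1 : ∀ q ∈ S, ‖∫ p in (P ∩ {z | β z = q.1}) ×ˢ (P' ∩ {z | β z = q.2}),
        FF e f p ∂(m.prod m)‖ ≤ c * Q e (m.restrict (P ∩ {z | β z = q.1})) f +
          c * Q e (m.restrict (P' ∩ {z | β z = q.2})) f := by
      intro q hq
      rw [FF_rect he, ← mul_add]
      exact h q.1 q.2 (Finset.mem_filter.mp hq).2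
    refine (Finset.sum_le_sum h1).trans ?_
    refine (near_count K (fun b => c * Q e (m.restrict (P ∩ {z | β z = b})) f)
      (fun b => c * Q e (m.restrict (P' ∩ {z | β z = b})) f)
      (fun b => mul_nonneg hc (Q_nonneg _ _)) (fun b => mul_nonneg hc (Q_nonneg _ _))).trans ?_
    rw [← Finset.mul_sum, ← Finset.mul_sum, Q_union he m P hP β hβ K hK,
      Q_union he m P' hP' β hβ K hK]
    exact le_of_eq (by ring)
  · intro q _
    exact (hP.inter (hβ (measurableSet_singleton _))).prod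
      (hP'.inter (hβ (measurableSet_singleton _)))
  · intro q _ q' _ hqq
    refine Set.disjoint_left.mpr ?_
    rintro z ⟨⟨_, h1⟩, ⟨_, h2⟩⟩ ⟨⟨_, h3⟩, ⟨_, h4⟩⟩
    refine hqq (Prod.ext ?_ ?_)
    · exact h1.symm.trans h3
    · exact h2.symm.trans h4
  · intro q _
    exact (he.FF_integrable _ f).integrableOn

/-- single level near bound -/
lemma near_single (he : Fam e M) (m : Measure Ω) [IsFiniteMeasure m] (β : Ω → ℤ)
    (hβ : Measurable β) (K : Finset ℤ) (hK : ∀ z, β z ∈ K) (L : ℝ) (hL0 : 0 ≤ L)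
    (hL : ∀ b, ∀ h, Q e (m.restrict {z | β z = b}) h ≤ L * ‖h‖ ^ 2) (f : H) :
    (∫ p in {p : Ω × Ω | |β p.1 - β p.2| ≤ 1}, FF e f p ∂(m.prod m)).re ≤
      3 * L * Q e m f := by
  have h1 := near_pair he m Set.univ Set.univ MeasurableSet.univ MeasurableSet.univ β hβ K hK f
    (L / 2) (by positivity) ?_
  · simp only [Set.univ_prod_univ, Set.univ_inter, Measure.restrict_univ] at h1
    refine (Complex.re_le_norm _).trans (h1.trans (le_of_eq ?_))
    ring
  · intro b b' _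
    simp only [Set.univ_inter]
    have h2 := norm_T_sq_le he (m.restrict {z | β z = b}) L (hL b) f
    have h3 := norm_T_sq_le he (m.restrict {z | β z = b'}) L (hL b') f
    refine (norm_inner_le_norm _ _).trans ?_
    nlinarith [sq_nonneg (‖T e (m.restrict {z | β z = b}) f‖ -
      ‖T e (m.restrict {z | β z = b'}) f‖)]

end Blocks
end Pool.Agent.N249.Ed
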