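import Mathlib
set_option autoImplicit false

/-!
# An everywhere divergent trigonometric series with coefficients in every `ℓ^p`, `p > 2`

The series `∑ cos (n x + n log n) / √n`, with `aₙ = cos (n log n) / √n` and
`bₙ = - sin (n log n) / √n`, diverges at every real `x`, and `∑ |aₙ|^{2+ε} + |bₙ|^{2+ε} < ∞` for
every `ε > 0`.
-/

namespace Pool.Agent.N249.ExplicitSeries

open Filter Topology Finset

/-- the cosine coefficients -/
noncomputable def a (n : ℕ) : ℝ := Real.cos (n * Real.log n) / Real.sqrt n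

/-- the sine coefficients -/
noncomputable def b (n : ℕ) : ℝ := -(Real.sin (n * Real.log n) / Real.sqrt n)

/-- the partial sums `∑_{n=1}^N (aₙ cos (n x) + bₙ sin (n x))` -/
noncomputable def partialSum (a b : ℕ → ℝ) (x : ℝ) (N : ℕ) : ℝ :=
  ∑ n ∈ Icc 1 N, (a n * Real.cos (n * x) + b n * Real.sin (n * x))

lemma term_eq (n : ℕ) (x : ℝ) : a n * Real.cos (n * x) + b n * Real.sin (n * x) =
    Real.cos (n * Real.log n + n * x) / Real.sqrt n := by
  unfold a b
  rw [Real.cos_add]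
  ring

/-- the phase `t (log (t / m) - 1)` -/
noncomputable def h (m t : ℝ) : ℝ := t * (Real.log (t / m) - 1)

lemma h_mono_bound {m s t : ℝ} (hm : 0 < m) (hs : m ≤ s) (hst : s ≤ t) :
    0 ≤ h m t - h m s ∧ h m t - h m s ≤ (t - s) * (t / m - 1) := by
  have hs0 : 0 < s := hm.trans_le hs
  have ht0 : 0 < t := hs0.trans_le hst
  have e1 : Real.log (t / m) = Real.log (t / s) + Real.log (s / m) := by
    rw [← Real.log_mul (by positivity) (by positivity)]
    congr 1; field_simp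
  have l1 : 1 - s / t ≤ Real.log (t / s) := by
    have := Real.one_sub_inv_le_log_of_pos (show 0 < t / s by positivity)
    rwa [inv_div] at this
  have l2 : Real.log (t / s) ≤ t / s - 1 := Real.log_le_sub_one_of_pos (by positivity)
  have l3 : 0 ≤ Real.log (s / m) := Real.log_nonneg (by rwa [one_le_div hm])
  have l4 : Real.log (t / m) ≤ t / m - 1 := Real.log_le_sub_one_of_pos (by positivity)
  unfold h
  constructor
  · have e2 : t * (Real.log (t / m) - 1) - s * (Real.log (s / m) - 1) =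
        (t - s) * Real.log (s / m) + (t * Real.log (t / s) - (t - s)) := by rw [e1]; ring
    rw [e2]
    have p1 : 0 ≤ (t - s) * Real.log (s / m) := mul_nonneg (by linarith) l3
    have p2 : t - s ≤ t * Real.log (t / s) := by
      calc t - s = t * (1 - s / t) := by field_simp
        _ ≤ _ := mul_le_mul_of_nonneg_left l1 ht0.le
    linarith
  · have e2 : t * (Real.log (t / m) - 1) - s * (Real.log (s / m) - 1) =
        (t - s) * Real.log (t / m) + (s * Real.log (t / s) - (t - s)) := by rw [e1]; ring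
    rw [e2]
    have p2 : s * Real.log (t / s) ≤ t - s := by
      calc s * Real.log (t / s) ≤ s * (t / s - 1) := mul_le_mul_of_nonneg_left l2 hs0.le
        _ = t - s := by field_simp
    have p3 : (t - s) * Real.log (t / m) ≤ (t - s) * (t / m - 1) :=
      mul_le_mul_of_nonneg_left l4 (by linarith)
    linarith

/-- the phase passes through a multiple of `2π` shortly after `m` -/
lemma exists_phase {m : ℝ} (hm : 400 ≤ m) :
    ∃ s, m ≤ s ∧ s ≤ m + 4 * Real.sqrt m ∧ ∃ l : ℤ, h m s = l * (2 * Real.pi) := by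
  have hm0 : 0 < m := by linarith
  set r := Real.sqrt m with hr
  have hr20 : 20 ≤ r := by
    rw [hr]; apply Real.le_sqrt_of_sq_le; linarith
  have hrr : r * r = m := Real.mul_self_sqrt hm0.le
  have hcont : ContinuousOn (h m) (Set.Icc m (m + 4 * r)) := by
    unfold h
    refine continuousOn_id.mul (ContinuousOn.sub ?_ continuousOn_const)
    refine ContinuousOn.log (continuousOn_id.div_const m) fun x hx => ?_
    have : 0 < x := hm0.trans_le hx.1
    exact (div_pos this hm0).ne'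
  have hinc : 7 ≤ h m (m + 4 * r) - h m m := by
    have e1 : (m + 4 * r) / m = 1 + 4 / r := by
      rw [← hrr]; field_simp
    unfold h
    rw [e1, div_self hm0.ne', Real.log_one]
    have l1 := Real.le_log_one_add_of_nonneg (show 0 ≤ 4 / r by positivity)
    have e2 : 2 * (4 / r) / (4 / r + 2) = 4 / (2 + r) := by field_simp; ring
    rw [e2] at l1
    have p1 : 0 < m + 4 * r := by positivity
    have p2 : (m + 4 * r) * (4 / (2 + r)) ≤ (m + 4 * r) * Real.log (1 + 4 / r) :=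
      mul_le_mul_of_nonneg_left l1 p1.le
    have p3 : (m + 4 * r) * (4 / (2 + r)) = 4 * r + 8 - 16 / (2 + r) := by
      rw [← hrr]; field_simp; ring
    have p4 : 16 / (2 + r) ≤ 1 := by rw [div_le_one (by positivity)]; linarith
    nlinarith
  have hpi : 2 * Real.pi < 7 := by nlinarith [Real.pi_lt_d2]
  set l : ℤ := ⌈h m m / (2 * Real.pi)⌉ with hl
  have hpi0 : 0 < 2 * Real.pi := by positivity
  have l1 : h m m ≤ l * (2 * Real.pi) := by
    rw [← div_le_iff₀ hpi0]; exact Int.le_ceil _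
  have l2 : l * (2 * Real.pi) ≤ h m (m + 4 * r) := by
    have := Int.ceil_lt_add_one (h m m / (2 * Real.pi))
    have h3 : (l : ℝ) * (2 * Real.pi) < (h m m / (2 * Real.pi) + 1) * (2 * Real.pi) :=
      mul_lt_mul_of_pos_right this hpi0
    rw [add_mul, div_mul_cancel₀ _ hpi0.ne', one_mul] at h3
    linarith
  obtain ⟨s, hs, hs2⟩ := intermediate_value_Icc (by linarith : m ≤ m + 4 * r) hcont ⟨l1, l2⟩
  exact ⟨s, hs.1, hs.2, l, hs2⟩

lemma half_le_cos_one : 1 / 2 ≤ Real.cos 1 := by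
  rw [← Real.cos_pi_div_three]
  refine Real.cos_le_cos_of_nonneg_of_le_pi zero_le_one ?_ ?_
  · linarith [Real.pi_pos]
  · linarith [Real.pi_gt_three]

/-- a long run of terms with a large sum -/
lemma run (x : ℝ) (j : ℕ) (hj : 400 ≤ Real.exp (2 * Real.pi * j - 1 - x)) :
    ∃ N₁ N₂ : ℕ, Real.exp (2 * Real.pi * j - 1 - x) - 1 ≤ N₁ ∧ N₁ ≤ N₂ ∧
      1 / 40 ≤ partialSum a b x N₂ - partialSum a b x N₁ := by
  set m := Real.exp (2 * Real.pi * j - 1 - x) with hm
  have hm0 : 0 < m := Real.exp_pos _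
  set r := Real.sqrt m with hr
  have hr20 : 20 ≤ r := by
    rw [hr]; apply Real.le_sqrt_of_sq_le; linarith
  have hrr : r * r = m := Real.mul_self_sqrt hm0.le
  obtain ⟨s, hs1, hs2, l, hl⟩ := exists_phase hj
  rw [← hr] at hs2
  have hs0 : 0 < s := hm0.trans_le hs1
  refine ⟨⌊s⌋₊, ⌊s + r / 5⌋₊, ?_, Nat.floor_mono (by linarith), ?_⟩
  · have := Nat.sub_one_lt_floor s
    linarith
  have hN : ⌊s⌋₊ ≤ ⌊s + r / 5⌋₊ := Nat.floor_mono (by linarith)
  have hdiff : partialSum a b x ⌊s + r / 5⌋₊ - partialSum a b x ⌊s⌋₊ =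
      ∑ n ∈ Ioc ⌊s⌋₊ ⌊s + r / 5⌋₊, Real.cos (n * Real.log n + n * x) / Real.sqrt n := by
    unfold partialSum
    have hu : Icc 1 ⌊s + r / 5⌋₊ = Icc 1 ⌊s⌋₊ ∪ Ioc ⌊s⌋₊ ⌊s + r / 5⌋₊ := by
      ext n
      simp only [mem_Icc, mem_union, mem_Ioc]
      constructor
      · rintro ⟨h1, h2⟩
        rcases le_or_gt n ⌊s⌋₊ with h | h
        · exact Or.inl ⟨h1, h⟩
        · exact Or.inr ⟨h, h2⟩
      · rintro (⟨h1, h2⟩ | ⟨h1, h2⟩)
        · exact ⟨h1, h2.trans hN⟩
        · exact ⟨by omega, h2⟩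
    have hdisj : Disjoint (Icc 1 ⌊s⌋₊) (Ioc ⌊s⌋₊ ⌊s + r / 5⌋₊) := by
      rw [Finset.disjoint_left]
      intro n h1 h2
      rw [mem_Icc] at h1
      rw [mem_Ioc] at h2
      omega
    rw [hu, Finset.sum_union hdisj, add_sub_cancel_left]
    exact Finset.sum_congr rfl fun n _ => term_eq n x
  rw [hdiff]
  have hterm : ∀ n ∈ Ioc ⌊s⌋₊ ⌊s + r / 5⌋₊, 1 / (4 * r) ≤
      Real.cos (n * Real.log n + n * x) / Real.sqrt n := by
    intro n hn
    rw [mem_Ioc] at hn
    have hn1 : s < n := (Nat.floor_lt hs0.le).mp hn.1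
    have hn2 : (n : ℝ) ≤ s + r / 5 := by
      exact (Nat.le_floor_iff (by positivity)).mp hn.2
    have hn0 : (0 : ℝ) < n := hs0.trans hn1
    obtain ⟨b1, b2⟩ := h_mono_bound hm0 hs1 hn1.le
    have b3 : h m n - h m s ≤ 1 := by
      refine b2.trans ?_
      have e1 : (n : ℝ) - s ≤ r / 5 := by linarith
      have e2 : (n : ℝ) / m - 1 ≤ 5 / r := by
        rw [sub_le_iff_le_add, div_le_iff₀ hm0, ← hrr]
        have : (5 / r + 1) * (r * r) = 5 * r + r * r := by field_simp
        rw [this]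
        nlinarith
      calc ((n : ℝ) - s) * ((n : ℝ) / m - 1) ≤ (r / 5) * (5 / r) := by
            refine mul_le_mul e1 e2 ?_ (by positivity)
            rw [sub_nonneg, one_le_div hm0]; linarith
        _ = 1 := by field_simp
    have hph : (n : ℝ) * Real.log n + n * x = h m n + ((j * n : ℕ) : ℝ) * (2 * Real.pi) := by
      unfold h
      rw [Real.log_div hn0.ne' hm0.ne', hm, Real.log_exp]
      push_cast
      ring
    have hcos : 1 / 2 ≤ Real.cos (n * Real.log n + n * x) := by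
      rw [hph, Real.cos_add_nat_mul_two_pi]
      have e : h m n = (h m n - h m s) + l * (2 * Real.pi) := by rw [hl]; ring
      rw [e, Real.cos_add_int_mul_two_pi]
      refine half_le_cos_one.trans ?_
      refine Real.cos_le_cos_of_nonneg_of_le_pi b1 ?_ b3
      linarith [Real.pi_gt_three]
    have hsq : Real.sqrt n ≤ 2 * r := by
      rw [Real.sqrt_le_left (by positivity)]
      nlinarith
    have hsq0 : 0 < Real.sqrt n := Real.sqrt_pos.mpr hn0
    rw [div_le_div_iff₀ (by positivity) hsq0]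
    nlinarith
  have hcard : r / 10 ≤ ((Ioc ⌊s⌋₊ ⌊s + r / 5⌋₊).card : ℝ) := by
    rw [Nat.card_Ioc, Nat.cast_sub hN]
    have h1 := Nat.sub_one_lt_floor (s + r / 5)
    have h2 := Nat.floor_le hs0.le
    linarith
  calc (1 : ℝ) / 40 = r / 10 * (1 / (4 * r)) := by field_simp; norm_num
    _ ≤ ((Ioc ⌊s⌋₊ ⌊s + r / 5⌋₊).card : ℝ) * (1 / (4 * r)) :=
        mul_le_mul_of_nonneg_right hcard (by positivity)
    _ = ∑ _n ∈ Ioc ⌊s⌋₊ ⌊s + r / 5⌋₊, 1 / (4 * r) := by rw [Finset.sum_const, nsmul_eq_mul]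
    _ ≤ _ := Finset.sum_le_sum hterm

lemma diverges (x : ℝ) : ¬ ∃ L : ℝ, Tendsto (partialSum a b x) atTop (𝓝 L) := by
  rintro ⟨L, hL⟩
  have hc := hL.cauchySeq
  rw [Metric.cauchySeq_iff] at hc
  obtain ⟨N, hN⟩ := hc (1 / 40) (by norm_num)
  have hlim : Tendsto (fun j : ℕ => Real.exp (2 * Real.pi * j - 1 - x)) atTop atTop := by
    refine Real.tendsto_exp_atTop.comp ?_
    have : Tendsto (fun j : ℕ => 2 * Real.pi * (j : ℝ)) atTop atTop :=
      tendsto_natCast_atTop_atTop.const_mul_atTop (by positivity)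
    have h2 := tendsto_atTop_add_const_right atTop (-1 - x) this
    refine h2.congr fun j => by ring
  obtain ⟨j, hj⟩ := (hlim.eventually (eventually_ge_atTop (max 400 ((N : ℝ) + 1)))).exists
  obtain ⟨N₁, N₂, h1, h2, h3⟩ := run x j ((le_max_left _ _).trans hj)
  have h4 : N ≤ N₁ := by
    have : (N : ℝ) ≤ N₁ := by linarith [(le_max_right (400 : ℝ) ((N : ℝ) + 1)).trans hj]
    exact_mod_cast this
  have h5 := hN N₂ (h4.trans h2) N₁ h4
  rw [Real.dist_eq] at h5
  linarith [le_abs_self (partialSum a b x N₂ - partialSum a b x N₁)]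

lemma summable_of_le {c : ℕ → ℝ} (hc : ∀ n, |c n| ≤ (n : ℝ) ^ (-(1 / 2 : ℝ))) {ε : ℝ} (hε : 0 < ε) :
    Summable fun n => |c n| ^ (2 + ε) := by
  have h1 : Summable fun n : ℕ => (n : ℝ) ^ (-(1 + ε / 2)) := by
    rw [Real.summable_nat_rpow]
    linarith
  refine Summable.of_nonneg_of_le (fun n => by positivity) (fun n => ?_) h1
  calc |c n| ^ (2 + ε) ≤ ((n : ℝ) ^ (-(1 / 2 : ℝ))) ^ (2 + ε) :=
        Real.rpow_le_rpow (abs_nonneg _) (hc n) (by linarith)
    _ = (n : ℝ) ^ (-(1 + ε / 2)) := by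
        rw [← Real.rpow_mul (Nat.cast_nonneg n)]
        congr 1; ring

/-- **Theorem.** There is a real trigonometric series `∑ (aₙ cos (n x) + bₙ sin (n x))` which
diverges at every real `x`, while `∑ (|aₙ|^{2+ε} + |bₙ|^{2+ε}) < ∞` for every `ε > 0`. -/
theorem result : ∃ a b : ℕ → ℝ,
    (∀ ε : ℝ, 0 < ε → Summable fun n => |a n| ^ (2 + ε) + |b n| ^ (2 + ε)) ∧
    ∀ x : ℝ, ¬ ∃ L : ℝ, Tendsto (partialSum a b x) atTop (𝓝 L) := by
  have hle : ∀ (n : ℕ) (y : ℝ), |y| ≤ 1 → |y / Real.sqrt n| ≤ (n : ℝ) ^ (-(1 / 2 : ℝ)) := by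
    intro n y hy
    rw [abs_div, abs_of_nonneg (Real.sqrt_nonneg _), Real.rpow_neg (Nat.cast_nonneg n),
      ← Real.sqrt_eq_rpow, div_eq_mul_inv]
    calc |y| * (Real.sqrt n)⁻¹ ≤ 1 * (Real.sqrt n)⁻¹ :=
          mul_le_mul_of_nonneg_right hy (by positivity)
      _ = _ := one_mul _
  refine ⟨a, b, fun ε hε => ?_, diverges⟩
  refine (summable_of_le (fun n => ?_) hε).add (summable_of_le (fun n => ?_) hε)
  · exact hle n _ (Real.abs_cos_le_one _)
  · unfold b
    rw [abs_neg]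
    exact hle n _ (Real.abs_sin_le_one _)

end Pool.Agent.N249.ExplicitSeries
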