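import Mathlib
set_option autoImplicit false
set_option linter.unusedSectionVars false
set_option linter.unusedSimpArgs false
set_option linter.unusedVariables false

namespace Pool.Agent.N249.Ed
open MeasureTheory Complex Filter FourierTransform SchwartzMap
open scoped ENNReal Topology RealInnerProductSpace ContDiff

section FTsec
variable {E : Type*} [NormedAddCommGroup E] [InnerProductSpace ℝ E] [FiniteDimensional ℝ E]
  [MeasurableSpace E] [BorelSpace E]

lemma continuous_fourierInv_fun {φ : E → ℂ} (h : Integrable φ) : Continuous (𝓕⁻ φ) := by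
  have h1 : MemLp φ 1 := memLp_one_iff_integrable.mpr h
  rw [← Real.Lp.fourierTransformInv_toLp h1]
  exact (Real.Lp.fourierTransformInv h1.toLp).continuous

lemma fubini_inv {φ : E → ℂ} (h : Integrable φ) (g : 𝓢(E, ℂ)) :
    ∫ x, g x • (𝓕⁻ φ) x = ∫ x, (𝓕⁻ g) x • φ x := by
  have h1 := VectorFourier.integral_fourierIntegral_smul_eq_flip (μ := (volume : Measure E))
    (ν := (volume : Measure E)) (L := -innerₗ E) (e := Real.fourierChar) (f := (g : E → ℂ)) (g := φ)
    Real.continuous_fourierChar (by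
      simp only [LinearMap.neg_apply, innerₗ_apply_apply]
      exact (continuous_fst.inner continuous_snd).neg) g.integrable h
  have h2 : (-innerₗ E).flip = -innerₗ E := by
    ext x y
    simp [real_inner_comm]
  rw [h2] at h1
  rw [SchwartzMap.fourierInv_coe]
  exact h1.symm

/-- on `L^1 ∩ L^2` the two inverse Fourier transforms coincide -/
theorem fourierInv_L12 {φ : E → ℂ} (h1 : Integrable φ) (h2 : MemLp φ 2) :
    ((𝓕⁻ (h2.toLp φ) : Lp ℂ 2 (volume : Measure E)) : E → ℂ) =ᵐ[volume] 𝓕⁻ φ := by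
  refine ae_eq_of_integral_contDiff_smul_eq ((Lp.memLp _).locallyIntegrable (by norm_num))
    (continuous_fourierInv_fun h1).locallyIntegrable fun g hg hgs => ?_
  have hg₁ : HasCompactSupport (Complex.ofRealCLM ∘ g) := hgs.comp_left rfl
  have hg₂ : ContDiff ℝ ∞ (Complex.ofRealCLM ∘ g) := by fun_prop
  set G : 𝓢(E, ℂ) := hg₁.toSchwartzMap hg₂ with hG
  have hGx : ∀ x, G x = (g x : ℂ) := fun x => rfl
  have e1 : ∫ x, g x • ((𝓕⁻ (h2.toLp φ) : Lp ℂ 2 (volume : Measure E)) : E → ℂ) x =
      ((𝓕⁻ (h2.toLp φ) : Lp ℂ 2 (volume : Measure E)) : 𝓢'(E, ℂ)) G := by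
    rw [Lp.toTemperedDistribution_apply]
    refine integral_congr_ae (Filter.Eventually.of_forall fun x => ?_)
    simp only [hGx, Complex.real_smul, smul_eq_mul]
  rw [e1, ← Lp.fourierInv_toTemperedDistribution_eq, TemperedDistribution.fourierInv_apply,
    Lp.toTemperedDistribution_apply]
  have e2 : ∫ x, (𝓕⁻ G) x • (h2.toLp φ : E → ℂ) x = ∫ x, (𝓕⁻ G) x • φ x := by
    refine integral_congr_ae ?_
    filter_upwards [h2.coeFn_toLp] with x hx
    rw [hx]
  rw [e2, ← fubini_inv h1 G]
  refine integral_congr_ae (Filter.Eventually.of_forall fun x => ?_)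
  simp only [hGx, Complex.real_smul, smul_eq_mul]

end FTsec
end Pool.Agent.N249.Ed
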