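import Pool.Agent.N249.Limit
set_option autoImplicit false
set_option linter.unusedSectionVars false
set_option linter.unusedSimpArgs false
set_option linter.unusedVariables false

namespace Pool.Agent.N249.Ed
open MeasureTheory Complex Filter FourierTransform
open scoped ENNReal Topology RealInnerProductSpace ComplexConjugate

theorem final_raw {k : ℕ} (hk : 1 ≤ k) (h : ℕ → Lp ℂ 2 (volume : Measure (Rd (k + 1))))
    (hh : Orthonormal ℂ h) (lam : ℕ → ℂ) (hlam : Tendsto lam atTop (𝓝 0))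
    (L : ℝ≥0∞) (hL : L = ∑' n : ℕ, ENNReal.ofReal (((n : ℝ) + 1) ^ (-(1 / ((k : ℝ) + 2))) * rearr lam n))
    (hLfin : L ≠ ∞) (p q : ℝ) (hp : p = ((k : ℝ) + 2) / (k + 1)) (hq : q = ((k : ℝ) + 2) / k) :
    (∀ᵐ t : ℝ, ∀ᵐ x : Rd (k + 1),
      Summable fun j => lam j * ((‖PP le_rfl t (h j) x‖ ^ 2 : ℝ) : ℂ)) ∧
    (∃ G : ℝ × Rd (k + 1) → ℂ, Measurable G ∧ ∀ t : ℝ, ∀ᵐ x : Rd (k + 1),
      G (t, x) = ∑' j, lam j * ((‖PP le_rfl t (h j) x‖ ^ 2 : ℝ) : ℂ)) ∧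
    Measurable (fun t : ℝ => eLpNorm (fun x : Rd (k + 1) =>
      ∑' j, lam j * ((‖PP le_rfl t (h j) x‖ ^ 2 : ℝ) : ℂ)) (ENNReal.ofReal q) volume) ∧
    (∫⁻ t : ℝ, eLpNorm (fun x : Rd (k + 1) =>
      ∑' j, lam j * ((‖PP le_rfl t (h j) x‖ ^ 2 : ℝ) : ℂ)) (ENNReal.ofReal q) volume ^ p) ^ (1 / p) ≤
      ENNReal.ofReal (KK ((1 / (4 * Real.pi)) ^ (k + 1)) k) * L := by
  have hk0 : (0 : ℝ) < k := by exact_mod_cast hk
  have hq0 : 0 < q := by rw [hq]; positivity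
  have hp0 : 0 < p := by rw [hp]; positivity
  have hmain := main_limit hk h hh lam hlam
  rw [← hL, ← hq, ← hp] at hmain
  set KL : ℝ≥0∞ := ENNReal.ofReal (KK ((1 / (4 * Real.pi)) ^ (k + 1)) k) * L with hKL
  have hKLfin : KL ≠ ∞ := ENNReal.mul_ne_top ENNReal.ofReal_ne_top hLfin
  -- representatives
  obtain ⟨ε, hε, hD⟩ := exists_eps h
  obtain ⟨R, hRm, hRae⟩ : ∃ R : ℕ → ℝ × Rd (k + 1) → ℝ≥0∞, (∀ j, Measurable (R j)) ∧
      ∀ t : ℝ, ∀ᵐ x : Rd (k + 1), ∀ j, R j (t, x) = ‖PP le_rfl t (h j) x‖ₑ ^ 2 :=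
    ⟨Rj h ε hε, Rj_meas h ε hε, Rj_ae h ε hε hD⟩
  -- the weighted density
  have henorm : ∀ (t : ℝ) (x : Rd (k + 1)) (j : ℕ),
      ‖lam j * ((‖PP le_rfl t (h j) x‖ ^ 2 : ℝ) : ℂ)‖ₑ =
        ENNReal.ofReal ‖lam j‖ * ‖PP le_rfl t (h j) x‖ₑ ^ 2 := by
    intro t x j
    rw [enorm_mul, ← ofReal_norm (lam j), enorm_sq_eq]
    congr 1
    rw [← ofReal_norm, Complex.norm_real, Real.norm_eq_abs, abs_of_nonneg (by positivity)]
  have hW : ∀ t : ℝ, ∫⁻ x : Rd (k + 1), (∑' j, ENNReal.ofReal ‖lam j‖ * ‖PP le_rfl t (h j) x‖ₑ ^ 2) ^ q =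
      ∫⁻ x : Rd (k + 1), (∑' j, ENNReal.ofReal ‖lam j‖ * R j (t, x)) ^ q := by
    intro t
    refine lintegral_congr_ae ?_
    filter_upwards [hRae t] with x hx
    congr 1
    exact tsum_congr fun j => by rw [hx j]
  have hRsum : Measurable fun z : ℝ × Rd (k + 1) => (∑' j, ENNReal.ofReal ‖lam j‖ * R j z) ^ q :=
    (Measurable.tsum fun j => (hRm j).const_mul _).pow_const q
  have hFm : Measurable fun z : ℝ × Rd (k + 1) => ∑' j, lam j * ((((R j z).toReal : ℝ)) : ℂ) :=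
      Measurable.tsum fun j => (Complex.measurable_ofReal.comp (hRm j).ennreal_toReal).const_mul _
  refine ⟨?_, ?_, ?_, ?_⟩
  · -- summability
    have hpos : (0 : ℝ) < (k : ℝ) / (k + 1) := by positivity
    have hfin1 : ∫⁻ t : ℝ, (∫⁻ x : Rd (k + 1), (∑' j, ENNReal.ofReal ‖lam j‖ * R j (t, x)) ^ q) ^
        ((k : ℝ) / (k + 1)) ≠ ∞ := by
      have : ∫⁻ t : ℝ, (∫⁻ x : Rd (k + 1), (∑' j, ENNReal.ofReal ‖lam j‖ * R j (t, x)) ^ q) ^
        ((k : ℝ) / (k + 1)) = ∫⁻ t : ℝ, (∫⁻ x : Rd (k + 1), (∑' j, ENNReal.ofReal ‖lam j‖ * ‖PP le_rfl t (h j) x‖ₑ ^ 2) ^ q) ^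
        ((k : ℝ) / (k + 1)) := lintegral_congr fun t => by rw [hW t]
      rw [this]
      exact ne_top_of_le_ne_top (ENNReal.rpow_ne_top_of_nonneg hp0.le hKLfin) hmain
    have h1 := ae_lt_top ((hRsum.lintegral_prod_right').pow_const ((k : ℝ) / (k + 1))) hfin1
    filter_upwards [h1] with t ht
    have ht2 : ∫⁻ x : Rd (k + 1), (∑' j, ENNReal.ofReal ‖lam j‖ * R j (t, x)) ^ q ≠ ∞ := by
      intro hcon
      rw [hcon, ENNReal.top_rpow_of_pos hpos] at ht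
      exact lt_irrefl _ ht
    have h2 := ae_lt_top (hRsum.comp measurable_prodMk_left) ht2
    filter_upwards [h2, hRae t] with x hx hx2
    have h3 : ∑' j, ‖lam j * ((‖PP le_rfl t (h j) x‖ ^ 2 : ℝ) : ℂ)‖ₑ ≠ ∞ := by
      intro hcon
      have e3 : ∑' j, ENNReal.ofReal ‖lam j‖ * R j (t, x) = ∞ := by
        rw [← hcon]
        exact tsum_congr fun j => by rw [henorm, hx2 j]
      have hx' : (∑' j, ENNReal.ofReal ‖lam j‖ * R j (t, x)) ^ q < ∞ := hx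
      rw [e3, ENNReal.top_rpow_of_pos hq0] at hx'
      exact lt_irrefl _ hx'
    exact (tsum_enorm_ne_top_iff_summable_norm.mp h3).of_norm
  · -- joint measurability
    refine ⟨_, hFm, fun t => ?_⟩
    filter_upwards [hRae t] with x hx
    refine tsum_congr fun j => ?_
    rw [hx j, ENNReal.toReal_pow, toReal_enorm]
  · -- measurability
    have heq : (fun t : ℝ => eLpNorm (fun x : Rd (k + 1) =>
        ∑' j, lam j * ((‖PP le_rfl t (h j) x‖ ^ 2 : ℝ) : ℂ)) (ENNReal.ofReal q) volume) =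
        fun t : ℝ => (∫⁻ x : Rd (k + 1),
          ‖∑' j, lam j * ((((R j (t, x)).toReal : ℝ)) : ℂ)‖ₑ ^ q) ^ (1 / q) := by
      funext t
      rw [eLpNorm_eq_lintegral_rpow_enorm_toReal (by
        rw [Ne, ENNReal.ofReal_eq_zero, not_le]; exact hq0) ENNReal.ofReal_ne_top,
        ENNReal.toReal_ofReal hq0.le]
      congr 1
      refine lintegral_congr_ae ?_
      filter_upwards [hRae t] with x hx
      have e2 : ∀ j, lam j * ((‖PP le_rfl t (h j) x‖ ^ 2 : ℝ) : ℂ) =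
          lam j * ((((R j (t, x)).toReal : ℝ)) : ℂ) := by
        intro j
        rw [hx j, ENNReal.toReal_pow, toReal_enorm]
      simp_rw [e2]
    rw [heq]
    exact ((hFm.enorm.pow_const q).lintegral_prod_right').pow_const _
  · -- the estimate
    have h1 : ∀ t : ℝ, eLpNorm (fun x : Rd (k + 1) =>
        ∑' j, lam j * ((‖PP le_rfl t (h j) x‖ ^ 2 : ℝ) : ℂ)) (ENNReal.ofReal q) volume ^ p ≤
        (∫⁻ x : Rd (k + 1), (∑' j, ENNReal.ofReal ‖lam j‖ * ‖PP le_rfl t (h j) x‖ₑ ^ 2) ^ q) ^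
          ((k : ℝ) / (k + 1)) := by
      intro t
      rw [eLpNorm_eq_lintegral_rpow_enorm_toReal (by
        rw [Ne, ENNReal.ofReal_eq_zero, not_le]; exact hq0) ENNReal.ofReal_ne_top,
        ENNReal.toReal_ofReal hq0.le, ← ENNReal.rpow_mul]
      have e1 : 1 / q * p = (k : ℝ) / (k + 1) := by
        rw [hp, hq]; field_simp
      rw [e1]
      refine ENNReal.rpow_le_rpow (lintegral_mono fun x => ?_) (by positivity)
      refine ENNReal.rpow_le_rpow ?_ hq0.le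
      refine enorm_tsum_le_tsum_enorm.trans (le_of_eq ?_)
      exact tsum_congr fun j => henorm t x j
    calc _ ≤ (KL ^ p) ^ (1 / p) := by
          refine ENNReal.rpow_le_rpow ((lintegral_mono h1).trans hmain) (by positivity)
      _ = KL := by
          rw [← ENNReal.rpow_mul, mul_one_div_cancel hp0.ne', ENNReal.rpow_one]

end Pool.Agent.N249.Ed
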