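import Pool.Agent.N249.AbsMain
import Pool.Agent.N249.FT
set_option autoImplicit false
set_option linter.unusedSectionVars false
set_option linter.unusedSimpArgs false
set_option linter.unusedVariables false

namespace Pool.Agent.N249.Ed
open MeasureTheory Complex Filter FourierTransform
open scoped ENNReal Topology RealInnerProductSpace ComplexConjugate

section Gs
variable {d : ℕ}

abbrev Rd (d : ℕ) := EuclideanSpace ℝ (Fin d)

/-- `4π²(ε + i t)` -/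
noncomputable def aa (ε t : ℝ) : ℂ := 4 * (Real.pi : ℂ) ^ 2 * (ε + I * t)

lemma aa_re (ε t : ℝ) : (aa ε t).re = 4 * Real.pi ^ 2 * ε := by
  unfold aa
  have : (4 * (Real.pi : ℂ) ^ 2 * (ε + I * t)) = ((4 * Real.pi ^ 2 * ε : ℝ) : ℂ) +
      ((4 * Real.pi ^ 2 * t : ℝ) : ℂ) * I := by push_cast; ring
  rw [this, Complex.add_re, Complex.ofReal_re, Complex.re_ofReal_mul, Complex.I_re, mul_zero,
    add_zero]

lemma conj_aa (ε t : ℝ) : conj (aa ε t) = aa ε (-t) := by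
  unfold aa
  simp only [map_mul, map_add, map_pow, Complex.conj_ofReal, Complex.conj_I, map_ofNat]
  push_cast
  ring

noncomputable def gs (ε : ℝ) (z : ℝ × Rd d) (w : Rd d) : ℂ :=
  cexp (-(aa ε (-z.1)) * ‖w‖ ^ 2 + (-(2 * Real.pi * I)) * (⟪z.2, w⟫ : ℝ))

lemma conj_gs (ε : ℝ) (z : ℝ × Rd d) (w : Rd d) :
    conj (gs ε z w) = cexp (-(aa ε z.1) * ‖w‖ ^ 2 + (2 * Real.pi * I) * (⟪z.2, w⟫ : ℝ)) := by
  unfold gs
  rw [← Complex.exp_conj]
  congr 1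
  simp only [map_add, map_mul, map_neg, map_pow, Complex.conj_ofReal, Complex.conj_I, map_ofNat]
  rw [← conj_aa ε z.1, Complex.conj_conj]
  ring

lemma gs_continuous (ε : ℝ) (z : ℝ × Rd d) : Continuous (gs ε z) := by
  unfold gs
  fun_prop

lemma norm_gs_sq (ε : ℝ) (z : ℝ × Rd d) (w : Rd d) :
    ‖gs ε z w‖ ^ 2 = Real.exp (-(8 * Real.pi ^ 2 * ε) * ‖w‖ ^ 2) := by
  unfold gs
  rw [Complex.norm_exp, ← Real.exp_nat_mul]
  congr 1
  have h1 : (-(aa ε (-z.1)) * ‖w‖ ^ 2 + (-(2 * Real.pi * I)) * (⟪z.2, w⟫ : ℝ)).re =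
      -(aa ε (-z.1)).re * ‖w‖ ^ 2 := by
    have e1 : (-(aa ε (-z.1)) * ‖w‖ ^ 2 + (-(2 * Real.pi * I)) * (⟪z.2, w⟫ : ℝ)) =
        ((-‖w‖ ^ 2 : ℝ) : ℂ) * aa ε (-z.1) + ((-(2 * Real.pi * ⟪z.2, w⟫) : ℝ) : ℂ) * I := by
      push_cast; ring
    rw [e1, Complex.add_re, Complex.re_ofReal_mul, Complex.re_ofReal_mul, Complex.I_re]
    ring
  rw [h1, aa_re]
  push_cast
  ring

lemma memLp_gs {ε : ℝ} (hε : 0 < ε) (z : ℝ × Rd d) : MemLp (gs ε z) 2 (volume : Measure (Rd d)) := by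
  rw [memLp_two_iff_integrable_sq_norm (gs_continuous ε z).aestronglyMeasurable]
  have hb : 0 < (((8 * Real.pi ^ 2 * ε : ℝ) : ℂ)).re := by
    rw [Complex.ofReal_re]; positivity
  have h1 := (GaussianFourier.integrable_cexp_neg_mul_sq_norm_add (V := Rd d) hb 0 0).norm
  refine h1.congr (Filter.Eventually.of_forall fun w => ?_)
  simp only
  rw [norm_gs_sq, Complex.norm_exp]
  congr 1
  have e1 : (-((8 * Real.pi ^ 2 * ε : ℝ) : ℂ) * (‖w‖ : ℂ) ^ 2 + 0 * ((⟪(0 : Rd d), w⟫ : ℝ) : ℂ)) =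
      ((-(8 * Real.pi ^ 2 * ε) * ‖w‖ ^ 2 : ℝ) : ℂ) := by push_cast; ring
  rw [e1, Complex.ofReal_re]

/-- the regularised vectors -/
noncomputable def ev {ε : ℝ} (hε : 0 < ε) (z : ℝ × Rd d) : Lp ℂ 2 (volume : Measure (Rd d)) :=
  (memLp_gs hε z).toLp (gs ε z)

lemma inner_ev {ε : ℝ} (hε : 0 < ε) (z : ℝ × Rd d) (h : Lp ℂ 2 (volume : Measure (Rd d))) :
    inner ℂ (ev hε z) h = ∫ w, conj (gs ε z w) * h w := by
  rw [L2.inner_def]
  refine integral_congr_ae ?_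
  filter_upwards [(memLp_gs hε z).coeFn_toLp] with w hw
  unfold ev
  rw [hw, RCLike.inner_apply']

/-- the Gaussian integral -/
lemma inner_ev_ev {ε : ℝ} (hε : 0 < ε) (z z' : ℝ × Rd d) :
    inner ℂ (ev hε z) (ev hε z') =
      ((Real.pi : ℂ) / (aa (2 * ε) (z.1 - z'.1))) ^ ((d : ℂ) / 2) *
        cexp ((2 * Real.pi * I) ^ 2 * ‖z.2 - z'.2‖ ^ 2 / (4 * aa (2 * ε) (z.1 - z'.1))) := by
  rw [inner_ev]
  have h1 : ∫ w, conj (gs ε z w) * (ev hε z' : Rd d → ℂ) w =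
      ∫ w : Rd d, cexp (-(aa (2 * ε) (z.1 - z'.1)) * ‖w‖ ^ 2 +
        (2 * Real.pi * I) * (⟪z.2 - z'.2, w⟫ : ℝ)) := by
    refine integral_congr_ae ?_
    filter_upwards [(memLp_gs hε z').coeFn_toLp] with w hw
    unfold ev
    rw [hw, conj_gs]
    unfold gs
    rw [← Complex.exp_add]
    congr 1
    rw [inner_sub_left]
    unfold aa
    push_cast
    ring
  rw [h1]
  have hb : 0 < (aa (2 * ε) (z.1 - z'.1)).re := by
    rw [aa_re]; positivity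
  rw [GaussianFourier.integral_cexp_neg_mul_sq_norm_add hb]
  simp only [finrank_euclideanSpace, Fintype.card_fin]

lemma norm_aa_ge (ε t : ℝ) : 4 * Real.pi ^ 2 * |t| ≤ ‖aa ε t‖ := by
  have h1 : |(aa ε t).im| ≤ ‖aa ε t‖ := Complex.abs_im_le_norm _
  have h2 : (aa ε t).im = 4 * Real.pi ^ 2 * t := by
    unfold aa
    have : (4 * (Real.pi : ℂ) ^ 2 * (ε + I * t)) = ((4 * Real.pi ^ 2 * ε : ℝ) : ℂ) +
      ((4 * Real.pi ^ 2 * t : ℝ) : ℂ) * I := by push_cast; ring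
    rw [this, Complex.add_im, Complex.ofReal_im, Complex.im_ofReal_mul, Complex.I_im, mul_one,
      zero_add]
  rw [h2, abs_mul, abs_of_nonneg (by positivity : (0:ℝ) ≤ 4 * Real.pi ^ 2)] at h1
  exact h1

lemma norm_exp_le_one {b : ℂ} (hb : 0 < b.re) (r : ℝ) :
    ‖cexp ((2 * Real.pi * I) ^ 2 * (r : ℂ) ^ 2 / (4 * b))‖ ≤ 1 := by
  rw [Complex.norm_exp, Real.exp_le_one_iff]
  have hb0 : b ≠ 0 := by rintro rfl; simp at hb
  have h1 : (2 * (Real.pi : ℂ) * I) ^ 2 * (r : ℂ) ^ 2 / (4 * b) =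
      ((-(Real.pi ^ 2 * r ^ 2) : ℝ) : ℂ) * b⁻¹ := by
    rw [mul_pow, Complex.I_sq]
    push_cast
    field_simp
    ring
  rw [h1, Complex.re_ofReal_mul, Complex.inv_re]
  have : 0 ≤ b.re / Complex.normSq b := div_nonneg hb.le (Complex.normSq_nonneg _)
  have h2 : 0 ≤ Real.pi ^ 2 * r ^ 2 := by positivity
  nlinarith

/-- dispersive bound -/
lemma dispersive {ε : ℝ} (hε : 0 < ε) (z z' : ℝ × Rd d) (h : z.1 ≠ z'.1) :
    ‖inner ℂ (ev hε z) (ev hε z')‖ ^ 2 ≤ (1 / (4 * Real.pi)) ^ d * (1 / |z.1 - z'.1| ^ d) := by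
  rw [inner_ev_ev, norm_mul, mul_pow]
  have hb : 0 < (aa (2 * ε) (z.1 - z'.1)).re := by
    rw [aa_re]; positivity
  have h1 := norm_exp_le_one hb ‖z.2 - z'.2‖
  have ht : 0 < |z.1 - z'.1| := abs_pos.mpr (sub_ne_zero.mpr h)
  have h2 : ‖((Real.pi : ℂ) / (aa (2 * ε) (z.1 - z'.1))) ^ ((d : ℂ) / 2)‖ ^ 2 ≤
      (1 / (4 * Real.pi)) ^ d * (1 / |z.1 - z'.1| ^ d) := by
    have e1 : ((d : ℂ) / 2) = (((d : ℝ) / 2 : ℝ) : ℂ) := by push_cast; rfl
    rw [e1, Complex.norm_cpow_real, ← Real.rpow_natCast, ← Real.rpow_mul (norm_nonneg _)]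
    have e2 : (d : ℝ) / 2 * ((2 : ℕ) : ℝ) = d := by push_cast; ring
    rw [e2, Real.rpow_natCast, norm_div, Complex.norm_real, Real.norm_eq_abs,
      abs_of_pos Real.pi_pos]
    have e3 : (1 / (4 * Real.pi)) ^ d * (1 / |z.1 - z'.1| ^ d) =
        (Real.pi / (4 * Real.pi ^ 2 * |z.1 - z'.1|)) ^ d := by
      rw [← one_div_pow, ← mul_pow]
      congr 1
      field_simp
    rw [e3]
    have h3 := norm_aa_ge (2 * ε) (z.1 - z'.1)
    gcongr
  calc _ ≤ ‖((Real.pi : ℂ) / (aa (2 * ε) (z.1 - z'.1))) ^ ((d : ℂ) / 2)‖ ^ 2 * 1 := by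
        gcongr
        exact pow_le_one₀ (norm_nonneg _) h1
    _ ≤ _ := by rw [mul_one]; exact h2

lemma norm_ev_sq {ε : ℝ} (hε : 0 < ε) (z : ℝ × Rd d) :
    ((‖ev hε z‖ ^ 2 : ℝ) : ℂ) = ((Real.pi : ℂ) / (aa (2 * ε) 0)) ^ ((d : ℂ) / 2) := by
  have h1 := inner_ev_ev hε z z
  rw [inner_self_eq_norm_sq_to_K] at h1
  simp only [sub_self, norm_zero] at h1
  rw [Complex.ofReal_pow]
  refine h1.trans ?_
  simp

/-- continuity -/
lemma ev_continuous {ε : ℝ} (hε : 0 < ε) : Continuous (ev (d := d) hε) := by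
  rw [continuous_iff_continuousAt]
  intro z₀
  rw [ContinuousAt, tendsto_iff_norm_sub_tendsto_zero]
  have hsq : Tendsto (fun z : ℝ × Rd d => ‖ev hε z - ev hε z₀‖ ^ 2) (𝓝 z₀) (𝓝 0) := by
    have h1 : ∀ z : ℝ × Rd d, ‖ev hε z - ev hε z₀‖ ^ 2 =
        ‖ev hε z₀‖ ^ 2 - 2 * (inner ℂ (ev hε z) (ev hε z₀)).re + ‖ev hε z₀‖ ^ 2 := by
      intro z
      have h2 := norm_sub_sq (𝕜 := ℂ) (ev hε z) (ev hε z₀)
      have h3 : ‖ev hε z‖ ^ 2 = ‖ev hε z₀‖ ^ 2 := by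
        have := (norm_ev_sq hε z).trans (norm_ev_sq hε z₀).symm
        exact_mod_cast this
      rw [h2, h3]
      rfl
    simp_rw [h1]
    have hcont : Continuous fun z : ℝ × Rd d => inner ℂ (ev hε z) (ev hε z₀) := by
      simp_rw [inner_ev_ev]
      have hre : ∀ z : ℝ × Rd d, 0 < (aa (2 * ε) (z.1 - z₀.1)).re := fun z => by
        rw [aa_re]; positivity
      have hne : ∀ z : ℝ × Rd d, aa (2 * ε) (z.1 - z₀.1) ≠ 0 := fun z h0 => by
        have := hre z; rw [h0] at this; simp at this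
      have hca : Continuous fun z : ℝ × Rd d => aa (2 * ε) (z.1 - z₀.1) := by
        unfold aa; fun_prop
      refine Continuous.mul ?_ ?_
      · refine Continuous.cpow (continuous_const.div hca hne) continuous_const fun z => ?_
        left
        have : ((Real.pi : ℂ) / aa (2 * ε) (z.1 - z₀.1)) = (Real.pi : ℂ) * (aa (2 * ε) (z.1 - z₀.1))⁻¹ := by
          rw [div_eq_mul_inv]
        rw [this, Complex.re_ofReal_mul, Complex.inv_re]
        have h4 := hre z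
        have h5 : 0 < Complex.normSq (aa (2 * ε) (z.1 - z₀.1)) := Complex.normSq_pos.mpr (hne z)
        exact mul_pos Real.pi_pos (div_pos h4 h5)
      · refine Complex.continuous_exp.comp ?_
        refine Continuous.div (by fun_prop) (continuous_const.mul hca) fun z => ?_
        exact mul_ne_zero (by norm_num) (hne z)
    have h2 : Tendsto (fun z : ℝ × Rd d => (inner ℂ (ev hε z) (ev hε z₀)).re) (𝓝 z₀)
        (𝓝 (inner ℂ (ev hε z₀) (ev hε z₀)).re) :=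
      (Complex.continuous_re.comp hcont).tendsto z₀
    have h3 : (inner ℂ (ev hε z₀) (ev hε z₀)).re = ‖ev hε z₀‖ ^ 2 := by
      rw [inner_self_eq_norm_sq_to_K]
      norm_cast
    rw [h3] at h2
    have h4 := (tendsto_const_nhds (x := ‖ev hε z₀‖ ^ 2)).sub (h2.const_mul 2)
    have h5 := h4.add (tendsto_const_nhds (x := ‖ev hε z₀‖ ^ 2))
    have e1 : ‖ev hε z₀‖ ^ 2 - 2 * ‖ev hε z₀‖ ^ 2 + ‖ev hε z₀‖ ^ 2 = 0 := by ring
    rw [e1] at h5
    exact h5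
  have h1 := (Real.continuous_sqrt.tendsto 0).comp hsq
  rw [Real.sqrt_zero] at h1
  refine h1.congr fun z => ?_
  simp only [Function.comp_apply]
  exact Real.sqrt_sq (norm_nonneg _)

lemma ev_fam {ε : ℝ} (hε : 0 < ε) : Fam (ev (d := d) hε) ‖ev (d := d) hε 0‖ := by
  constructor
  · exact (ev_continuous hε).stronglyMeasurable
  · intro z
    have h : ‖ev hε z‖ ^ 2 = ‖ev (d := d) hε 0‖ ^ 2 := by
      have := (norm_ev_sq hε z).trans (norm_ev_sq hε (0 : ℝ × Rd d)).symm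
      exact_mod_cast this
    exact ((sq_eq_sq₀ (norm_nonneg _) (norm_nonneg _)).mp h).le

end Gs
end Pool.Agent.N249.Ed
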