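import Mathlib
set_option autoImplicit false
set_option linter.unusedSectionVars false
set_option linter.unusedSimpArgs false

namespace Pool.Agent.N249.Ed
open MeasureTheory
open scoped ENNReal

/-- truncated kernel -/
noncomputable def ker (d : ℕ) (ρ : ℝ) (u : ℝ) : ℝ≥0∞ :=
  if ρ ≤ |u| then ENNReal.ofReal (1 / |u| ^ d) else 0

lemma ker_meas (d : ℕ) (ρ : ℝ) : Measurable (ker d ρ) := by
  unfold ker
  refine Measurable.ite (measurableSet_le measurable_const measurable_norm) ?_ measurable_const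
  exact ((measurable_const.div (measurable_norm.pow_const d))).ennreal_ofReal

lemma ker_neg (d : ℕ) (ρ u : ℝ) : ker d ρ (-u) = ker d ρ u := by
  unfold ker; simp

lemma lintegral_ker_Ici (d : ℕ) (hd : 2 ≤ d) (ρ : ℝ) (hρ : 0 < ρ) :
    ∫⁻ u in Set.Ioi (0 : ℝ), ker d ρ u ≤ ENNReal.ofReal (ρ / ρ ^ d) := by
  have h1 : ∫⁻ u in Set.Ioi (0 : ℝ), ker d ρ u =
      ∫⁻ u in Set.Ioi ρ, ENNReal.ofReal (u ^ (-(d : ℝ))) := by
    rw [← lintegral_indicator measurableSet_Ioi, ← lintegral_indicator measurableSet_Ioi]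
    have hae : ∀ᵐ u : ℝ, u ≠ ρ := by
      simp [ae_iff]
    refine lintegral_congr_ae ?_
    filter_upwards [hae] with u hu
    by_cases h : ρ < u
    · have h0 : 0 < u := hρ.trans h
      rw [Set.indicator_of_mem (Set.mem_Ioi.mpr h0), Set.indicator_of_mem (Set.mem_Ioi.mpr h)]
      unfold ker
      rw [abs_of_pos h0, if_pos h.le, Real.rpow_neg h0.le, Real.rpow_natCast, one_div]
    · rw [Set.indicator_of_notMem (s := Set.Ioi ρ) (by simpa using h)]
      by_cases h0 : 0 < u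
      · rw [Set.indicator_of_mem (Set.mem_Ioi.mpr h0)]
        unfold ker
        rw [abs_of_pos h0, if_neg]
        intro h2
        exact hu (le_antisymm (not_lt.mp h) h2)
      · rw [Set.indicator_of_notMem (by simpa using h0)]
  rw [h1]
  have hd' : -(d : ℝ) < -1 := by
    have : (2 : ℝ) ≤ d := by exact_mod_cast hd
    linarith
  have hint := integrableOn_Ioi_rpow_of_lt hd' hρ
  rw [← ofReal_integral_eq_lintegral_ofReal hint ?_]
  · rw [integral_Ioi_rpow_of_lt hd' hρ]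
    refine ENNReal.ofReal_le_ofReal ?_
    have hd2 : (2 : ℝ) ≤ d := by exact_mod_cast hd
    have e1 : ρ ^ (-(d : ℝ) + 1) = ρ / ρ ^ d := by
      rw [Real.rpow_add hρ, Real.rpow_neg hρ.le, Real.rpow_natCast, Real.rpow_one]
      field_simp
    rw [e1]
    have e2 : -(ρ / ρ ^ d) / (-(d : ℝ) + 1) = (ρ / ρ ^ d) / ((d : ℝ) - 1) := by
      rw [← neg_div_neg_eq]
      congr 1 <;> ring
    rw [e2]
    exact div_le_self (by positivity) (by linarith)
  · refine (ae_restrict_iff' measurableSet_Ioi).mpr (Filter.Eventually.of_forall fun u hu => ?_)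
    exact Real.rpow_nonneg (hρ.trans hu).le _

lemma lintegral_ker (d : ℕ) (hd : 2 ≤ d) (ρ : ℝ) (hρ : 0 < ρ) :
    ∫⁻ u, ker d ρ u ≤ ENNReal.ofReal (2 * (ρ / ρ ^ d)) := by
  have h0 := lintegral_ker_Ici d hd ρ hρ
  have h1 : ∫⁻ u, ker d ρ u = (∫⁻ u in Set.Ioi (0 : ℝ), ker d ρ u) +
      (∫⁻ u in Set.Iic (0 : ℝ), ker d ρ u) := by
    rw [← Set.compl_Ioi, lintegral_add_compl _ measurableSet_Ioi]
  have h2 : ∫⁻ u in Set.Iic (0 : ℝ), ker d ρ u = ∫⁻ u in Set.Ici (0 : ℝ), ker d ρ u := by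
    rw [← lintegral_indicator measurableSet_Iic, ← lintegral_indicator measurableSet_Ici]
    rw [← lintegral_neg_eq_self]
    refine lintegral_congr fun u => ?_
    by_cases h : 0 ≤ u
    · rw [Set.indicator_of_mem (Set.mem_Ici.mpr h), Set.indicator_of_mem (by simpa using h)]
      exact ker_neg d ρ u
    · rw [Set.indicator_of_notMem (s := Set.Ici (0 : ℝ)) (by simpa using h),
        Set.indicator_of_notMem (by simpa using h)]
  have h3 : ∫⁻ u in Set.Ici (0 : ℝ), ker d ρ u = ∫⁻ u in Set.Ioi (0 : ℝ), ker d ρ u := by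
    exact setLIntegral_congr Ioi_ae_eq_Ici.symm
  rw [h1, h2, h3]
  calc _ ≤ ENNReal.ofReal (ρ / ρ ^ d) + ENNReal.ofReal (ρ / ρ ^ d) := add_le_add h0 h0
    _ = _ := by
      rw [← ENNReal.ofReal_add (by positivity) (by positivity)]
      congr 1; ring

/-- Schur / AM-GM bound for the convolution form -/
lemma conv_bound (d : ℕ) (hd : 2 ≤ d) (ρ : ℝ) (hρ : 0 < ρ) (a b : ℝ → ℝ≥0∞)
    (ha : Measurable a) (hb : Measurable b) :
    ∫⁻ t, ∫⁻ s, ker d ρ (t - s) * (a t * b s) ≤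
      ENNReal.ofReal (ρ / ρ ^ d) * ((∫⁻ t, a t ^ 2) + (∫⁻ t, b t ^ 2)) := by
  have hk := ker_meas d ρ
  have h2 : (2 : ℝ≥0∞) ≠ 0 := by norm_num
  have h2' : (2 : ℝ≥0∞) ≠ ∞ := by norm_num
  have hpt : ∀ x y : ℝ≥0∞, x * y ≤ 2⁻¹ * (x ^ 2 + y ^ 2) := by
    intro x y
    have h3 : 2 * (x * y) ≤ x ^ 2 + y ^ 2 := by
      by_cases hx : x = ∞
      · rw [hx]; simp
      by_cases hy : y = ∞
      · rw [hy]; simp
      lift x to NNReal using hx
      lift y to NNReal using hy
      have : 2 * (x * y) ≤ x ^ 2 + y ^ 2 := by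
        rw [← NNReal.coe_le_coe]
        push_cast
        nlinarith [sq_nonneg ((x : ℝ) - y)]
      exact_mod_cast this
    calc x * y = 2⁻¹ * (2 * (x * y)) := by
          rw [← mul_assoc, ENNReal.inv_mul_cancel h2 h2', one_mul]
      _ ≤ _ := by gcongr
  have hmt : ∀ t, Measurable fun s => ker d ρ (t - s) := fun t =>
    hk.comp (measurable_const.sub measurable_id)
  have hI1 : ∫⁻ t, ∫⁻ s, ker d ρ (t - s) * (a t) ^ 2 ≤
      ENNReal.ofReal (2 * (ρ / ρ ^ d)) * (∫⁻ t, a t ^ 2) := by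
    rw [← lintegral_const_mul _ (ha.pow_const 2)]
    refine lintegral_mono fun t => ?_
    rw [lintegral_mul_const _ (hmt t)]
    refine mul_le_mul_left ?_ _
    have : ∫⁻ s, ker d ρ (t - s) = ∫⁻ s, ker d ρ s := lintegral_sub_left_eq_self (ker d ρ) t
    rw [this]
    exact lintegral_ker d hd ρ hρ
  have hI2 : ∫⁻ t, ∫⁻ s, ker d ρ (t - s) * (b s) ^ 2 ≤
      ENNReal.ofReal (2 * (ρ / ρ ^ d)) * (∫⁻ t, b t ^ 2) := by
    rw [lintegral_lintegral_swap]
    · rw [← lintegral_const_mul _ (hb.pow_const 2)]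
      refine lintegral_mono fun s => ?_
      have hms : Measurable fun t => ker d ρ (t - s) := hk.comp (measurable_id.sub measurable_const)
      rw [lintegral_mul_const _ hms]
      refine mul_le_mul_left ?_ _
      have : ∫⁻ t, ker d ρ (t - s) = ∫⁻ t, ker d ρ t := lintegral_sub_right_eq_self (ker d ρ) s
      rw [this]
      exact lintegral_ker d hd ρ hρ
    · exact ((hk.comp (measurable_fst.sub measurable_snd)).mul
        ((hb.comp measurable_snd).pow_const 2)).aemeasurable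
  calc ∫⁻ t, ∫⁻ s, ker d ρ (t - s) * (a t * b s)
      ≤ ∫⁻ t, ∫⁻ s, (2⁻¹ * (ker d ρ (t - s) * (a t) ^ 2) + 2⁻¹ * (ker d ρ (t - s) * (b s) ^ 2)) := by
        refine lintegral_mono fun t => lintegral_mono fun s => ?_
        calc ker d ρ (t - s) * (a t * b s) ≤ ker d ρ (t - s) * (2⁻¹ * (a t ^ 2 + b s ^ 2)) :=
              mul_le_mul_right (hpt _ _) _
          _ = _ := by ring
    _ = 2⁻¹ * (∫⁻ t, ∫⁻ s, ker d ρ (t - s) * (a t) ^ 2) +
        2⁻¹ * (∫⁻ t, ∫⁻ s, ker d ρ (t - s) * (b s) ^ 2) := by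
        have hm1 : Measurable fun p : ℝ × ℝ => ker d ρ (p.1 - p.2) * (a p.1) ^ 2 :=
          (hk.comp (measurable_fst.sub measurable_snd)).mul ((ha.comp measurable_fst).pow_const 2)
        have hm2 : Measurable fun p : ℝ × ℝ => ker d ρ (p.1 - p.2) * (b p.2) ^ 2 :=
          (hk.comp (measurable_fst.sub measurable_snd)).mul ((hb.comp measurable_snd).pow_const 2)
        rw [← lintegral_const_mul _ hm1.lintegral_prod_right',
          ← lintegral_const_mul _ hm2.lintegral_prod_right',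
          ← lintegral_add_left (hm1.lintegral_prod_right'.const_mul _)]
        refine lintegral_congr fun t => ?_
        have hmb : Measurable fun s => ker d ρ (t - s) * b s ^ 2 := (hmt t).mul (hb.pow_const 2)
        rw [lintegral_add_left (((hmt t).mul_const _).const_mul _),
          lintegral_const_mul _ ((hmt t).mul_const _),
          lintegral_const_mul _ hmb]
    _ ≤ 2⁻¹ * (ENNReal.ofReal (2 * (ρ / ρ ^ d)) * (∫⁻ t, a t ^ 2)) +
        2⁻¹ * (ENNReal.ofReal (2 * (ρ / ρ ^ d)) * (∫⁻ t, b t ^ 2)) := by gcongr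
    _ = _ := by
        rw [ENNReal.ofReal_mul (by norm_num : (0 : ℝ) ≤ 2)]
        have : ENNReal.ofReal 2 = 2 := by simp
        rw [this]
        have e1 : ∀ x y : ℝ≥0∞, 2⁻¹ * (2 * x * y) = x * y := by
          intro x y
          rw [← mul_assoc, ← mul_assoc, ENNReal.inv_mul_cancel h2 h2', one_mul]
        rw [e1, e1, mul_add]

end Pool.Agent.N249.Ed
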