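import Pool.Agent.N804.LI.StmE

/-!
Project LI, subtask LI/ZR (helper249): facts about the zeros of an `L`-function.
-/

set_option autoImplicit false

namespace Pool.Agent.N249.LI_ZR

open Filter Topology MeasureTheory
open Pool.Agent.N804.LI (Zr zv S_ZR)
open Pool.Agent.Y23.G (LFun X_mpos X_zero X_strip win_finite)

theorem core (X : ℂ → ℂ) (mpos : ∀ s, X s = 0 → 1 ≤ analyticOrderNatAt X s)
    (zero : ∀ s, X s = 0 → X (1 - (starRingEnd ℂ) s) = 0)
    (strip : ∀ s, X s = 0 → |s.re - 1 / 2| ≤ 1)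
    (win : ∀ t : ℝ, {s : ℂ | X s = 0 ∧ |s.im - t| ≤ 1}.Finite) :
    (∀ s, X s = 0 → 0 < analyticOrderNatAt X s) ∧
    (∀ k : Zr X, ∃ l : Zr X, zv l = 1 - (starRingEnd ℂ) (zv k)) ∧
    (∀ k : Zr X, |(zv k).re - 1 / 2| ≤ 1) ∧ (∀ R : ℝ, {k : Zr X | ‖zv k‖ ≤ R}.Finite) := by
  refine ⟨fun s hs => mpos s hs, ?_, ?_, ?_⟩
  · rintro ⟨⟨s, hs⟩, j⟩
    exact ⟨⟨⟨1 - (starRingEnd ℂ) s, zero s hs⟩, ⟨0, mpos _ (zero s hs)⟩⟩, rfl⟩
  · rintro ⟨⟨s, hs⟩, j⟩
    exact strip s hs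
  · intro R
    have h1 : {s : ℂ | X s = 0 ∧ ‖s‖ ≤ R}.Finite := by
      obtain ⟨N, hN⟩ := exists_nat_gt R
      have h2 : (⋃ j ∈ Finset.Icc (-(N : ℤ) - 1) (N + 1), {s : ℂ | X s = 0 ∧ |s.im - (j : ℝ)| ≤ 1}).Finite :=
        Set.Finite.biUnion (Finset.finite_toSet _) fun j _ => win j
      refine h2.subset ?_
      rintro s ⟨hs, hR⟩
      rw [Set.mem_iUnion₂]
      have h3 : |s.im| < N := lt_of_le_of_lt ((Complex.abs_im_le_norm s).trans hR) hN
      rw [abs_lt] at h3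
      have h4 := Int.floor_le s.im
      have h5 := Int.lt_floor_add_one s.im
      refine ⟨⌊s.im⌋, ?_, hs, ?_⟩
      · rw [Finset.mem_Icc]
        constructor
        · have : (-(N : ℤ) - 1 : ℤ) ≤ ⌊s.im⌋ := by
            rw [Int.le_floor]
            push_cast
            linarith
          exact this
        · have : ((⌊s.im⌋ : ℤ) : ℝ) < ((N + 1 : ℤ) : ℝ) := by
            push_cast
            linarith
          exact (Int.cast_lt.1 this).le
      · rw [abs_le]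
        constructor <;> linarith
    have h6 : {z : {s : ℂ // X s = 0} | ‖(z : ℂ)‖ ≤ R}.Finite := by
      refine Set.Finite.of_finite_image (f := Subtype.val) (h1.subset ?_) Subtype.val_injective.injOn
      rintro _ ⟨z, hz, rfl⟩
      exact ⟨z.2, hz⟩
    refine (h6.toFinset.sigma fun z => (Finset.univ : Finset (Fin (analyticOrderNatAt X (z : ℂ))))).finite_toSet.subset ?_
    rintro ⟨z, j⟩ hz
    rw [Finset.mem_coe, Finset.mem_sigma]
    exact ⟨(Set.Finite.mem_toFinset _).2 hz, Finset.mem_univ _⟩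

theorem main : S_ZR := fun L =>
  core L.X (fun _ hs => X_mpos (L := L) hs) (fun _ hs => X_zero (L := L) hs)
    (fun _ hs => X_strip (L := L) hs) (fun t => win_finite (L := L) t)

end Pool.Agent.N249.LI_ZR
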