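import Pool.Agent.N249.Unit
set_option autoImplicit false
set_option linter.unusedSectionVars false
set_option linter.unusedSimpArgs false
set_option linter.unusedVariables false

namespace Pool.Agent.N249.Ed
open MeasureTheory Complex Filter FourierTransform
open scoped ENNReal Topology RealInnerProductSpace ComplexConjugate

lemma liminf_rpow (a : ℕ → ℝ≥0∞) {r : ℝ} (hr : 0 < r) :
    (liminf a atTop) ^ r = liminf (fun n => a n ^ r) atTop := by
  have h := Monotone.map_liminf_of_continuousAt (F := atTop) (f := fun x : ℝ≥0∞ => x ^ r)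
    (ENNReal.monotone_rpow_of_nonneg hr.le) a ENNReal.continuous_rpow_const.continuousAt
  exact h

lemma tsum_liminf_le (a : ℕ → ℕ → ℝ≥0∞) :
    ∑' j, liminf (fun n => a n j) atTop ≤ liminf (fun n => ∑' j, a n j) atTop := by
  have h := lintegral_liminf_le (μ := (Measure.count : Measure ℕ)) (f := a) (u := atTop)
    (fun n => measurable_of_countable _)
  simpa only [lintegral_count] using h

section II'
variable {X : Type*} [MeasurableSpace X] {ν : Measure X} [SigmaFinite ν]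

lemma II_liminf_le {k : ℕ} (hk : 1 ≤ k) (ρ : ℕ → ℝ × X → ℝ≥0∞) (hρ : ∀ n, Measurable (ρ n)) :
    II ν k (fun z => liminf (fun n => ρ n z) atTop) ≤ liminf (fun n => II ν k (ρ n)) atTop := by
  unfold II
  have hk0 : (0 : ℝ) < k := by exact_mod_cast hk
  have h1 : (0 : ℝ) < ((k : ℝ) + 2) / k := by positivity
  have h2 : (0 : ℝ) < (k : ℝ) / (k + 1) := by positivity
  calc ∫⁻ t, (∫⁻ x, (liminf (fun n => ρ n (t, x)) atTop) ^ (((k : ℝ) + 2) / k) ∂ν) ^ ((k : ℝ) / (k + 1))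
      ≤ ∫⁻ t, liminf (fun n => (∫⁻ x, ρ n (t, x) ^ (((k : ℝ) + 2) / k) ∂ν) ^ ((k : ℝ) / (k + 1))) atTop := by
        refine lintegral_mono fun t => ?_
        simp only
        rw [← liminf_rpow _ h2]
        gcongr
        refine le_trans (le_of_eq ?_) (lintegral_liminf_le fun n =>
          ((hρ n).pow_const _).comp measurable_prodMk_left)
        refine lintegral_congr fun x => ?_
        rw [liminf_rpow _ h1]
    _ ≤ _ := lintegral_liminf_le fun n =>
        (((hρ n).pow_const _).lintegral_prod_right').pow_const _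

end II'

section Lim
variable {d : ℕ}

lemma exists_eps (h : ℕ → Lp ℂ 2 (volume : Measure (Rd d))) :
    ∃ ε : ℕ → ℝ, (∀ n, 0 < ε n) ∧ ∀ n, ∀ j ≤ n, Dl (ε n) (h j) ≤ (1 / 2) ^ n := by
  have key : ∀ n : ℕ, ∃ ε : ℝ, 0 < ε ∧ ∀ j ≤ n, Dl ε (h j) ≤ (1 / 2) ^ n := by
    intro n
    have h1 : ∀ j ∈ Finset.range (n + 1), ∀ᶠ ε in 𝓝[>] (0 : ℝ), Dl ε (h j) ≤ (1 / 2) ^ n := by
      intro j _
      have hpos : (0 : ℝ≥0∞) < (1 / 2) ^ n := by
        refine ENNReal.pow_pos ?_ n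
        simp
      exact ((Dl_tendsto (h j)).eventually (gt_mem_nhds hpos)).mono fun _ hx => hx.le
    have h2 := (Finset.eventually_all (Finset.range (n + 1))).mpr h1
    obtain ⟨ε, hε1, hε2⟩ := (h2.and self_mem_nhdsWithin).exists
    exact ⟨ε, hε2, fun j hj => hε1 j (Finset.mem_range.mpr (by omega))⟩
  choose ε hε using key
  exact ⟨ε, fun n => (hε n).1, fun n => (hε n).2⟩

lemma ae_tendsto (h : ℕ → Lp ℂ 2 (volume : Measure (Rd d))) (ε : ℕ → ℝ) (hε : ∀ n, 0 < ε n)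
    (hD : ∀ n, ∀ j ≤ n, Dl (ε n) (h j) ≤ (1 / 2) ^ n) (t : ℝ) (j : ℕ) :
    ∀ᵐ x : Rd d, Tendsto (fun n => inner ℂ (ev (hε n) (t, x)) (h j)) atTop
      (𝓝 (PP le_rfl t (h j) x)) := by
  have hmeas : ∀ n, AEMeasurable (fun x : Rd d =>
      ‖inner ℂ (ev (hε n) (t, x)) (h j) - PP le_rfl t (h j) x‖ₑ ^ 2) := by
    intro n
    have h1 : StronglyMeasurable fun x : Rd d => inner ℂ (ev (hε n) (t, x)) (h j) :=
      ((ev_fam (hε n)).inner_meas (h j)).comp_measurable measurable_prodMk_left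
    exact (h1.aestronglyMeasurable.sub (Lp.aestronglyMeasurable _)).enorm.pow_const 2
  have hsum : ∫⁻ x : Rd d, ∑' n, ‖inner ℂ (ev (hε n) (t, x)) (h j) - PP le_rfl t (h j) x‖ₑ ^ 2 ≠ ∞ := by
    rw [lintegral_tsum hmeas]
    have hb : ∀ n, ∫⁻ x : Rd d, ‖inner ℂ (ev (hε n) (t, x)) (h j) - PP le_rfl t (h j) x‖ₑ ^ 2 ≤
        (if n < j then ‖h j‖ₑ ^ 2 else 0) + (1 / 2) ^ n := by
      intro n
      rw [defect (hε n) t (h j)]
      by_cases hn : n < j
      · rw [if_pos hn]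
        exact (Dl_le _ (hε n).le _).trans le_self_add
      · rw [if_neg hn, zero_add]
        exact hD n j (not_lt.mp hn)
    refine ne_top_of_le_ne_top ?_ (ENNReal.tsum_le_tsum hb)
    rw [ENNReal.tsum_add]
    refine ENNReal.add_ne_top.mpr ⟨?_, ?_⟩
    · rw [tsum_eq_sum (s := Finset.range j)]
      · refine (ENNReal.sum_lt_top.mpr fun n _ => ?_).ne
        split_ifs
        · exact lt_top_iff_ne_top.mpr (ENNReal.pow_ne_top enorm_ne_top)
        · exact ENNReal.zero_lt_top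
      · intro n hn
        rw [if_neg (by simpa using hn)]
    · rw [ENNReal.tsum_geometric]
      have h2 : (1 : ℝ≥0∞) - 1 / 2 = 1 / 2 := by
        rw [one_div]; exact ENNReal.one_sub_inv_two
      rw [h2]
      simp
  have hae := ae_lt_top' (AEMeasurable.tsum fun n => hmeas n) hsum
  filter_upwards [hae] with x hx
  have h1 := ENNReal.tendsto_atTop_zero_of_tsum_ne_top hx.ne
  rw [tendsto_iff_norm_sub_tendsto_zero]
  have h2 : Tendsto (fun n => (‖inner ℂ (ev (hε n) (t, x)) (h j) - PP le_rfl t (h j) x‖ₑ ^ 2).toReal)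
      atTop (𝓝 0) := by
    have := (ENNReal.tendsto_toReal (by simp : (0 : ℝ≥0∞) ≠ ∞)).comp h1
    rw [ENNReal.toReal_zero] at this
    exact this
  have h3 := (Real.continuous_sqrt.tendsto 0).comp h2
  rw [Real.sqrt_zero] at h3
  refine h3.congr fun n => ?_
  simp only [Function.comp_apply, ENNReal.toReal_pow, toReal_enorm]
  exact Real.sqrt_sq (norm_nonneg _)

/-- the representative of the squared modulus -/
noncomputable def Rj (h : ℕ → Lp ℂ 2 (volume : Measure (Rd d))) (ε : ℕ → ℝ) (hε : ∀ n, 0 < ε n)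
    (j : ℕ) (z : ℝ × Rd d) : ℝ≥0∞ :=
  liminf (fun n => ‖inner ℂ (ev (hε n) z) (h j)‖ₑ ^ 2) atTop

lemma Rj_meas (h : ℕ → Lp ℂ 2 (volume : Measure (Rd d))) (ε : ℕ → ℝ) (hε : ∀ n, 0 < ε n) (j : ℕ) :
    Measurable (Rj h ε hε j) := by
  unfold Rj
  exact Measurable.liminf fun n => ((ev_fam (hε n)).inner_meas (h j)).measurable.enorm.pow_const 2

lemma Rj_ae (h : ℕ → Lp ℂ 2 (volume : Measure (Rd d))) (ε : ℕ → ℝ) (hε : ∀ n, 0 < ε n)
    (hD : ∀ n, ∀ j ≤ n, Dl (ε n) (h j) ≤ (1 / 2) ^ n) (t : ℝ) :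
    ∀ᵐ x : Rd d, ∀ j, Rj h ε hε j (t, x) = ‖PP le_rfl t (h j) x‖ₑ ^ 2 := by
  rw [ae_all_iff]
  intro j
  filter_upwards [ae_tendsto h ε hε hD t j] with x hx
  unfold Rj
  refine Tendsto.liminf_eq ?_
  exact ENNReal.Tendsto.pow hx.enorm

theorem main_limit {k : ℕ} (hk : 1 ≤ k) (h : ℕ → Lp ℂ 2 (volume : Measure (Rd (k + 1))))
    (hh : Orthonormal ℂ h) (lam : ℕ → ℂ) (hlam : Tendsto lam atTop (𝓝 0)) :
    ∫⁻ t : ℝ, (∫⁻ x : Rd (k + 1), (∑' j, ENNReal.ofReal ‖lam j‖ * ‖PP le_rfl t (h j) x‖ₑ ^ 2) ^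
      (((k : ℝ) + 2) / k)) ^ ((k : ℝ) / (k + 1)) ≤
    (ENNReal.ofReal (KK ((1 / (4 * Real.pi)) ^ (k + 1)) k) *
      ∑' n : ℕ, ENNReal.ofReal (((n : ℝ) + 1) ^ (-(1 / ((k : ℝ) + 2))) * rearr lam n)) ^
        (((k : ℝ) + 2) / (k + 1)) := by
  obtain ⟨ε, hε, hD⟩ := exists_eps h
  have hk0 : (0 : ℝ) < k := by exact_mod_cast hk
  have h1 : ∀ t : ℝ, ∫⁻ x : Rd (k + 1), (∑' j, ENNReal.ofReal ‖lam j‖ * ‖PP le_rfl t (h j) x‖ₑ ^ 2) ^
      (((k : ℝ) + 2) / k) ≤
      ∫⁻ x : Rd (k + 1), (liminf (fun n => wdens (ev (hε n)) h lam (t, x)) atTop) ^ (((k : ℝ) + 2) / k) := by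
    intro t
    refine lintegral_mono_ae ?_
    have hall : ∀ᵐ x : Rd (k + 1), ∀ j, Tendsto (fun n => inner ℂ (ev (hε n) (t, x)) (h j)) atTop
      (𝓝 (PP le_rfl t (h j) x)) := by
      rw [ae_all_iff]
      exact fun j => ae_tendsto h ε hε hD t j
    filter_upwards [hall] with x hx
    gcongr
    calc ∑' j, ENNReal.ofReal ‖lam j‖ * ‖PP le_rfl t (h j) x‖ₑ ^ 2
        = ∑' j, liminf (fun n => ENNReal.ofReal ‖lam j‖ * ‖inner ℂ (ev (hε n) (t, x)) (h j)‖ₑ ^ 2) atTop := by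
          refine tsum_congr fun j => ?_
          refine (Tendsto.liminf_eq ?_).symm
          exact ENNReal.Tendsto.const_mul (ENNReal.Tendsto.pow (hx j).enorm) (Or.inr ENNReal.ofReal_ne_top)
      _ ≤ liminf (fun n => ∑' j, ENNReal.ofReal ‖lam j‖ * ‖inner ℂ (ev (hε n) (t, x)) (h j)‖ₑ ^ 2) atTop :=
          tsum_liminf_le fun n j => ENNReal.ofReal ‖lam j‖ * ‖inner ℂ (ev (hε n) (t, x)) (h j)‖ₑ ^ 2
      _ = _ := rfl
  calc _ ≤ II (volume : Measure (Rd (k + 1))) k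
        (fun z => liminf (fun n => wdens (ev (hε n)) h lam z) atTop) := by
        unfold II
        refine lintegral_mono fun t => ?_
        exact ENNReal.rpow_le_rpow (h1 t) (by positivity)
    _ ≤ liminf (fun n => II (volume : Measure (Rd (k + 1))) k (wdens (ev (hε n)) h lam)) atTop :=
        II_liminf_le hk _ fun n => wdens_meas (ev_fam (hε n)) h lam
    _ ≤ _ := by
        refine liminf_le_of_le (by isBoundedDefault) fun b hb => ?_
        obtain ⟨n, hn⟩ := hb.exists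
        exact hn.trans (abs_main (by positivity) hk (ev_fam (hε n)) (ev_disp (hε n)) h hh lam hlam)

end Lim
end Pool.Agent.N249.Ed
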