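import Pool.Agent.N249.Strong2
set_option autoImplicit false
set_option linter.unusedSectionVars false
set_option linter.unusedSimpArgs false
set_option linter.unusedVariables false

namespace Pool.Agent.N249.Ed
open MeasureTheory Complex Filter
open scoped ComplexConjugate ENNReal Topology

section Mx
variable {X : Type*} [MeasurableSpace X]
variable {ν : Measure X} [SigmaFinite ν]

/-- the mixed norm integral -/
noncomputable def II (ν : Measure X) (k : ℕ) (ρ : ℝ × X → ℝ≥0∞) : ℝ≥0∞ :=
  ∫⁻ t, (∫⁻ x, ρ (t, x) ^ (((k : ℝ) + 2) / k) ∂ν) ^ ((k : ℝ) / (k + 1))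

/-- truncated density -/
noncomputable def trc (ν : Measure X) [SigmaFinite ν] (ρ : ℝ × X → ℝ≥0∞) (n : ℕ) (z : ℝ × X) : ℝ≥0∞ :=
  (Set.Icc (-(n : ℝ)) n ×ˢ spanningSets ν n).indicator (fun z => min (ρ z) n) z

lemma trc_meas {ρ : ℝ × X → ℝ≥0∞} (hρ : Measurable ρ) (n : ℕ) : Measurable (trc ν ρ n) :=
  (hρ.min measurable_const).indicator (measurableSet_Icc.prod (measurableSet_spanningSets ν n))

lemma trc_le (ρ : ℝ × X → ℝ≥0∞) (n : ℕ) (z : ℝ × X) : trc ν ρ n z ≤ ρ z := by
  unfold trc
  by_cases h : z ∈ (Set.Icc (-(n : ℝ)) n ×ˢ spanningSets ν n)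
  · rw [Set.indicator_of_mem h]; exact min_le_left _ _
  · rw [Set.indicator_of_notMem h]; exact zero_le

lemma trc_mono (ρ : ℝ × X → ℝ≥0∞) (z : ℝ × X) : Monotone fun n => trc ν ρ n z := by
  intro n n' h
  simp only
  unfold trc
  have hn : (n : ℝ) ≤ n' := by exact_mod_cast h
  by_cases h1 : z ∈ (Set.Icc (-(n : ℝ)) n ×ˢ spanningSets ν n)
  · have h2 : z ∈ (Set.Icc (-(n' : ℝ)) n' ×ˢ spanningSets ν n') :=
      ⟨⟨by linarith [h1.1.1], by linarith [h1.1.2]⟩, monotone_spanningSets ν h h1.2⟩
    rw [Set.indicator_of_mem h1, Set.indicator_of_mem h2]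
    exact min_le_min le_rfl (by exact_mod_cast h)
  · rw [Set.indicator_of_notMem h1]; exact zero_le

lemma trc_tendsto (ρ : ℝ × X → ℝ≥0∞) (z : ℝ × X) :
    Tendsto (fun n => trc ν ρ n z) atTop (𝓝 (ρ z)) := by
  have hz2 : z.2 ∈ ⋃ n, spanningSets ν n := by rw [iUnion_spanningSets]; trivial
  obtain ⟨n₁, hn₁⟩ := Set.mem_iUnion.mp hz2
  obtain ⟨n₂, hn₂⟩ := exists_nat_ge |z.1|
  have h1 : ∀ n ≥ max n₁ n₂, trc ν ρ n z = min (ρ z) n := by
    intro n hn
    unfold trc
    rw [Set.indicator_of_mem]
    refine ⟨abs_le.mp (hn₂.trans ?_), monotone_spanningSets ν ((le_max_left _ _).trans hn) hn₁⟩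
    exact_mod_cast (le_max_right n₁ n₂).trans hn
  have h2 : Tendsto (fun n : ℕ => min (ρ z) (n : ℝ≥0∞)) atTop (𝓝 (min (ρ z) ∞)) :=
    tendsto_const_nhds.min ENNReal.tendsto_nat_nhds_top
  rw [min_eq_left le_top] at h2
  refine h2.congr' ?_
  filter_upwards [eventually_ge_atTop (max n₁ n₂)] with n hn
  exact (h1 n hn).symm

theorem mixed_of_dual {k : ℕ} (hk : 1 ≤ k) (ρ : ℝ × X → ℝ≥0∞) (hρ : Measurable ρ) (A : ℝ≥0∞)
    (h : ∀ g : ℝ × X → ℝ≥0∞, Measurable g →
      ∫⁻ z, ρ z * g z ∂((volume : Measure ℝ).prod ν) ≤ A * (GG ν k g) ^ (1 / ((k : ℝ) + 2))) :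
    II ν k ρ ≤ A ^ (((k : ℝ) + 2) / (k + 1)) := by
  have hk0 : (0 : ℝ) < k := by exact_mod_cast hk
  set q : ℝ := ((k : ℝ) + 2) / k with hq
  have hq0 : 0 < q := by rw [hq]; positivity
  -- truncated estimate
  have htr : ∀ n, II ν k (trc ν ρ n) ≤ A ^ (((k : ℝ) + 2) / (k + 1)) := by
    intro n
    set r := trc ν ρ n with hr
    have hrm : Measurable r := trc_meas hρ n
    set Nn : ℝ → ℝ≥0∞ := fun t => ∫⁻ x, r (t, x) ^ q ∂ν with hNn
    have hNm : Measurable Nn := (hrm.pow_const q).lintegral_prod_right'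
    have hNbound : ∀ t, Nn t ≤ (Set.Icc (-(n : ℝ)) n).indicator
        (fun _ => (n : ℝ≥0∞) ^ q * ν (spanningSets ν n)) t := by
      intro t
      rw [hNn]
      simp only
      by_cases ht : t ∈ Set.Icc (-(n : ℝ)) n
      · rw [Set.indicator_of_mem ht]
        calc ∫⁻ x, r (t, x) ^ q ∂ν ≤ ∫⁻ x, (spanningSets ν n).indicator
              (fun _ => (n : ℝ≥0∞) ^ q) x ∂ν := by
              refine lintegral_mono fun x => ?_
              rw [hr]
              unfold trc
              by_cases hx : x ∈ spanningSets ν n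
              · rw [Set.indicator_of_mem (show (t, x) ∈ (Set.Icc (-(n : ℝ)) n ×ˢ spanningSets ν n)
                  from ⟨ht, hx⟩), Set.indicator_of_mem hx]
                gcongr
                exact min_le_right _ _
              · rw [Set.indicator_of_notMem (fun hc : (t, x) ∈ (Set.Icc (-(n : ℝ)) n ×ˢ
                  spanningSets ν n) => hx hc.2), ENNReal.zero_rpow_of_pos hq0]
                exact zero_le
          _ = _ := by
              rw [lintegral_indicator (measurableSet_spanningSets ν n), lintegral_const,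
                Measure.restrict_apply_univ]
      · rw [Set.indicator_of_notMem ht]
        have : ∀ x, r (t, x) = 0 := by
          intro x
          rw [hr]
          unfold trc
          exact Set.indicator_of_notMem (fun hc => ht hc.1) _
        simp [this, ENNReal.zero_rpow_of_pos hq0]
    have hNfin : ∀ t, Nn t ≠ ∞ := by
      intro t
      refine ((hNbound t).trans_lt ?_).ne
      by_cases ht : t ∈ Set.Icc (-(n : ℝ)) n
      · rw [Set.indicator_of_mem ht]
        exact ENNReal.mul_lt_top (ENNReal.rpow_lt_top_of_nonneg hq0.le (by simp))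
          (measure_spanningSets_lt_top ν n)
      · rw [Set.indicator_of_notMem ht]; simp
    set a : ℝ := (k : ℝ) / (k + 1) with ha
    have ha0 : 0 < a := by rw [ha]; positivity
    have hIdef : II ν k r = ∫⁻ t, Nn t ^ a := rfl
    have hIfin : II ν k r ≠ ∞ := by
      rw [hIdef]
      have h1 : ∀ t, Nn t ^ a ≤ (Set.Icc (-(n : ℝ)) n).indicator
        (fun _ => ((n : ℝ≥0∞) ^ q * ν (spanningSets ν n)) ^ a) t := by
        intro t
        by_cases ht : t ∈ Set.Icc (-(n : ℝ)) n
        · have := hNbound t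
          rw [Set.indicator_of_mem ht] at this ⊢
          gcongr
        · have := hNbound t
          rw [Set.indicator_of_notMem ht] at this ⊢
          rw [le_zero_iff.mp this, ENNReal.zero_rpow_of_pos ha0]
      refine ((lintegral_mono h1).trans_lt ?_).ne
      rw [lintegral_indicator measurableSet_Icc, lintegral_const, Measure.restrict_apply_univ,
        Real.volume_Icc]
      refine ENNReal.mul_lt_top ?_ ENNReal.ofReal_lt_top
      refine ENNReal.rpow_lt_top_of_nonneg ha0.le ?_
      exact (ENNReal.mul_lt_top (ENNReal.rpow_lt_top_of_nonneg hq0.le (by simp))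
          (measure_spanningSets_lt_top ν n)).ne
    -- the dual function
    set w : ℝ → ℝ≥0∞ := fun t => if Nn t = 0 then 0 else Nn t ^ (-(1 / ((k : ℝ) + 1))) with hw
    have hwm : Measurable w := Measurable.ite (hNm (measurableSet_singleton 0)) measurable_const
      (hNm.pow_const _)
    set g : ℝ × X → ℝ≥0∞ := fun z => w z.1 * r z ^ (2 / (k : ℝ)) with hg
    have hgm : Measurable g := (hwm.comp measurable_fst).mul (hrm.pow_const _)
    have hGG : GG ν k g = II ν k r := by
      rw [hIdef]
      unfold GG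
      refine lintegral_congr fun t => ?_
      have h1 : ∀ x, g (t, x) ^ (((k : ℝ) + 2) / 2) = w t ^ (((k : ℝ) + 2) / 2) * r (t, x) ^ q := by
        intro x
        rw [hg]
        simp only
        rw [ENNReal.mul_rpow_of_nonneg _ _ (by positivity), ← ENNReal.rpow_mul]
        congr 2
        rw [hq]
        field_simp
      simp_rw [h1]
      rw [lintegral_const_mul _ (by exact (hrm.pow_const q).comp measurable_prodMk_left)]
      change (w t ^ (((k : ℝ) + 2) / 2) * Nn t) ^ 2 = _
      by_cases hN : Nn t = 0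
      · rw [hN]; simp [ENNReal.zero_rpow_of_pos ha0]
      · rw [hw]
        simp only
        rw [if_neg hN, ← ENNReal.rpow_mul]
        nth_rewrite 2 [← ENNReal.rpow_one (Nn t)]
        rw [← ENNReal.rpow_add _ _ hN (hNfin t), ← ENNReal.rpow_natCast, ← ENNReal.rpow_mul]
        congr 1
        rw [ha]
        push_cast
        field_simp
        ring
    have hlow : II ν k r ≤ ∫⁻ z, ρ z * g z ∂((volume : Measure ℝ).prod ν) := by
      have h1 : ∫⁻ z, r z * g z ∂((volume : Measure ℝ).prod ν) = II ν k r := by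
        have hrg : Measurable fun z => r z * g z := hrm.mul hgm
        rw [lintegral_prod _ hrg.aemeasurable, hIdef]
        refine lintegral_congr fun t => ?_
        have h1 : ∀ x, r (t, x) * g (t, x) = w t * r (t, x) ^ q := by
          intro x
          rw [hg]
          simp only
          have hqe : q = 1 + 2 / (k : ℝ) := by rw [hq]; field_simp
          rw [hqe, ENNReal.rpow_add_of_nonneg _ _ (by norm_num) (by positivity), ENNReal.rpow_one]
          ring
        simp_rw [h1]
        rw [lintegral_const_mul _ (by exact (hrm.pow_const q).comp measurable_prodMk_left)]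
        change w t * Nn t = _
        by_cases hN : Nn t = 0
        · rw [hN]; simp [ENNReal.zero_rpow_of_pos ha0]
        · rw [hw]
          simp only
          rw [if_neg hN]
          nth_rewrite 2 [← ENNReal.rpow_one (Nn t)]
          rw [← ENNReal.rpow_add _ _ hN (hNfin t)]
          congr 1
          rw [ha]
          field_simp
          ring
      rw [← h1]
      refine lintegral_mono fun z => ?_
      exact mul_le_mul_left (trc_le ρ n z) _
    have hmain := hlow.trans (h g hgm)
    rw [hGG] at hmain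
    by_cases hI0 : II ν k r = 0
    · rw [hI0]; exact zero_le
    have hb : (0 : ℝ) < ((k : ℝ) + 1) / (k + 2) := by positivity
    have h2 : (II ν k r) ^ (((k : ℝ) + 1) / (k + 2)) ≤ A := by
      have h3 : II ν k r = (II ν k r) ^ (((k : ℝ) + 1) / (k + 2)) * (II ν k r) ^ (1 / ((k : ℝ) + 2)) := by
        rw [← ENNReal.rpow_add _ _ hI0 hIfin]
        have : ((k : ℝ) + 1) / (k + 2) + 1 / ((k : ℝ) + 2) = 1 := by field_simp; ring
        rw [this, ENNReal.rpow_one]
      have h4 : (II ν k r) ^ (1 / ((k : ℝ) + 2)) ≠ 0 := by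
        rw [Ne, ENNReal.rpow_eq_zero_iff]
        push Not
        exact ⟨fun h => absurd h hI0, fun h => absurd h hIfin⟩
      have h5 : (II ν k r) ^ (1 / ((k : ℝ) + 2)) ≠ ∞ :=
        ENNReal.rpow_ne_top_of_nonneg (by positivity) hIfin
      rw [h3] at hmain
      have h6 : (II ν k r) ^ (((k : ℝ) + 1) / (k + 2)) * (II ν k r) ^ (1 / ((k : ℝ) + 2)) ≤
          A * (II ν k r) ^ (1 / ((k : ℝ) + 2)) := by
        rw [← h3]
        rw [← h3] at hmain
        exact hmain
      exact (ENNReal.mul_le_mul_iff_left h4 h5).mp h6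
    calc II ν k r = ((II ν k r) ^ (((k : ℝ) + 1) / (k + 2))) ^ (((k : ℝ) + 2) / (k + 1)) := by
          rw [← ENNReal.rpow_mul]
          have : ((k : ℝ) + 1) / (k + 2) * (((k : ℝ) + 2) / (k + 1)) = 1 := by field_simp
          rw [this, ENNReal.rpow_one]
      _ ≤ _ := by gcongr
  -- limit
  have hlim : Tendsto (fun n => II ν k (trc ν ρ n)) atTop (𝓝 (II ν k ρ)) := by
    unfold II
    refine lintegral_tendsto_of_tendsto_of_monotone (fun n => ?_) ?_ ?_
    · exact ((((trc_meas hρ n).pow_const _).lintegral_prod_right').pow_const _).aemeasurable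
    · refine Eventually.of_forall fun t => ?_
      intro n n' hnn
      simp only
      gcongr
      exact trc_mono ρ _ hnn
    · refine Eventually.of_forall fun t => ?_
      have h1 : Tendsto (fun n => ∫⁻ x, trc ν ρ n (t, x) ^ (((k : ℝ) + 2) / k) ∂ν) atTop
          (𝓝 (∫⁻ x, ρ (t, x) ^ (((k : ℝ) + 2) / k) ∂ν)) := by
        refine lintegral_tendsto_of_tendsto_of_monotone (fun n => ?_) ?_ ?_
        · exact (((trc_meas hρ n).pow_const _).comp measurable_prodMk_left).aemeasurable
        · refine Eventually.of_forall fun x => ?_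
          intro n n' hnn
          simp only
          gcongr
          exact trc_mono ρ _ hnn
        · refine Eventually.of_forall fun x => ?_
          exact ((ENNReal.continuous_rpow_const).tendsto _).comp (trc_tendsto ρ (t, x))
      exact ((ENNReal.continuous_rpow_const).tendsto _).comp h1
  exact le_of_tendsto' hlim htr

end Mx
end Pool.Agent.N249.Ed
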