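import Pool.Agent.N249.Blocks
set_option autoImplicit false
set_option linter.unusedSectionVars false
set_option linter.unusedSimpArgs false

namespace Pool.Agent.N249.Ed
open MeasureTheory Complex
open scoped ComplexConjugate ENNReal

lemma geom_three (J : Finset ℤ) (j : ℤ) : ∑ l ∈ J, (1 / 2 : ℝ) ^ (j - l).natAbs ≤ 3 := by
  have hpos : ∀ n : ℕ, (0 : ℝ) ≤ (1 / 2 : ℝ) ^ n := fun n => by positivity
  have h1 : ∑ l ∈ J.filter (fun l => j ≤ l), (1 / 2 : ℝ) ^ (j - l).natAbs ≤ 2 := by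
    have hinj : Set.InjOn (fun l : ℤ => (j - l).natAbs) (J.filter (fun l => j ≤ l)) := by
      intro a ha b hb hab
      simp only [Finset.coe_filter, Set.mem_setOf_eq] at ha hb
      simp only at hab
      omega
    rw [← Finset.sum_image (f := fun n : ℕ => (1 / 2 : ℝ) ^ n) hinj]
    have := (summable_geometric_two).sum_le_tsum
      ((J.filter (fun l => j ≤ l)).image (fun l : ℤ => (j - l).natAbs)) (fun n _ => hpos n)
    rw [tsum_geometric_two] at this
    exact this
  have h2 : ∑ l ∈ J.filter (fun l => ¬ j ≤ l), (1 / 2 : ℝ) ^ (j - l).natAbs ≤ 1 := by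
    have hinj : Set.InjOn (fun l : ℤ => (j - l).natAbs - 1) (J.filter (fun l => ¬ j ≤ l)) := by
      intro a ha b hb hab
      simp only [Finset.coe_filter, Set.mem_setOf_eq] at ha hb
      simp only at hab
      omega
    have heq : ∑ l ∈ J.filter (fun l => ¬ j ≤ l), (1 / 2 : ℝ) ^ (j - l).natAbs =
        ∑ l ∈ J.filter (fun l => ¬ j ≤ l), (1 / 2 : ℝ) * (1 / 2 : ℝ) ^ ((j - l).natAbs - 1) := by
      refine Finset.sum_congr rfl fun l hl => ?_
      have := (Finset.mem_filter.mp hl).2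
      rw [← pow_succ']
      congr 1
      omega
    rw [heq, ← Finset.mul_sum, ← Finset.sum_image (f := fun n : ℕ => (1 / 2 : ℝ) ^ n) hinj]
    have := (summable_geometric_two).sum_le_tsum
      ((J.filter (fun l => ¬ j ≤ l)).image (fun l : ℤ => (j - l).natAbs - 1)) (fun n _ => hpos n)
    rw [tsum_geometric_two] at this
    linarith
  rw [← Finset.sum_filter_add_sum_filter_not J (fun l => j ≤ l)]
  linarith

section Multi
variable {H : Type*} [NormedAddCommGroup H] [InnerProductSpace ℂ H] [CompleteSpace H]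
variable {Ω : Type*} [MeasurableSpace Ω]
variable {e : Ω → H} {M : ℝ}

lemma Q_smul (m : Measure Ω) (c : ℂ) (f : H) : Q e m (c • f) = ‖c‖ ^ 2 * Q e m f := by
  unfold Q
  rw [← integral_const_mul]
  refine integral_congr_ae (Filter.Eventually.of_forall fun z => ?_)
  simp only
  rw [inner_smul_right, norm_mul, mul_pow]

/-- counting for one level -/
lemma count_single (he : Fam e M) (m : Measure Ω) [IsFiniteMeasure m] (β : Ω → ℤ)
    (hβ : Measurable β) (K : Finset ℤ) (hK : ∀ z, β z ∈ K) (κ : ℝ) (hκ : 0 < κ)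
    (hL : ∀ b, ∀ h, Q e (m.restrict {z | β z = b}) h ≤ κ / 6 * ‖h‖ ^ 2) (Φ : ℝ)
    (hΦ : ∫ p in {p : Ω × Ω | |β p.1 - β p.2| ≤ 1}ᶜ, ‖inner ℂ (e p.1) (e p.2)‖ ^ 2
      ∂(m.prod m) ≤ Φ) (n : ℕ) (f : Fin n → H) (hf : Orthonormal ℂ f)
    (hfQ : ∀ i, κ < Q e m (f i)) : (n : ℝ) ≤ 4 * Φ / κ ^ 2 := by
  have hN : MeasurableSet {p : Ω × Ω | |β p.1 - β p.2| ≤ 1} := by
    have h1 : Measurable fun p : Ω × Ω => |β p.1 - β p.2| :=
      ((hβ.comp measurable_fst).sub (hβ.comp measurable_snd)).abs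
    exact measurableSet_le h1 measurable_const
  have h1 := near_far he m _ hN f hf (κ / 2) (by positivity) (by
    rw [Finset.mul_sum]
    refine Finset.sum_le_sum fun i _ => ?_
    have := near_single he m β hβ K hK (κ / 6) (by positivity) hL (f i)
    linarith)
  have h2 : (n : ℝ) * κ ≤ ∑ i, Q e m (f i) := by
    have : ∑ _i : Fin n, κ = n * κ := by simp
    rw [← this]
    exact Finset.sum_le_sum fun i _ => (hfQ i).le
  set Φ' := ∫ p in {p : Ω × Ω | |β p.1 - β p.2| ≤ 1}ᶜ, ‖inner ℂ (e p.1) (e p.2)‖ ^ 2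
      ∂(m.prod m) with hΦ'
  have hΦ0 : 0 ≤ Φ' := integral_nonneg fun _ => by positivity
  have h3 : (n : ℝ) * (κ / 2) ≤ √n * √Φ' := by linarith
  rw [le_div_iff₀ (by positivity)]
  have h4 : √n * (κ / 2) ≤ √Φ' := by
    by_cases hn : √(n : ℝ) = 0
    · rw [hn]; simp
    · have hpos : 0 < √(n : ℝ) := lt_of_le_of_ne (Real.sqrt_nonneg _) (Ne.symm hn)
      refine le_of_mul_le_mul_left ?_ hpos
      calc √n * (√n * (κ / 2)) = (√n * √n) * (κ / 2) := by ring
        _ = n * (κ / 2) := by rw [Real.mul_self_sqrt (Nat.cast_nonneg _)]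
        _ ≤ _ := h3
  have h5 := pow_le_pow_left₀ (by positivity) h4 2
  rw [mul_pow, Real.sq_sqrt (Nat.cast_nonneg _), Real.sq_sqrt hΦ0] at h5
  nlinarith

/-- removal of a finite dimensional subspace -/
lemma removal (m : Measure Ω) (κ : ℝ) (D : ℝ)
    (hD : ∀ (n : ℕ) (f : Fin n → H), Orthonormal ℂ f → (∀ i, κ < Q e m (f i)) → (n : ℝ) ≤ D) :
    ∃ k : ℕ, (k : ℝ) ≤ D ∧ ∃ h : Fin k → H, ∀ f, (∀ i, inner ℂ (h i) f = 0) →
      Q e m f ≤ κ * ‖f‖ ^ 2 := by
  classical
  have hex0 : ∃ n : ℕ, ¬ ∃ f : Fin n → H, Orthonormal ℂ f ∧ (∀ i, κ < Q e m (f i)) := by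
    obtain ⟨n, hn⟩ := exists_nat_gt D
    exact ⟨n, fun ⟨f, hf, hQ⟩ => absurd (hD n f hf hQ) (not_le.mpr hn)⟩
  set n := Nat.find hex0 with hn
  have hspec := Nat.find_spec hex0
  have hn0 : n ≠ 0 := by
    intro h0
    rw [← hn, h0] at hspec
    exact hspec ⟨fun i => i.elim0, by
      refine ⟨fun i => i.elim0, fun i => i.elim0⟩, fun i => i.elim0⟩
  obtain ⟨k, hk⟩ := Nat.exists_eq_succ_of_ne_zero hn0
  have hk' : ¬ ¬ ∃ f : Fin k → H, Orthonormal ℂ f ∧ (∀ i, κ < Q e m (f i)) :=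
    Nat.find_min hex0 (by rw [← hn, hk]; exact Nat.lt_succ_self k)
  rw [not_not] at hk'
  obtain ⟨h, hh, hQ⟩ := hk'
  refine ⟨k, hD k h hh hQ, h, fun f hf => ?_⟩
  by_contra hcon
  push Not at hcon
  have hf0 : f ≠ 0 := by
    rintro rfl
    have : Q e m (0 : H) = 0 := by unfold Q; simp
    rw [this] at hcon
    simp at hcon
  have hfn : 0 < ‖f‖ := norm_pos_iff.mpr hf0
  set g : H := ((‖f‖⁻¹ : ℝ) : ℂ) • f with hg
  have hgn : ‖g‖ = 1 := by
    rw [hg, norm_smul, Complex.norm_real, norm_inv, norm_norm, inv_mul_cancel₀ hfn.ne']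
  have hgQ : κ < Q e m g := by
    rw [hg, Q_smul, Complex.norm_real, norm_inv, norm_norm]
    rw [inv_pow, inv_mul_eq_div, lt_div_iff₀ (by positivity)]
    exact hcon
  refine hspec ?_
  rw [← hn, hk]
  refine ⟨Fin.cons g h, ?_, ?_⟩
  · constructor
    · intro i
      refine Fin.cases ?_ ?_ i
      · simpa using hgn
      · intro i
        simpa using hh.1 i
    · intro i j hij
      revert hij
      refine Fin.cases ?_ ?_ i
      · refine Fin.cases ?_ ?_ j
        · intro h; exact absurd rfl h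
        · intro j _
          simp only [Fin.cons_zero, Fin.cons_succ]
          rw [hg, inner_smul_left]
          rw [← inner_conj_symm, hf j]
          simp
      · intro i
        refine Fin.cases ?_ ?_ j
        · intro _
          simp only [Fin.cons_zero, Fin.cons_succ]
          rw [hg, inner_smul_right, hf i, mul_zero]
        · intro j hij
          simp only [Fin.cons_succ]
          exact hh.2 (fun h => hij (by rw [h]))
  · intro i
    refine Fin.cases ?_ ?_ i
    · simpa using hgQ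
    · intro i
      simpa using hQ i

end Multi
end Pool.Agent.N249.Ed
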