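import Pool.Agent.N249.Multi
set_option autoImplicit false
set_option linter.unusedSectionVars false
set_option linter.unusedSimpArgs false

namespace Pool.Agent.N249.Ed
open MeasureTheory Complex
open scoped ComplexConjugate ENNReal

section Multi2
variable {H : Type*} [NormedAddCommGroup H] [InnerProductSpace ℂ H] [CompleteSpace H]
variable {Ω : Type*} [MeasurableSpace Ω]
variable {e : Ω → H} {M : ℝ}

/-- the near estimate for one pair of levels -/
lemma near_term (he : Fam e M) (m m' : Measure Ω) [IsFiniteMeasure m] [IsFiniteMeasure m']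
    (κ : ℝ) (hκ : 0 < κ) (i : ℕ) (f : H)
    (hF1 : ∀ h, Q e m' h ≤ κ * (1 / 8) ^ i / 324 * ‖h‖ ^ 2)
    (hF2 : Q e m (T e m' f) ≤ κ * 2 ^ i * ‖T e m' f‖ ^ 2) :
    ‖inner ℂ (T e m f) (T e m' f)‖ ≤ κ * (1 / 2) ^ i / 36 * (Q e m f + Q e m' f) := by
  rw [← T_symm he m]
  have h1 := norm_inner_T_le he m (T e m' f) f
  have h2 := norm_T_sq_le he m' _ hF1 f
  have h3 : Q e m (T e m' f) ≤ (κ * (1 / 2) ^ i / 18) ^ 2 * Q e m' f := by
    refine hF2.trans ?_
    have h4 : κ * 2 ^ i * ‖T e m' f‖ ^ 2 ≤ κ * 2 ^ i * (κ * (1 / 8) ^ i / 324 * Q e m' f) :=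
      mul_le_mul_of_nonneg_left h2 (by positivity)
    refine h4.trans (le_of_eq ?_)
    have h5 : (2 : ℝ) ^ i * (1 / 8) ^ i = ((1 / 2) ^ i) ^ 2 := by
      rw [← mul_pow, ← pow_mul, mul_comm i 2, pow_mul]
      norm_num
    calc κ * 2 ^ i * (κ * (1 / 8) ^ i / 324 * Q e m' f)
        = κ ^ 2 * (2 ^ i * (1 / 8) ^ i) / 324 * Q e m' f := by ring
      _ = _ := by rw [h5]; ring
  have h4 : √(Q e m (T e m' f)) ≤ κ * (1 / 2) ^ i / 18 * √(Q e m' f) := by
    refine (Real.sqrt_le_sqrt h3).trans (le_of_eq ?_)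
    rw [Real.sqrt_mul (by positivity), Real.sqrt_sq (by positivity)]
  refine h1.trans ?_
  have h5 : √(Q e m f) * √(Q e m (T e m' f)) ≤
      √(Q e m f) * (κ * (1 / 2) ^ i / 18 * √(Q e m' f)) :=
    mul_le_mul_of_nonneg_left h4 (Real.sqrt_nonneg _)
  refine h5.trans ?_
  have h6 := Real.sq_sqrt (Q_nonneg (e := e) m f)
  have h7 := Real.sq_sqrt (Q_nonneg (e := e) m' f)
  have h8 : √(Q e m f) * √(Q e m' f) ≤ (Q e m f + Q e m' f) / 2 := by
    nlinarith [sq_nonneg (√(Q e m f) - √(Q e m' f))]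
  have h9 : 0 ≤ κ * (1 / 2) ^ i / 18 := by positivity
  nlinarith [mul_le_mul_of_nonneg_left h8 h9]

theorem multi_level (he : Fam e M) (m : Measure Ω) [IsFiniteMeasure m]
    (lev : Ω → ℤ) (hlev : Measurable lev) (J : Finset ℤ) (hJ : ∀ z, lev z ∈ J)
    (β : ℤ → ℤ → Ω → ℤ) (hβ : ∀ j l, Measurable (β j l)) (hβs : ∀ j l, β j l = β l j)
    (K : ℤ → ℤ → Finset ℤ) (hK : ∀ j l z, β j l z ∈ K j l) (κ : ℝ) (hκ : 0 < κ)
    (hF1 : ∀ j l, l ≤ j → ∀ b h, Q e (m.restrict ({z | lev z = l} ∩ {z | β j l z = b})) h ≤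
      κ * (1 / 8) ^ (j - l).natAbs / 324 * ‖h‖ ^ 2)
    (k : ℤ → ℤ → ℤ → ℕ) (hh : ∀ j l b, Fin (k j l b) → H)
    (hF2 : ∀ j l, l ≤ j → ∀ b f, (∀ i, inner ℂ (hh j l b i) f = 0) →
      Q e (m.restrict ({z | lev z = j} ∩ {z | β j l z = b})) f ≤
        κ * 2 ^ (j - l).natAbs * ‖f‖ ^ 2)
    (Cnt : ℝ) (hCnt : ∑ q ∈ (J ×ˢ J).filter (fun q => q.2 ≤ q.1),
      ∑ b ∈ K q.1 q.2, 3 * (k q.1 q.2 b : ℝ) ≤ Cnt)
    (Φ : ℝ) (hΦ : ∫ p in {p : Ω × Ω | |β (lev p.1) (lev p.2) p.1 -
      β (lev p.1) (lev p.2) p.2| ≤ 1}ᶜ, ‖inner ℂ (e p.1) (e p.2)‖ ^ 2 ∂(m.prod m) ≤ Φ)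
    (V : Submodule ℂ H) [FiniteDimensional ℂ V] (hV : ∀ f ∈ V, κ * ‖f‖ ^ 2 ≤ Q e m f) :
    (Module.finrank ℂ V : ℝ) ≤ Cnt + 4 * Φ / κ ^ 2 := by
  classical
  set P2 := (J ×ˢ J).filter (fun q => q.2 ≤ q.1) with hP2
  set Quads : Finset (Σ _q : ℤ × ℤ, ℤ × ℤ) := P2.sigma
    (fun q => ((K q.1 q.2) ×ˢ (K q.1 q.2)).filter (fun r => |r.1 - r.2| ≤ 1)) with hQuads
  let I := Σ c : {c // c ∈ Quads}, Fin (k c.1.1.1 c.1.1.2 c.1.2.1)
  -- the linear map
  let Λ : V →ₗ[ℂ] (I → ℂ) :=
    { toFun := fun f c => inner ℂ (hh c.1.1.1.1 c.1.1.1.2 c.1.1.2.1 c.2)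
        (T e (m.restrict ({z | lev z = c.1.1.1.2} ∩
          {z | β c.1.1.1.1 c.1.1.1.2 z = c.1.1.2.2})) (f : H))
      map_add' := by
        intro f g
        funext c
        simp only [Submodule.coe_add, Pi.add_apply]
        rw [T_add_vec he, inner_add_right]
      map_smul' := by
        intro a f
        funext c
        simp only [Submodule.coe_smul, Pi.smul_apply, RingHom.id_apply, smul_eq_mul]
        rw [T_smul_vec, inner_smul_right] }
  have hrank := LinearMap.finrank_range_add_finrank_ker Λ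
  have hrange : Module.finrank ℂ (LinearMap.range Λ) ≤ Fintype.card I := by
    have := Submodule.finrank_le (LinearMap.range Λ)
    rwa [Module.finrank_fintype_fun_eq_card] at this
  have hcardI : (Fintype.card I : ℝ) ≤ Cnt := by
    have h1 : Fintype.card I = ∑ c ∈ Quads, k c.1.1 c.1.2 c.2.1 := by
      rw [Fintype.card_sigma]
      simp only [Fintype.card_fin]
      exact Finset.sum_coe_sort Quads (fun c => k c.1.1 c.1.2 c.2.1)
    rw [h1, hQuads, Finset.sum_sigma]
    push_cast
    refine le_trans (Finset.sum_le_sum fun q _ => ?_) hCnt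
    have := near_count (K q.1 q.2) (fun b => (k q.1 q.2 b : ℝ)) (fun _ => 0)
      (fun b => Nat.cast_nonneg _) (fun _ => le_refl _)
    simp only [add_zero, Finset.sum_const_zero] at this
    rw [← Finset.mul_sum]
    exact this
  -- an orthonormal basis of the kernel
  let n' := Module.finrank ℂ (LinearMap.ker Λ)
  let W : Submodule ℂ H := (LinearMap.ker Λ).map V.subtype
  let bas := stdOrthonormalBasis ℂ (LinearMap.ker Λ)
  let f : Fin n' → H := fun i => ((bas i : V) : H)
  have hf : Orthonormal ℂ f := by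
    have h1 := bas.orthonormal
    have h2 := h1.comp_linearIsometry ((V.subtypeₗᵢ).comp (LinearMap.ker Λ).subtypeₗᵢ)
    exact h2
  have hfV : ∀ i, f i ∈ V := fun i => ((bas i : V)).2
  have hfc : ∀ i, ∀ j l, j ∈ J → l ∈ J → l ≤ j → ∀ b b', b ∈ K j l → b' ∈ K j l →
      |b - b'| ≤ 1 → ∀ i', inner ℂ (hh j l b i')
        (T e (m.restrict ({z | lev z = l} ∩ {z | β j l z = b'})) (f i)) = 0 := by
    intro i j l hj hl hjl b b' hb hb' hbb i'
    have h1 : Λ (bas i : V) = 0 := (bas i).2
    have hmem : (⟨(j, l), (b, b')⟩ : Σ _q : ℤ × ℤ, ℤ × ℤ) ∈ Quads := by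
      rw [hQuads, Finset.mem_sigma]
      refine ⟨?_, ?_⟩
      · rw [hP2, Finset.mem_filter, Finset.mem_product]
        exact ⟨⟨hj, hl⟩, hjl⟩
      · rw [Finset.mem_filter, Finset.mem_product]
        exact ⟨⟨hb, hb'⟩, hbb⟩
    have h2 := congrFun h1 (⟨⟨⟨(j, l), (b, b')⟩, hmem⟩, i'⟩ : I)
    exact h2
  -- near sets
  set L : ℤ → Set Ω := fun j => {z | lev z = j} with hL
  have hLm : ∀ j, MeasurableSet (L j) := fun j => hlev (measurableSet_singleton j)
  set N : Set (Ω × Ω) := {p : Ω × Ω | |β (lev p.1) (lev p.2) p.1 -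
      β (lev p.1) (lev p.2) p.2| ≤ 1} with hNdef
  have hNjm : ∀ j l, MeasurableSet {p : Ω × Ω | |β j l p.1 - β j l p.2| ≤ 1} := by
    intro j l
    have h1 : Measurable fun p : Ω × Ω => |β j l p.1 - β j l p.2| :=
      (((hβ j l).comp measurable_fst).sub ((hβ j l).comp measurable_snd)).abs
    exact measurableSet_le h1 measurable_const
  have hNun : N = ⋃ q ∈ J ×ˢ J, (L q.1 ×ˢ L q.2) ∩ {p | |β q.1 q.2 p.1 - β q.1 q.2 p.2| ≤ 1} := by
    ext p
    simp only [Set.mem_iUnion, Set.mem_inter_iff, Set.mem_setOf_eq, exists_prop, Set.mem_prod,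
      hNdef, Finset.mem_product, hL]
    constructor
    · intro h
      exact ⟨(lev p.1, lev p.2), ⟨hJ _, hJ _⟩, ⟨rfl, rfl⟩, h⟩
    · rintro ⟨q, _, ⟨h1, h2⟩, h3⟩
      rw [h1, h2]; exact h3
  have hNm : MeasurableSet N := by
    rw [hNun]
    exact Finset.measurableSet_biUnion _ fun q _ =>
      ((hLm _).prod (hLm _)).inter (hNjm _ _)
  -- near bound for each f i
  have hnear : ∀ i, (∫ p in N, FF e (f i) p ∂(m.prod m)).re ≤ κ / 2 * Q e m (f i) := by
    intro i
    refine (Complex.re_le_norm _).trans ?_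
    rw [hNun, integral_biUnion_finset]
    · have hpair : ∀ q ∈ J ×ˢ J,
          ‖∫ p in (L q.1 ×ˢ L q.2) ∩ {p | |β q.1 q.2 p.1 - β q.1 q.2 p.2| ≤ 1},
            FF e (f i) p ∂(m.prod m)‖ ≤ κ / 12 * ((1 / 2) ^ (q.1 - q.2).natAbs *
              Q e (m.restrict (L q.1)) (f i) + (1 / 2) ^ (q.1 - q.2).natAbs *
              Q e (m.restrict (L q.2)) (f i)) := by
        rintro ⟨j, l⟩ hq
        rw [Finset.mem_product] at hq
        simp only at hq ⊢
        refine (near_pair he m (L j) (L l) (hLm j) (hLm l) (β j l) (hβ j l) (K j l) (hK j l) (f i)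
          (κ * (1 / 2) ^ (j - l).natAbs / 36) (by positivity) ?_).trans (le_of_eq (by ring))
        intro b b' hbb
        by_cases hb : b ∈ K j l
        swap
        · have : L j ∩ {z | β j l z = b} = ∅ := by
            ext z
            simp only [Set.mem_inter_iff, Set.mem_setOf_eq, Set.mem_empty_iff_false, iff_false]
            rintro ⟨_, rfl⟩
            exact hb (hK j l z)
          rw [this]
          simp only [Measure.restrict_empty]
          have h0 : T e (0 : Measure Ω) (f i) = 0 := by unfold T; simp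
          rw [h0, inner_zero_left, norm_zero]
          exact mul_nonneg (by positivity) (add_nonneg (Q_nonneg _ _) (Q_nonneg _ _))
        by_cases hb' : b' ∈ K j l
        swap
        · have : L l ∩ {z | β j l z = b'} = ∅ := by
            ext z
            simp only [Set.mem_inter_iff, Set.mem_setOf_eq, Set.mem_empty_iff_false, iff_false]
            rintro ⟨_, rfl⟩
            exact hb' (hK j l z)
          rw [this]
          simp only [Measure.restrict_empty]
          have h0 : T e (0 : Measure Ω) (f i) = 0 := by unfold T; simp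
          rw [h0, inner_zero_right, norm_zero]
          exact mul_nonneg (by positivity) (add_nonneg (Q_nonneg _ _) (Q_nonneg _ _))
        rcases le_total l j with hjl | hjl
        · exact near_term he _ _ κ hκ _ (f i) (hF1 j l hjl b')
            (hF2 j l hjl b _ (hfc i j l hq.1 hq.2 hjl b b' hb hb' hbb))
        · rw [norm_inner_symm, add_comm (Q e _ (f i))]
          have e1 : (j - l).natAbs = (l - j).natAbs := by omega
          rw [e1]
          rw [hβs j l] at *
          have hKs : b ∈ K l j ∨ b ∉ K l j := em _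
          -- the finite sets need not be symmetric, so treat emptiness again
          by_cases hc : b ∈ K l j
          swap
          · have : L j ∩ {z | β l j z = b} = ∅ := by
              ext z
              simp only [Set.mem_inter_iff, Set.mem_setOf_eq, Set.mem_empty_iff_false, iff_false]
              rintro ⟨_, rfl⟩
              exact hc (hK l j z)
            rw [this]
            simp only [Measure.restrict_empty]
            have h0 : T e (0 : Measure Ω) (f i) = 0 := by unfold T; simp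
            rw [h0, inner_zero_right, norm_zero]
            exact mul_nonneg (by positivity) (add_nonneg (Q_nonneg _ _) (Q_nonneg _ _))
          by_cases hc' : b' ∈ K l j
          swap
          · have : L l ∩ {z | β l j z = b'} = ∅ := by
              ext z
              simp only [Set.mem_inter_iff, Set.mem_setOf_eq, Set.mem_empty_iff_false, iff_false]
              rintro ⟨_, rfl⟩
              exact hc' (hK l j z)
            rw [this]
            simp only [Measure.restrict_empty]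
            have h0 : T e (0 : Measure Ω) (f i) = 0 := by unfold T; simp
            rw [h0, inner_zero_left, norm_zero]
            exact mul_nonneg (by positivity) (add_nonneg (Q_nonneg _ _) (Q_nonneg _ _))
          exact near_term he _ _ κ hκ _ (f i) (hF1 l j hjl b)
            (hF2 l j hjl b' _ (hfc i l j hq.2 hq.1 hjl b' b hc' hc (by rwa [abs_sub_comm])))
      refine (norm_sum_le _ _).trans ((Finset.sum_le_sum hpair).trans ?_)
      rw [← Finset.mul_sum, Finset.sum_add_distrib]
      have hQsum : ∑ j ∈ J, Q e (m.restrict (L j)) (f i) = Q e m (f i) := by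
        have := Q_union he m Set.univ MeasurableSet.univ lev hlev J hJ (f i)
        simpa only [Set.univ_inter, Measure.restrict_univ] using this
      have hs1 : ∑ q ∈ J ×ˢ J, (1 / 2 : ℝ) ^ (q.1 - q.2).natAbs *
          Q e (m.restrict (L q.1)) (f i) ≤ 3 * Q e m (f i) := by
        rw [Finset.sum_product, ← hQsum, Finset.mul_sum]
        refine Finset.sum_le_sum fun j _ => ?_
        simp only
        rw [← Finset.sum_mul]
        exact mul_le_mul_of_nonneg_right (geom_three J j) (Q_nonneg _ _)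
      have hs2 : ∑ q ∈ J ×ˢ J, (1 / 2 : ℝ) ^ (q.1 - q.2).natAbs *
          Q e (m.restrict (L q.2)) (f i) ≤ 3 * Q e m (f i) := by
        rw [Finset.sum_product_right, ← hQsum, Finset.mul_sum]
        refine Finset.sum_le_sum fun j _ => ?_
        simp only
        rw [← Finset.sum_mul]
        refine mul_le_mul_of_nonneg_right ?_ (Q_nonneg _ _)
        have := geom_three J j
        refine le_trans (le_of_eq (Finset.sum_congr rfl fun l _ => ?_)) this
        congr 1
        omega
      have hκ12 : 0 ≤ κ / 12 := by positivity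
      nlinarith [mul_le_mul_of_nonneg_left (add_le_add hs1 hs2) hκ12]
    · intro q _
      exact ((hLm _).prod (hLm _)).inter (hNjm _ _)
    · intro q _ q' _ hqq
      refine Set.disjoint_left.mpr ?_
      rintro z ⟨⟨h1, h2⟩, _⟩ ⟨⟨h3, h4⟩, _⟩
      exact hqq (Prod.ext (h1.symm.trans h3) (h2.symm.trans h4))
    · intro q _
      exact (he.FF_integrable _ (f i)).integrableOn
  have hfar := near_far he m N hNm f hf (κ / 2) (by positivity) (by
    rw [Finset.mul_sum]
    exact Finset.sum_le_sum fun i _ => hnear i)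
  have hlow : (n' : ℝ) * κ ≤ ∑ i, Q e m (f i) := by
    have : ∑ _i : Fin n', κ = n' * κ := by simp
    rw [← this]
    refine Finset.sum_le_sum fun i _ => ?_
    have := hV (f i) (hfV i)
    rwa [hf.1 i, one_pow, mul_one] at this
  set Φ' := ∫ p in Nᶜ, ‖inner ℂ (e p.1) (e p.2)‖ ^ 2 ∂(m.prod m) with hΦ'
  have hΦ0 : 0 ≤ Φ' := integral_nonneg fun _ => by positivity
  have h3 : (n' : ℝ) * (κ / 2) ≤ √n' * √Φ' := by linarith
  have h4 : √n' * (κ / 2) ≤ √Φ' := by
    by_cases hn : √(n' : ℝ) = 0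
    · rw [hn]; simp
    · have hpos : 0 < √(n' : ℝ) := lt_of_le_of_ne (Real.sqrt_nonneg _) (Ne.symm hn)
      refine le_of_mul_le_mul_left ?_ hpos
      calc √n' * (√n' * (κ / 2)) = (√n' * √n') * (κ / 2) := by ring
        _ = n' * (κ / 2) := by rw [Real.mul_self_sqrt (Nat.cast_nonneg _)]
        _ ≤ _ := h3
  have h5 := pow_le_pow_left₀ (by positivity) h4 2
  rw [mul_pow, Real.sq_sqrt (Nat.cast_nonneg _), Real.sq_sqrt hΦ0] at h5
  have h6 : (n' : ℝ) ≤ 4 * Φ / κ ^ 2 := by
    rw [le_div_iff₀ (by positivity)]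
    nlinarith
  have h7 : (Module.finrank ℂ V : ℝ) = Module.finrank ℂ (LinearMap.range Λ) + n' := by
    rw [← hrank]; push_cast; rfl
  have h8 : (Module.finrank ℂ (LinearMap.range Λ) : ℝ) ≤ Fintype.card I := by exact_mod_cast hrange
  linarith

end Multi2
end Pool.Agent.N249.Ed
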