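import Pool.Agent.N249.Basic
set_option autoImplicit false
set_option linter.unusedSectionVars false
set_option linter.unusedSimpArgs false

namespace Pool.Agent.N249.Ed
open MeasureTheory Complex
open scoped ComplexConjugate ENNReal

section NF
variable {H : Type*} [NormedAddCommGroup H] [InnerProductSpace ℂ H] [CompleteSpace H]
variable {Ω : Type*} [MeasurableSpace Ω]

noncomputable def FF (e : Ω → H) (f : H) (p : Ω × Ω) : ℂ :=
  conj (inner ℂ (e p.1) f) * inner ℂ (e p.1) (e p.2) * inner ℂ (e p.2) f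

variable {e : Ω → H} {M : ℝ}

lemma Fam.meas1 (he : Fam e M) : StronglyMeasurable fun p : Ω × Ω => e p.1 :=
  he.meas.comp_measurable measurable_fst

lemma Fam.meas2 (he : Fam e M) : StronglyMeasurable fun p : Ω × Ω => e p.2 :=
  he.meas.comp_measurable measurable_snd

lemma Fam.FF_meas (he : Fam e M) (f : H) : StronglyMeasurable (FF e f) := by
  have h3 : StronglyMeasurable fun p : Ω × Ω => conj (inner ℂ (e p.1) f) :=
    RCLike.continuous_conj.comp_stronglyMeasurable (he.meas1.inner stronglyMeasurable_const)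
  exact (h3.mul (he.meas1.inner he.meas2)).mul (he.meas2.inner stronglyMeasurable_const)

lemma Fam.norm_K_le (he : Fam e M) (p : Ω × Ω) : ‖inner ℂ (e p.1) (e p.2)‖ ≤ M * M :=
  (norm_inner_le_norm _ _).trans
        (mul_le_mul (he.bdd _) (he.bdd _) (norm_nonneg _) (he.M_nonneg p.1))

lemma Fam.FF_integrable (he : Fam e M) (m : Measure (Ω × Ω)) [IsFiniteMeasure m] (f : H) :
    Integrable (FF e f) m := by
  refine Integrable.of_bound (C := (M * ‖f‖) * (M * M) * (M * ‖f‖))
    (he.FF_meas f).aestronglyMeasurable ?_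
  refine Filter.Eventually.of_forall fun p => ?_
  have hM := he.M_nonneg p.1
  unfold FF
  rw [norm_mul, norm_mul, RCLike.norm_conj]
  exact mul_le_mul (mul_le_mul (he.norm_inner_le _ _) (he.norm_K_le p) (norm_nonneg _)
    (by positivity)) (he.norm_inner_le _ _) (norm_nonneg _) (by positivity)

noncomputable def Gam (e : Ω → H) {n : ℕ} (f : Fin n → H) (p : Ω × Ω) : ℂ :=
  ∑ k, conj (inner ℂ (e p.1) (f k)) * inner ℂ (e p.2) (f k)

lemma Fam.Gam_meas (he : Fam e M) {n : ℕ} (f : Fin n → H) : StronglyMeasurable (Gam e f) := by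
  unfold Gam
  refine Finset.stronglyMeasurable_fun_sum _ fun k _ => ?_
  have h3 : StronglyMeasurable fun p : Ω × Ω => conj (inner ℂ (e p.1) (f k)) :=
    RCLike.continuous_conj.comp_stronglyMeasurable (he.meas1.inner stronglyMeasurable_const)
  exact h3.mul (he.meas2.inner stronglyMeasurable_const)

lemma Fam.Gam_bdd (he : Fam e M) {n : ℕ} (f : Fin n → H) (p : Ω × Ω) :
    ‖Gam e f p‖ ≤ ∑ k, (M * ‖f k‖) * (M * ‖f k‖) := by
  unfold Gam
  refine (norm_sum_le _ _).trans (Finset.sum_le_sum fun k _ => ?_)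
  rw [norm_mul, RCLike.norm_conj]
  have hM := he.M_nonneg p.1
  exact mul_le_mul (he.norm_inner_le _ _) (he.norm_inner_le _ _) (norm_nonneg _) (by positivity)

lemma sum_FF {n : ℕ} (f : Fin n → H) (p : Ω × Ω) :
    ∑ k, FF e (f k) p = inner ℂ (e p.1) (e p.2) * Gam e f p := by
  unfold FF Gam
  rw [Finset.mul_sum]
  exact Finset.sum_congr rfl fun k _ => by ring

lemma inner_T' (he : Fam e M) (m : Measure Ω) [IsFiniteMeasure m] (f h : H) :
    inner ℂ h (T e m f) = ∫ z, conj (inner ℂ (e z) h) * inner ℂ (e z) f ∂m := by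
  rw [inner_T he]
  refine integral_congr_ae (Filter.Eventually.of_forall fun z => ?_)
  simp only
  rw [inner_conj_symm]; ring

lemma Fam.int_cc (he : Fam e M) (m : Measure Ω) [IsFiniteMeasure m] (f h : H) :
    Integrable (fun z => conj (inner ℂ (e z) h) * inner ℂ (e z) f) m := by
  refine Integrable.of_bound (C := (M * ‖h‖) * (M * ‖f‖)) ?_ ?_
  · have h3 : StronglyMeasurable fun z => conj (inner ℂ (e z) h) :=
      RCLike.continuous_conj.comp_stronglyMeasurable (he.inner_meas h)
    exact (h3.mul (he.inner_meas f)).aestronglyMeasurable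
  · refine Filter.Eventually.of_forall fun z => ?_
    rw [norm_mul, RCLike.norm_conj]
    have hM := he.M_nonneg z
    exact mul_le_mul (he.norm_inner_le _ _) (he.norm_inner_le _ _) (norm_nonneg _) (by positivity)

lemma integral_Gam_sq (he : Fam e M) (m : Measure Ω) [IsFiniteMeasure m] {n : ℕ}
    (f : Fin n → H) : ∫ p, ‖Gam e f p‖ ^ 2 ∂(m.prod m) =
      ∑ k, ∑ l, ‖inner ℂ (f k) (T e m (f l))‖ ^ 2 := by
  have key : ∀ p : Ω × Ω, ((‖Gam e f p‖ ^ 2 : ℝ) : ℂ) = ∑ k, ∑ l,
      (conj (inner ℂ (e p.1) (f k)) * inner ℂ (e p.1) (f l)) *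
        conj (conj (inner ℂ (e p.2) (f k)) * inner ℂ (e p.2) (f l)) := by
    intro p
    have : ((‖Gam e f p‖ ^ 2 : ℝ) : ℂ) = Gam e f p * conj (Gam e f p) := by
      rw [Complex.mul_conj, Complex.normSq_eq_norm_sq]
    rw [this]
    unfold Gam
    rw [map_sum, Finset.sum_mul_sum]
    refine Finset.sum_congr rfl fun k _ => Finset.sum_congr rfl fun l _ => ?_
    simp only [map_mul, Complex.conj_conj]
    ring
  have h1 : ((∫ p, ‖Gam e f p‖ ^ 2 ∂(m.prod m) : ℝ) : ℂ) =
      ((∑ k, ∑ l, ‖inner ℂ (f k) (T e m (f l))‖ ^ 2 : ℝ) : ℂ) := by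
    rw [← integral_complex_ofReal]
    simp_rw [key]
    rw [integral_finsetSum]
    · push_cast
      refine Finset.sum_congr rfl fun k _ => ?_
      rw [integral_finsetSum]
      · refine Finset.sum_congr rfl fun l _ => ?_
        rw [integral_prod_mul (fun z => conj (inner ℂ (e z) (f k)) * inner ℂ (e z) (f l))
          (fun z => conj (conj (inner ℂ (e z) (f k)) * inner ℂ (e z) (f l)))]
        rw [integral_conj, ← inner_T' he m, Complex.mul_conj, Complex.normSq_eq_norm_sq]
        push_cast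
        rfl
      · intro l _
        refine (he.int_cc m (f l) (f k)).mul_prod (g := fun z => conj (conj (inner ℂ (e z) (f k)) * inner ℂ (e z) (f l))) ?_
        have := (he.int_cc m (f k) (f l))
        refine this.congr (Filter.Eventually.of_forall fun z => ?_)
        simp only [map_mul, Complex.conj_conj]
        ring
    · intro k _
      refine integrable_finsetSum _ fun l _ => ?_
      refine (he.int_cc m (f l) (f k)).mul_prod (g := fun z => conj (conj (inner ℂ (e z) (f k)) * inner ℂ (e z) (f l))) ?_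
      have := (he.int_cc m (f k) (f l))
      refine this.congr (Filter.Eventually.of_forall fun z => ?_)
      simp only [map_mul, Complex.conj_conj]
      ring
  exact_mod_cast h1

/-- the near / far lemma -/
theorem near_far (he : Fam e M) (m : Measure Ω) [IsFiniteMeasure m] (N : Set (Ω × Ω))
    (hN : MeasurableSet N) {n : ℕ} (f : Fin n → H) (hf : Orthonormal ℂ f) (a : ℝ) (ha : 0 ≤ a)
    (hnear : ∑ i, (∫ p in N, FF e (f i) p ∂(m.prod m)).re ≤ a * ∑ i, Q e m (f i)) :
    ∑ i, Q e m (f i) ≤ a * n +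
      √n * √(∫ p in Nᶜ, ‖inner ℂ (e p.1) (e p.2)‖ ^ 2 ∂(m.prod m)) := by
  set Φ := ∫ p in Nᶜ, ‖inner ℂ (e p.1) (e p.2)‖ ^ 2 ∂(m.prod m) with hΦ
  set X := ∑ k, ∑ l, ‖inner ℂ (f k) (T e m (f l))‖ ^ 2 with hX
  set Θ := ∑ i, Q e m (f i) with hΘ
  have hX0 : 0 ≤ X := Finset.sum_nonneg fun _ _ => Finset.sum_nonneg fun _ _ => by positivity
  -- Bessel
  have h1 : X ≤ ∑ l, ‖T e m (f l)‖ ^ 2 := by
    rw [hX, Finset.sum_comm]
    refine Finset.sum_le_sum fun l _ => ?_
    exact hf.sum_inner_products_le (T e m (f l))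
  -- the splitting
  have h2 : ∑ l, ‖T e m (f l)‖ ^ 2 = ∑ i, (∫ p in N, FF e (f i) p ∂(m.prod m)).re +
      ∑ i, (∫ p in Nᶜ, FF e (f i) p ∂(m.prod m)).re := by
    rw [← Finset.sum_add_distrib]
    refine Finset.sum_congr rfl fun i _ => ?_
    rw [← Complex.add_re, integral_add_compl hN (he.FF_integrable _ _)]
    have := inner_T_T he m m (f i)
    have h3 : (∫ p, FF e (f i) p ∂(m.prod m)) = inner ℂ (T e m (f i)) (T e m (f i)) := by
      rw [this]; rfl
    rw [h3, inner_self_eq_norm_sq_to_K]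
    norm_cast
  -- the far part
  have h3 : ∑ i, (∫ p in Nᶜ, FF e (f i) p ∂(m.prod m)).re ≤ √Φ * √X := by
    rw [← Complex.re_sum, ← integral_finsetSum _ fun i _ => (he.FF_integrable _ (f i))]
    simp_rw [sum_FF]
    refine (Complex.re_le_norm _).trans ?_
    have h4 : ‖∫ p in Nᶜ, inner ℂ (e p.1) (e p.2) * Gam e f p ∂(m.prod m)‖ ≤
        ∫ p in Nᶜ, ‖inner ℂ (e p.1) (e p.2)‖ * ‖Gam e f p‖ ∂(m.prod m) := by
      refine (norm_integral_le_integral_norm _).trans (le_of_eq ?_)
      refine integral_congr_ae (Filter.Eventually.of_forall fun z => ?_)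
      simp only [norm_mul]
    refine h4.trans ?_
    have h5 := integral_mul_le_Lp_mul_Lq_of_nonneg (μ := (m.prod m).restrict Nᶜ) (p := 2) (q := 2)
      (f := fun p => ‖inner ℂ (e p.1) (e p.2)‖) (g := fun p => ‖Gam e f p‖)
      Real.HolderConjugate.two_two
      (Filter.Eventually.of_forall fun _ => norm_nonneg _)
      (Filter.Eventually.of_forall fun _ => norm_nonneg _) ?_ ?_
    · refine h5.trans ?_
      simp only [Real.rpow_two]
      rw [← Real.sqrt_eq_rpow, ← Real.sqrt_eq_rpow]
      refine mul_le_mul_of_nonneg_left ?_ (Real.sqrt_nonneg _)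
      refine Real.sqrt_le_sqrt ?_
      rw [hX, ← integral_Gam_sq he m f]
      refine setIntegral_le_integral ?_ (Filter.Eventually.of_forall fun _ => by
        simp only [Pi.zero_apply]; positivity)
      refine Integrable.of_bound (C := (∑ k, (M * ‖f k‖) * (M * ‖f k‖)) ^ 2) ?_ ?_
      · exact ((he.Gam_meas f).norm.pow 2).aestronglyMeasurable
      · refine Filter.Eventually.of_forall fun p => ?_
        rw [Real.norm_eq_abs, abs_of_nonneg (by positivity)]
        exact pow_le_pow_left₀ (norm_nonneg _) (he.Gam_bdd f p) 2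
    · rw [show ENNReal.ofReal 2 = 2 by simp]
      refine MemLp.of_bound (he.meas1.inner he.meas2).norm.aestronglyMeasurable (M * M) ?_
      exact Filter.Eventually.of_forall fun z => by
        rw [norm_norm]; exact he.norm_K_le z
    · rw [show ENNReal.ofReal 2 = 2 by simp]
      refine MemLp.of_bound (he.Gam_meas f).norm.aestronglyMeasurable
        (∑ k, (M * ‖f k‖) * (M * ‖f k‖)) ?_
      exact Filter.Eventually.of_forall fun z => by
        rw [norm_norm]; exact he.Gam_bdd f z
  -- Theta <= sqrt n sqrt X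
  have h4 : Θ ≤ √n * √X := by
    have h5 : Θ = ∑ i, 1 * ‖inner ℂ (f i) (T e m (f i))‖ := by
      rw [hΘ]
      refine Finset.sum_congr rfl fun i _ => ?_
      rw [inner_T_self he m (f i), one_mul]
      rw [Complex.norm_real, Real.norm_eq_abs, abs_of_nonneg (Q_nonneg m _)]
    rw [h5]
    refine (Real.sum_mul_le_sqrt_mul_sqrt _ _ _).trans ?_
    have h6 : (∑ i : Fin n, (1 : ℝ) ^ 2) = n := by simp
    rw [h6]
    refine mul_le_mul_of_nonneg_left (Real.sqrt_le_sqrt ?_) (Real.sqrt_nonneg _)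
    rw [hX]
    refine Finset.sum_le_sum fun i _ => ?_
    exact Finset.single_le_sum (f := fun l => ‖inner ℂ (f i) (T e m (f l))‖ ^ 2)
      (fun _ _ => by positivity) (Finset.mem_univ i)
  -- combine
  have h5 : √X * √X ≤ (a * √n + √Φ) * √X := by
    calc √X * √X = X := Real.mul_self_sqrt hX0
      _ ≤ a * Θ + √Φ * √X := by linarith
      _ ≤ a * (√n * √X) + √Φ * √X := by
        have := mul_le_mul_of_nonneg_left h4 ha
        linarith
      _ = _ := by ring
  have h6 : √X ≤ a * √n + √Φ := by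
    by_cases h0 : √X = 0
    · rw [h0]; positivity
    · have : 0 < √X := lt_of_le_of_ne (Real.sqrt_nonneg _) (Ne.symm h0)
      exact le_of_mul_le_mul_right h5 this
  calc Θ ≤ √n * √X := h4
    _ ≤ √n * (a * √n + √Φ) := mul_le_mul_of_nonneg_left h6 (Real.sqrt_nonneg _)
    _ = a * (√n * √n) + √n * √Φ := by ring
    _ = _ := by rw [Real.mul_self_sqrt (Nat.cast_nonneg _)]

end NF
end Pool.Agent.N249.Ed
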