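import Pool.Agent.N249.Basic
set_option autoImplicit false
set_option linter.unusedSectionVars false
set_option linter.unusedSimpArgs false
set_option linter.unusedVariables false

namespace Pool.Agent.N249.Ed
open MeasureTheory Complex
open scoped ComplexConjugate ENNReal

section Tr
variable {H : Type*} [NormedAddCommGroup H] [InnerProductSpace ℂ H] [CompleteSpace H]
variable {Ω : Type*} [MeasurableSpace Ω]
variable {e : Ω → H} {M : ℝ}

lemma sum_Q_basis (he : Fam e M) (m : Measure Ω) [IsFiniteMeasure m] (V : Submodule ℂ H)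
    [FiniteDimensional ℂ V] {ι : Type*} [Fintype ι] (b : OrthonormalBasis ι ℂ V) :
    ∑ i, Q e m (b i : H) = ∫ z, ‖V.orthogonalProjection (e z)‖ ^ 2 ∂m := by
  unfold Q
  rw [← integral_finsetSum _ fun i _ => he.integrable_Q m (b i : H)]
  refine integral_congr_ae (Filter.Eventually.of_forall fun z => ?_)
  simp only
  rw [← b.sum_sq_norm_inner_left (V.orthogonalProjection (e z))]
  refine Finset.sum_congr rfl fun i _ => ?_
  congr 2
  rw [← Submodule.inner_orthogonalProjection_eq_of_mem_right]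

/-- power sum bound -/
lemma pow_sum_bound (a : ℝ) (ha0 : 0 ≤ a) (ha1 : a ≤ 1 / 2) (N : ℕ) :
    ∑ n ∈ Finset.range N, ((n : ℝ) + 1) ^ (-a) ≤ 2 * (N : ℝ) ^ (1 - a) := by
  induction N with
  | zero =>
    simp only [Finset.range_zero, Finset.sum_empty, Nat.cast_zero]
    exact mul_nonneg (by norm_num) (Real.rpow_nonneg le_rfl _)
  | succ N ih =>
    rw [Finset.sum_range_succ]
    set x : ℝ := (N : ℝ) + 1 with hx
    have hx0 : 0 < x := by positivity
    have hx1 : 1 ≤ x := by rw [hx]; linarith [Nat.cast_nonneg (α := ℝ) N]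
    have hN : (N : ℝ) = x * (1 + -(1 / x)) := by
      rw [hx]; field_simp; ring
    have h1 : (N : ℝ) ^ (1 - a) ≤ x ^ (1 - a) * (1 + (1 - a) * -(1 / x)) := by
      rw [hN, Real.mul_rpow hx0.le]
      · refine mul_le_mul_of_nonneg_left ?_ (Real.rpow_nonneg hx0.le _)
        refine rpow_one_add_le_one_add_mul_self ?_ (by linarith) (by linarith)
        have : 1 / x ≤ 1 := by rw [div_le_one hx0]; exact hx1
        linarith
      · have : 1 / x ≤ 1 := by rw [div_le_one hx0]; exact hx1
        linarith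
    have h2 : x ^ (1 - a) * (1 / x) = x ^ (-a) := by
      rw [one_div, ← Real.rpow_neg_one, ← Real.rpow_add hx0]
      congr 1; ring
    have h3 : x ^ (1 - a) * (1 + (1 - a) * -(1 / x)) = x ^ (1 - a) - (1 - a) * x ^ (-a) := by
      rw [← h2]; ring
    have h4 : 0 ≤ x ^ (-a) := Real.rpow_nonneg hx0.le _
    have h5 : ((N + 1 : ℕ) : ℝ) = x := by rw [hx]; push_cast; ring
    rw [h5]
    have h6 : x ^ (-a) ≤ 2 * ((1 - a) * x ^ (-a)) := by nlinarith
    linarith

lemma trace_bound (he : Fam e M) (m : Measure Ω) [IsFiniteMeasure m] (p : ℕ) (hp : 2 ≤ p)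
    (A : ℝ) (hA : 0 < A)
    (hW : ∀ κ : ℝ, 0 < κ → ∀ V : Submodule ℂ H, FiniteDimensional ℂ V →
      (∀ f ∈ V, κ * ‖f‖ ^ 2 ≤ Q e m f) → (Module.finrank ℂ V : ℝ) ≤ A / κ ^ p)
    {N : ℕ} (f : Fin N → H) (hf : Orthonormal ℂ f) :
    ∑ i, Q e m (f i) ≤ ∑ n ∈ Finset.range N, (2 * A / (n + 1)) ^ ((1 : ℝ) / p) := by
  induction N with
  | zero => simp
  | succ N ih =>
    have hp0 : (p : ℝ) ≠ 0 := by positivity
    set κ : ℝ := (2 * A / (N + 1)) ^ ((1 : ℝ) / p) with hκdef
    have hκ : 0 < κ := by rw [hκdef]; positivity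
    have hκp : κ ^ p = 2 * A / (N + 1) := by
      rw [hκdef, ← Real.rpow_natCast, ← Real.rpow_mul (by positivity), one_div,
        inv_mul_cancel₀ hp0, Real.rpow_one]
    set V : Submodule ℂ H := Submodule.span ℂ (Set.range f) with hV
    have : FiniteDimensional ℂ V := FiniteDimensional.span_of_finite ℂ (Set.finite_range f)
    have hrank : Module.finrank ℂ V = N + 1 := by
      rw [hV, finrank_span_eq_card hf.linearIndependent]; simp
    have hex : ∃ w ∈ V, Q e m w < κ * ‖w‖ ^ 2 := by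
      by_contra hcon
      push Not at hcon
      have h1 := hW κ hκ V this hcon
      rw [hrank, hκp] at h1
      have h2 : A / (2 * A / ((N : ℝ) + 1)) = (N + 1) / 2 := by field_simp
      rw [h2] at h1
      push_cast at h1
      have : (0 : ℝ) < (N : ℝ) + 1 := by positivity
      linarith
    obtain ⟨w, hwV, hw⟩ := hex
    have hw0 : w ≠ 0 := by
      rintro rfl
      rw [norm_zero] at hw
      have := Q_nonneg (e := e) m (0 : H)
      simp at hw
      linarith
    have hwn : 0 < ‖w‖ := norm_pos_iff.mpr hw0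
    set u : H := ((‖w‖⁻¹ : ℝ) : ℂ) • w with hu
    have hun : ‖u‖ = 1 := by
      rw [hu, norm_smul, Complex.norm_real, norm_inv, norm_norm, inv_mul_cancel₀ hwn.ne']
    have huQ : Q e m u ≤ κ := by
      have h1 : Q e m u = (‖w‖⁻¹) ^ 2 * Q e m w := by
        rw [hu]
        unfold Q
        rw [← integral_const_mul]
        refine integral_congr_ae (Filter.Eventually.of_forall fun z => ?_)
        simp only
        rw [inner_smul_right, norm_mul, mul_pow, Complex.norm_real, norm_inv, norm_norm]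
      rw [h1, inv_pow, inv_mul_eq_div, div_le_iff₀ (by positivity)]
      exact hw.le
    have huV : u ∈ V := V.smul_mem _ hwV
    -- extend to a basis
    have hcard : Module.finrank ℂ V = Fintype.card (Fin (N + 1)) := by rw [hrank]; simp
    let v : Fin (N + 1) → V := fun _ => ⟨u, huV⟩
    have hv : Orthonormal ℂ (({0} : Set (Fin (N + 1))).domRestrict v) := by
      constructor
      · intro i
        simpa [v] using hun
      · intro i j hij
        exact absurd (Subsingleton.elim i j) hij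
    obtain ⟨b, hb⟩ := hv.exists_orthonormalBasis_extension_of_card_eq hcard
    have hb0 : (b 0 : H) = u := by
      have := hb 0 rfl
      rw [this]
    -- the given family as a basis of V
    have hb1 : Orthonormal ℂ (fun i => (⟨f i, Submodule.subset_span ⟨i, rfl⟩⟩ : V)) := by
      have : Orthonormal ℂ (V.subtypeₗᵢ ∘ (fun i => (⟨f i, Submodule.subset_span ⟨i, rfl⟩⟩ : V))) := hf
      exact (V.subtypeₗᵢ.orthonormal_comp_iff).mp this
    have hb1' : Orthonormal ℂ ((Set.univ : Set (Fin (N + 1))).domRestrict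
        (fun i => (⟨f i, Submodule.subset_span ⟨i, rfl⟩⟩ : V))) :=
      hb1.comp _ Subtype.val_injective
    obtain ⟨b', hb'⟩ := hb1'.exists_orthonormalBasis_extension_of_card_eq hcard
    have hsum : ∑ i, Q e m (f i) = ∑ i, Q e m (b i : H) := by
      rw [sum_Q_basis he m V b, ← sum_Q_basis he m V b']
      refine Finset.sum_congr rfl fun i _ => ?_
      rw [hb' i trivial]
    rw [hsum, Fin.sum_univ_succ, Finset.sum_range_succ, add_comm]
    have hg : Orthonormal ℂ (fun i : Fin N => (b i.succ : H)) := by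
      have h1 : Orthonormal ℂ (fun i : Fin N => b i.succ) :=
        b.orthonormal.comp _ (Fin.succ_injective N)
      exact h1.comp_linearIsometry V.subtypeₗᵢ
    refine add_le_add (ih _ hg) ?_
    rw [hb0]
    exact huQ

theorem trace_bound' (he : Fam e M) (m : Measure Ω) [IsFiniteMeasure m] (p : ℕ) (hp : 2 ≤ p)
    (A : ℝ) (hA : 0 < A)
    (hW : ∀ κ : ℝ, 0 < κ → ∀ V : Submodule ℂ H, FiniteDimensional ℂ V →
      (∀ f ∈ V, κ * ‖f‖ ^ 2 ≤ Q e m f) → (Module.finrank ℂ V : ℝ) ≤ A / κ ^ p)
    {N : ℕ} (f : Fin N → H) (hf : Orthonormal ℂ f) :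
    ∑ i, Q e m (f i) ≤ 2 * (2 * A) ^ ((1 : ℝ) / p) * (N : ℝ) ^ (1 - (1 : ℝ) / p) := by
  refine (trace_bound he m p hp A hA hW f hf).trans ?_
  have h1 : ∀ n ∈ Finset.range N, (2 * A / ((n : ℝ) + 1)) ^ ((1 : ℝ) / p) =
      (2 * A) ^ ((1 : ℝ) / p) * ((n : ℝ) + 1) ^ (-((1 : ℝ) / p)) := by
    intro n _
    rw [Real.div_rpow (by positivity) (by positivity), Real.rpow_neg (by positivity)]
    rfl
  rw [Finset.sum_congr rfl h1, ← Finset.mul_sum]
  have hp' : (2 : ℝ) ≤ p := by exact_mod_cast hp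
  have h2 := pow_sum_bound ((1 : ℝ) / p) (by positivity)
    (by rw [div_le_div_iff₀ (by positivity) (by norm_num)]; linarith) N
  calc _ ≤ (2 * A) ^ ((1 : ℝ) / p) * (2 * (N : ℝ) ^ (1 - (1 : ℝ) / p)) := by gcongr
    _ = _ := by ring

end Tr
end Pool.Agent.N249.Ed
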