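import Pool.Agent.N249.Weak2
import Pool.Agent.N249.Trace
set_option autoImplicit false
set_option linter.unusedSectionVars false
set_option linter.unusedSimpArgs false
set_option linter.unusedVariables false

namespace Pool.Agent.N249.Ed
open MeasureTheory Complex
open scoped ComplexConjugate ENNReal

/-- the constant of the strong estimate -/
noncomputable def KK (c₀ : ℝ) (k : ℕ) : ℝ := 256 * (2 * (2 * C1 c₀ k) ^ (1 / ((k : ℝ) + 2)))

/-- level of a positive extended real -/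
noncomputable def lv (y : ℝ≥0∞) : ℤ := ⌊Real.log y.toReal / Real.log 256⌋

lemma lv_meas : Measurable lv :=
  ((Real.measurable_log.comp ENNReal.measurable_toReal).div_const _).floor

lemma lv_spec {y : ℝ≥0∞} (h0 : y ≠ 0) (h1 : y ≠ ∞) :
    ENNReal.ofReal ((256 : ℝ) ^ (lv y)) ≤ y ∧ y ≤ ENNReal.ofReal ((256 : ℝ) ^ (lv y)) * 256 := by
  have hy : 0 < y.toReal := ENNReal.toReal_pos h0 h1
  have hl : 0 < Real.log 256 := Real.log_pos (by norm_num)
  have h2 : (lv y : ℝ) ≤ Real.log y.toReal / Real.log 256 := Int.floor_le _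
  have h3 : Real.log y.toReal / Real.log 256 < lv y + 1 := Int.lt_floor_add_one _
  rw [le_div_iff₀ hl] at h2
  rw [div_lt_iff₀ hl] at h3
  have e1 : ((256 : ℝ) ^ (lv y)) = Real.exp (lv y * Real.log 256) := by
    rw [mul_comm, Real.exp_mul, Real.exp_log (by norm_num), Real.rpow_intCast]
  constructor
  · have h4 : (256 : ℝ) ^ (lv y) ≤ y.toReal := by
      rw [e1]; exact (Real.exp_le_exp.mpr h2).trans_eq (Real.exp_log hy)
    exact (ENNReal.ofReal_le_ofReal h4).trans_eq (ENNReal.ofReal_toReal h1)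
  · have e2 : ENNReal.ofReal ((256 : ℝ) ^ (lv y)) * 256 = ENNReal.ofReal ((256 : ℝ) ^ (lv y) * 256) := by
      rw [ENNReal.ofReal_mul (by positivity)]
      congr 1
      norm_num
    rw [e2]
    conv_lhs => rw [← ENNReal.ofReal_toReal h1]
    refine ENNReal.ofReal_le_ofReal ?_
    have e3 : Real.exp ((lv y + 1) * Real.log 256) = (256 : ℝ) ^ (lv y) * 256 := by
      rw [add_mul, one_mul, Real.exp_add, Real.exp_log (by norm_num), e1]
    rw [← e3]
    exact (Real.exp_log hy).symm.trans_le (Real.exp_le_exp.mpr h3.le)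

lemma sum_sq_le_sq_sum' {ι : Type*} (s : Finset ι) (a : ι → ℝ≥0∞) :
    ∑ i ∈ s, a i ^ 2 ≤ (∑ i ∈ s, a i) ^ 2 := by
  rw [sq (∑ i ∈ s, a i), Finset.sum_mul]
  refine Finset.sum_le_sum fun i hi => ?_
  rw [sq]
  gcongr
  exact Finset.single_le_sum (f := a) (fun _ _ => zero_le) hi

section St
variable {H : Type*} [NormedAddCommGroup H] [InnerProductSpace ℂ H] [CompleteSpace H]
variable {X : Type*} [MeasurableSpace X]
variable {ν : Measure X} [SigmaFinite ν]
variable {e : ℝ × X → H} {M : ℝ}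

/-- the mixed quantity -/
noncomputable def GG (ν : Measure X) (k : ℕ) (g : ℝ × X → ℝ≥0∞) : ℝ≥0∞ :=
  ∫⁻ t, (∫⁻ x, g (t, x) ^ (((k : ℝ) + 2) / 2) ∂ν) ^ 2

/-- truncation sets -/
def SS (ν : Measure X) [SigmaFinite ν] (g : ℝ × X → ℝ≥0∞) (n : ℕ) : Set (ℝ × X) :=
  {z | |z.1| ≤ n ∧ z.2 ∈ spanningSets ν n ∧ g z ≠ 0 ∧ g z ≠ ∞ ∧ -(n : ℤ) ≤ lv (g z) ∧ lv (g z) ≤ n}

lemma SS_meas {g : ℝ × X → ℝ≥0∞} (hg : Measurable g) (n : ℕ) : MeasurableSet (SS ν g n) := by
  have hlv : Measurable fun z => lv (g z) := lv_meas.comp hg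
  refine (measurableSet_le measurable_fst.abs measurable_const).inter
    ((measurable_snd (measurableSet_spanningSets ν n)).inter
    ((hg (measurableSet_singleton 0)).compl.inter ((hg (measurableSet_singleton ∞)).compl.inter
    ((measurableSet_le measurable_const hlv).inter (measurableSet_le hlv measurable_const)))))

lemma SS_mono (g : ℝ × X → ℝ≥0∞) : Monotone (SS ν g) := by
  intro n n' h z hz
  obtain ⟨h1, h2, h3, h4, h5, h6⟩ := hz
  have hn : (n : ℝ) ≤ n' := by exact_mod_cast h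
  have hn' : (n : ℤ) ≤ n' := by exact_mod_cast h
  exact ⟨h1.trans hn, monotone_spanningSets ν h h2, h3, h4, by omega, by omega⟩

lemma SS_iUnion (g : ℝ × X → ℝ≥0∞) : ⋃ n, SS ν g n = {z | g z ≠ 0 ∧ g z ≠ ∞} := by
  ext z
  simp only [Set.mem_iUnion]
  constructor
  · rintro ⟨n, _, _, h3, h4, _⟩
    exact ⟨h3, h4⟩
  · rintro ⟨h3, h4⟩
    have hz2 : z.2 ∈ ⋃ n, spanningSets ν n := by rw [iUnion_spanningSets]; trivial
    obtain ⟨n₁, hn₁⟩ := Set.mem_iUnion.mp hz2
    obtain ⟨n₂, hn₂⟩ := exists_nat_ge |z.1|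
    refine ⟨max (max n₁ n₂) (lv (g z)).natAbs, ?_, ?_, h3, h4, ?_, ?_⟩
    · refine hn₂.trans ?_
      exact_mod_cast (le_max_right n₁ n₂).trans (le_max_left _ _)
    · exact monotone_spanningSets ν ((le_max_left n₁ n₂).trans (le_max_left _ _)) hn₁
    · have : (lv (g z)).natAbs ≤ max (max n₁ n₂) (lv (g z)).natAbs := le_max_right _ _
      omega
    · have : (lv (g z)).natAbs ≤ max (max n₁ n₂) (lv (g z)).natAbs := le_max_right _ _
      omega

lemma SS_finite (g : ℝ × X → ℝ≥0∞) (n : ℕ) : ((volume : Measure ℝ).prod ν) (SS ν g n) ≠ ∞ := by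
  have hsub : SS ν g n ⊆ (Set.Icc (-(n : ℝ)) n) ×ˢ (spanningSets ν n) := by
    rintro z ⟨h1, h2, _⟩
    exact ⟨abs_le.mp h1, h2⟩
  refine ((measure_mono hsub).trans_lt ?_).ne
  rw [Measure.prod_prod]
  refine ENNReal.mul_lt_top ?_ (measure_spanningSets_lt_top ν n)
  rw [Real.volume_Icc]
  exact ENNReal.ofReal_lt_top

/-- clamped level -/
noncomputable def clv (n : ℕ) (g : ℝ × X → ℝ≥0∞) (z : ℝ × X) : ℤ := max (-(n : ℤ)) (min n (lv (g z)))

lemma clv_meas {g : ℝ × X → ℝ≥0∞} (hg : Measurable g) (n : ℕ) : Measurable (clv n g) :=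
  measurable_const.max (measurable_const.min (lv_meas.comp hg))

lemma clv_mem (n : ℕ) (g : ℝ × X → ℝ≥0∞) (z : ℝ × X) : clv n g z ∈ Finset.Icc (-(n : ℤ)) n := by
  unfold clv
  rw [Finset.mem_Icc]
  omega

lemma clv_eq {n : ℕ} {g : ℝ × X → ℝ≥0∞} {z : ℝ × X} (hz : z ∈ SS ν g n) :
    clv n g z = lv (g z) := by
  obtain ⟨_, _, _, _, h5, h6⟩ := hz
  unfold clv
  omega

/-- the level sums are controlled by the mixed norm -/
lemma level_sum {g : ℝ × X → ℝ≥0∞} (hg : Measurable g) (k n : ℕ) (J : Finset ℤ) :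
    ∑ j ∈ J, ENNReal.ofReal (((16 : ℝ) ^ (k + 2)) ^ (2 * j)) *
      ∫⁻ t, (sec ν ({z | clv n g z = j} ∩ SS ν g n) t) ^ 2 ≤ GG ν k g := by
  have hLm : ∀ j : ℤ, MeasurableSet ({z | clv n g z = j} ∩ SS ν g n) := fun j =>
    ((clv_meas hg n) (measurableSet_singleton j)).inter (SS_meas hg n)
  have h1 : ∀ j : ℤ, ENNReal.ofReal (((16 : ℝ) ^ (k + 2)) ^ (2 * j)) *
      ∫⁻ t, (sec ν ({z | clv n g z = j} ∩ SS ν g n) t) ^ 2 =
      ∫⁻ t, (ENNReal.ofReal (((16 : ℝ) ^ (k + 2)) ^ j) *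
        sec ν ({z | clv n g z = j} ∩ SS ν g n) t) ^ 2 := by
    intro j
    rw [← lintegral_const_mul _ ((sec_meas (hLm j)).pow_const 2)]
    refine lintegral_congr fun t => ?_
    rw [mul_pow, ← ENNReal.ofReal_pow (by positivity)]
    congr 2
    rw [mul_comm (2 : ℤ) j, zpow_mul]
    norm_cast
  simp_rw [h1]
  rw [← lintegral_finsetSum' _ fun j _ =>
    (((sec_meas (hLm j)).const_mul _).pow_const 2).aemeasurable]
  unfold GG
  refine lintegral_mono fun t => ?_
  refine (sum_sq_le_sq_sum' _ _).trans ?_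
  gcongr
  -- inner estimate
  set B : ℤ → Set X := fun j => Prod.mk t ⁻¹' ({z | clv n g z = j} ∩ SS ν g n) with hB
  have hBm : ∀ j, MeasurableSet (B j) := fun j => measurable_prodMk_left (hLm j)
  have hBd : Set.PairwiseDisjoint (J : Set ℤ) B := by
    intro j _ l _ hjl
    refine Set.disjoint_left.mpr ?_
    rintro x ⟨h1, _⟩ ⟨h2, _⟩
    exact hjl (h1.symm.trans h2)
  calc ∑ j ∈ J, ENNReal.ofReal (((16 : ℝ) ^ (k + 2)) ^ j) *
        sec ν ({z | clv n g z = j} ∩ SS ν g n) t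
      = ∑ j ∈ J, ∫⁻ _x in B j, ENNReal.ofReal (((16 : ℝ) ^ (k + 2)) ^ j) ∂ν := by
        refine Finset.sum_congr rfl fun j _ => ?_
        rw [lintegral_const, Measure.restrict_apply_univ]
        rfl
    _ ≤ ∑ j ∈ J, ∫⁻ x in B j, g (t, x) ^ (((k : ℝ) + 2) / 2) ∂ν := by
        refine Finset.sum_le_sum fun j _ => ?_
        refine setLIntegral_mono (by
          exact (hg.comp measurable_prodMk_left).pow_const _) fun x hx => ?_
        obtain ⟨hx1, hx2⟩ := hx
        have hlv : lv (g (t, x)) = j := by rw [← clv_eq hx2]; exact hx1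
        have hsp := (lv_spec hx2.2.2.1 hx2.2.2.2.1).1
        rw [hlv] at hsp
        calc ENNReal.ofReal (((16 : ℝ) ^ (k + 2)) ^ j)
            = (ENNReal.ofReal ((256 : ℝ) ^ j)) ^ (((k : ℝ) + 2) / 2) := by
              rw [ENNReal.ofReal_rpow_of_pos (by positivity)]
              congr 1
              have h256 : (256 : ℝ) = (16 : ℝ) ^ (2 : ℝ) := by norm_num
              rw [← Real.rpow_intCast, ← Real.rpow_intCast, ← Real.rpow_natCast, h256,
                ← Real.rpow_mul (by norm_num), ← Real.rpow_mul (by norm_num),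
                ← Real.rpow_mul (by norm_num)]
              congr 1
              push_cast
              ring
          _ ≤ _ := by gcongr
    _ = ∫⁻ x in ⋃ j ∈ J, B j, g (t, x) ^ (((k : ℝ) + 2) / 2) ∂ν := by
        rw [lintegral_biUnion_finset hBd fun j _ => hBm j]
    _ ≤ _ := setLIntegral_le_lintegral _ _

end St
end Pool.Agent.N249.Ed
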