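import Pool.Agent.N249.Strong
set_option autoImplicit false
set_option linter.unusedSectionVars false
set_option linter.unusedSimpArgs false
set_option linter.unusedVariables false

namespace Pool.Agent.N249.Ed
open MeasureTheory Complex
open scoped ComplexConjugate ENNReal

section St2
variable {H : Type*} [NormedAddCommGroup H] [InnerProductSpace ℂ H] [CompleteSpace H]
variable {X : Type*} [MeasurableSpace X]
variable {ν : Measure X} [SigmaFinite ν]
variable {e : ℝ × X → H} {M : ℝ}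

/-- density -/
noncomputable def dens (e : ℝ × X → H) {N : ℕ} (f : Fin N → H) (z : ℝ × X) : ℝ≥0∞ :=
  ∑ i, ‖inner ℂ (e z) (f i)‖ₑ ^ 2

lemma dens_meas (he : Fam e M) {N : ℕ} (f : Fin N → H) : Measurable (dens e f) := by
  unfold dens
  exact Finset.measurable_fun_sum _ fun i _ => (he.inner_meas (f i)).measurable.enorm.pow_const 2

lemma C1_nonneg {c₀ : ℝ} (hc₀ : 0 ≤ c₀) (k : ℕ) : 0 ≤ C1 c₀ k := by
  unfold C1; positivity

lemma C1_pos {c₀ : ℝ} (hc₀ : 0 < c₀) (k : ℕ) : 0 < C1 c₀ k := by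
  unfold C1; positivity

lemma strong_trunc {c₀ : ℝ} (hc₀ : 0 < c₀) {k : ℕ} (hk : 1 ≤ k) (he : Fam e M)
    (hD : Disp ν e c₀ (k + 1)) {N : ℕ} (f : Fin N → H) (hf : Orthonormal ℂ f)
    (g : ℝ × X → ℝ≥0∞) (hg : Measurable g) (hG : GG ν k g ≠ ∞) (n : ℕ) (A : ℝ) (hA : 0 < A)
    (hAG : C1 c₀ k * (GG ν k g).toReal ≤ A) :
    ∫⁻ z in SS ν g n, dens e f z * g z ∂((volume : Measure ℝ).prod ν) ≤
      256 * ENNReal.ofReal (2 * (2 * A) ^ ((1 : ℝ) / (k + 2 : ℕ)) *
        (N : ℝ) ^ (1 - (1 : ℝ) / (k + 2 : ℕ))) := by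
  set S := SS ν g n with hSdef
  have hS : MeasurableSet S := SS_meas hg n
  set lev := clv n g with hlevdef
  have hlev : Measurable lev := clv_meas hg n
  set J := Finset.Icc (-(n : ℤ)) n with hJdef
  have hJ : ∀ z, lev z ∈ J := clv_mem n g
  have hSf : ((volume : Measure ℝ).prod ν) S ≠ ∞ := SS_finite g n
  have := wm_finite (ν := ν) hSf J hJ
  set s : ℤ → ℝ := fun j => (∫⁻ t, (sec ν ({z | lev z = j} ∩ S) t) ^ 2).toReal with hs
  have hfin : ∀ j, ∫⁻ t, (sec ν ({z | lev z = j} ∩ S) t) ^ 2 ≠ ∞ := by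
    intro j hcon
    have h1 := level_sum (ν := ν) hg k n {j}
    rw [Finset.sum_singleton] at h1
    rw [← hlevdef, ← hSdef, hcon] at h1
    rw [ENNReal.mul_top (by
      rw [Ne, ENNReal.ofReal_eq_zero, not_le]; positivity)] at h1
    exact hG (top_le_iff.mp h1)
  have hsum : ∑ j ∈ J, ((16 : ℝ) ^ (k + 2)) ^ (2 * j) * s j ≤ (GG ν k g).toReal := by
    have h1 := level_sum (ν := ν) hg k n J
    have h2 := ENNReal.toReal_mono hG h1
    refine le_trans (le_of_eq ?_) h2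
    rw [ENNReal.toReal_sum]
    · refine Finset.sum_congr rfl fun j _ => ?_
      rw [ENNReal.toReal_mul, ENNReal.toReal_ofReal (by positivity)]
    · intro j _
      exact ENNReal.mul_ne_top ENNReal.ofReal_ne_top (hfin j)
  have hW : ∀ κ : ℝ, 0 < κ → ∀ V : Submodule ℂ H, FiniteDimensional ℂ V →
      (∀ f ∈ V, κ * ‖f‖ ^ 2 ≤ Q e (wm ν S lev) f) →
      (Module.finrank ℂ V : ℝ) ≤ A / κ ^ (k + 2) := by
    intro κ hκ V hVf hV
    have h1 := weak_main hc₀.le hk he hD hS (Nat.cast_nonneg n) (fun z hz => hz.1) hSf hlev J hJ s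
      (fun j => ENNReal.toReal_nonneg) (fun j => by
        rw [hs]; simp only; rw [ENNReal.ofReal_toReal (hfin j)]) κ hκ V hV
    refine h1.trans ?_
    rw [div_mul_eq_mul_div]
    gcongr
    exact (mul_le_mul_of_nonneg_left hsum (C1_nonneg hc₀.le k)).trans hAG
  have htr := trace_bound' he (wm ν S lev) (k + 2) (by omega) A hA hW f hf
  -- relate the integrals
  have h1 : ∫⁻ z, dens e f z ∂(wm ν S lev) = ENNReal.ofReal (∑ i, Q e (wm ν S lev) (f i)) := by
    unfold dens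
    rw [lintegral_finsetSum' _ fun i _ =>
      ((he.inner_meas (f i)).measurable.enorm.pow_const 2).aemeasurable,
      ENNReal.ofReal_sum_of_nonneg fun i _ => Q_nonneg _ _]
    refine Finset.sum_congr rfl fun i _ => ?_
    unfold Q
    rw [ofReal_integral_eq_lintegral_ofReal (he.integrable_Q _ _)
      (Filter.Eventually.of_forall fun _ => by simp only [Pi.zero_apply]; positivity)]
    refine lintegral_congr fun z => ?_
    rw [enorm_sq_eq]
  have h2 : ∫⁻ z in S, dens e f z * g z ∂((volume : Measure ℝ).prod ν) ≤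
      256 * ∫⁻ z, dens e f z ∂(wm ν S lev) := by
    unfold wm
    have hw : Measurable (fun z => ENNReal.ofReal ((256 : ℝ) ^ (lev z))) := wm_meas hlev
    rw [lintegral_withDensity_eq_lintegral_mul _ hw (dens_meas he f),
      ← lintegral_const_mul _ (hw.mul (dens_meas he f))]
    refine setLIntegral_mono ((hw.mul (dens_meas he f)).const_mul _) fun z hz => ?_
    have hsp := (lv_spec hz.2.2.1 hz.2.2.2.1).2
    rw [← clv_eq hz] at hsp
    simp only [Pi.mul_apply]
    calc dens e f z * g z ≤ dens e f z * (ENNReal.ofReal ((256 : ℝ) ^ (lev z)) * 256) := by gcongr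
      _ = _ := by ring
  refine h2.trans ?_
  rw [h1]
  gcongr

theorem strong_fin {c₀ : ℝ} (hc₀ : 0 < c₀) {k : ℕ} (hk : 1 ≤ k) (he : Fam e M)
    (hD : Disp ν e c₀ (k + 1)) {N : ℕ} (f : Fin N → H) (hf : Orthonormal ℂ f)
    (g : ℝ × X → ℝ≥0∞) (hg : Measurable g) (hG : GG ν k g ≠ ∞) (A : ℝ) (hA : 0 < A)
    (hAG : C1 c₀ k * (GG ν k g).toReal ≤ A) :
    ∫⁻ z, dens e f z * g z ∂((volume : Measure ℝ).prod ν) ≤
      256 * ENNReal.ofReal (2 * (2 * A) ^ ((1 : ℝ) / (k + 2 : ℕ)) *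
        (N : ℝ) ^ (1 - (1 : ℝ) / (k + 2 : ℕ))) := by
  have hgfin : ∀ᵐ z ∂((volume : Measure ℝ).prod ν), g z ≠ ∞ := by
    have hk2 : (0 : ℝ) < ((k : ℝ) + 2) / 2 := by positivity
    have hm : Measurable fun z => g z ^ (((k : ℝ) + 2) / 2) := hg.pow_const _
    have hm1 : Measurable fun t => ∫⁻ x, g (t, x) ^ (((k : ℝ) + 2) / 2) ∂ν :=
      hm.lintegral_prod_right'
    have h1 : ∀ᵐ t : ℝ, (∫⁻ x, g (t, x) ^ (((k : ℝ) + 2) / 2) ∂ν) ^ 2 < ∞ :=
      ae_lt_top (hm1.pow_const 2) hG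
    have h2 : ∀ᵐ t : ℝ, ∀ᵐ x ∂ν, g (t, x) ≠ ∞ := by
      filter_upwards [h1] with t ht
      have ht' : ∫⁻ x, g (t, x) ^ (((k : ℝ) + 2) / 2) ∂ν ≠ ∞ := by
        intro hcon
        rw [hcon] at ht
        simp at ht
      have h3 := ae_lt_top (hm.comp measurable_prodMk_left) ht'
      filter_upwards [h3] with x hx
      intro hcon
      simp only [Function.comp] at hx
      rw [hcon, ENNReal.top_rpow_of_pos hk2] at hx
      exact lt_irrefl _ hx
    have hms : MeasurableSet {z : ℝ × X | g z ≠ ∞} := (hg (measurableSet_singleton ∞)).compl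
    exact (Measure.ae_prod_iff_ae_ae hms).mpr h2
  have h1 : ∫⁻ z, dens e f z * g z ∂((volume : Measure ℝ).prod ν) =
      ∫⁻ z in ⋃ n, SS ν g n, dens e f z * g z ∂((volume : Measure ℝ).prod ν) := by
    rw [SS_iUnion]
    have hms : MeasurableSet {z : ℝ × X | g z ≠ 0 ∧ g z ≠ ∞} :=
      (hg (measurableSet_singleton 0)).compl.inter (hg (measurableSet_singleton ∞)).compl
    rw [← lintegral_indicator hms]
    refine lintegral_congr_ae ?_
    filter_upwards [hgfin] with z hz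
    by_cases h0 : g z = 0
    · rw [Set.indicator_of_notMem (by
        rintro ⟨h, _⟩; exact h h0), h0, mul_zero]
    · rw [Set.indicator_of_mem (show z ∈ {z : ℝ × X | g z ≠ 0 ∧ g z ≠ ∞} from ⟨h0, hz⟩)]
  rw [h1, setLIntegral_iUnion_of_directed _ (SS_mono g).directed_le]
  exact iSup_le fun n => strong_trunc hc₀ hk he hD f hf g hg hG n A hA hAG

theorem strong_abs {c₀ : ℝ} (hc₀ : 0 < c₀) {k : ℕ} (hk : 1 ≤ k) (he : Fam e M)
    (hD : Disp ν e c₀ (k + 1)) {N : ℕ} (f : Fin N → H) (hf : Orthonormal ℂ f)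
    (g : ℝ × X → ℝ≥0∞) (hg : Measurable g) :
    ∫⁻ z, dens e f z * g z ∂((volume : Measure ℝ).prod ν) ≤
      ENNReal.ofReal (KK c₀ k) * (GG ν k g) ^ (1 / ((k : ℝ) + 2)) *
        (N : ℝ≥0∞) ^ (1 - 1 / ((k : ℝ) + 2)) := by
  have hk2 : (0 : ℝ) < (k : ℝ) + 2 := by positivity
  have hC1 := C1_pos hc₀ k
  have hKK : 0 < KK c₀ k := by unfold KK; positivity
  have hexp : 0 < 1 - 1 / ((k : ℝ) + 2) := by
    rw [sub_pos, div_lt_one hk2]
    have : (0 : ℝ) ≤ k := Nat.cast_nonneg k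
    linarith
  rcases Nat.eq_zero_or_pos N with hN | hN
  · subst hN
    unfold dens
    simp
  by_cases hG : GG ν k g = ∞
  · rw [hG, ENNReal.top_rpow_of_pos (by positivity), ENNReal.mul_top (by
      rw [Ne, ENNReal.ofReal_eq_zero, not_le]; exact hKK), ENNReal.top_mul]
    · exact le_top
    · rw [Ne, ENNReal.rpow_eq_zero_iff]
      push Not
      refine ⟨fun h => ?_, fun h => ?_⟩
      · exfalso
        have : N = 0 := by exact_mod_cast h
        omega
      · exact absurd h (by simp)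
  · -- limit A → C1 * G
    set G := (GG ν k g).toReal with hGdef
    have hG0 : 0 ≤ G := ENNReal.toReal_nonneg
    have hlim : Filter.Tendsto (fun ε : ℝ => 256 * ENNReal.ofReal
        (2 * (2 * (C1 c₀ k * G + ε)) ^ ((1 : ℝ) / (k + 2 : ℕ)) *
          (N : ℝ) ^ (1 - (1 : ℝ) / (k + 2 : ℕ)))) (nhdsWithin 0 (Set.Ioi 0))
        (nhds (256 * ENNReal.ofReal (2 * (2 * (C1 c₀ k * G + 0)) ^ ((1 : ℝ) / (k + 2 : ℕ)) *
          (N : ℝ) ^ (1 - (1 : ℝ) / (k + 2 : ℕ))))) := by
      refine Filter.Tendsto.mono_left ?_ nhdsWithin_le_nhds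
      have hcont : Continuous fun ε : ℝ => ENNReal.ofReal
        (2 * (2 * (C1 c₀ k * G + ε)) ^ ((1 : ℝ) / (k + 2 : ℕ)) *
          (N : ℝ) ^ (1 - (1 : ℝ) / (k + 2 : ℕ))) := by
        refine ENNReal.continuous_ofReal.comp ?_
        refine Continuous.mul (continuous_const.mul ?_) continuous_const
        refine Continuous.rpow_const (by fun_prop) fun x => Or.inr (by positivity)
      exact ENNReal.Tendsto.const_mul (hcont.tendsto 0) (Or.inr (by norm_num))
    have hle : ∫⁻ z, dens e f z * g z ∂((volume : Measure ℝ).prod ν) ≤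
        256 * ENNReal.ofReal (2 * (2 * (C1 c₀ k * G + 0)) ^ ((1 : ℝ) / (k + 2 : ℕ)) *
          (N : ℝ) ^ (1 - (1 : ℝ) / (k + 2 : ℕ))) := by
      refine ge_of_tendsto hlim ?_
      filter_upwards [self_mem_nhdsWithin] with ε hε
      have hε' : 0 < ε := hε
      exact strong_fin hc₀ hk he hD f hf g hg hG _ (by positivity) (by linarith)
    refine hle.trans (le_of_eq ?_)
    have hcast : ((k + 2 : ℕ) : ℝ) = (k : ℝ) + 2 := by push_cast; ring
    rw [hcast, add_zero]
    have h256 : (256 : ℝ≥0∞) = ENNReal.ofReal 256 := by norm_num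
    have hGG : GG ν k g = ENNReal.ofReal G := (ENNReal.ofReal_toReal hG).symm
    have hNN : (N : ℝ≥0∞) = ENNReal.ofReal (N : ℝ) := by simp
    rw [h256, hGG, hNN, ENNReal.ofReal_rpow_of_nonneg hG0 (by positivity),
      ENNReal.ofReal_rpow_of_nonneg (Nat.cast_nonneg N) hexp.le,
      ← ENNReal.ofReal_mul (by norm_num), ← ENNReal.ofReal_mul hKK.le,
      ← ENNReal.ofReal_mul (by positivity)]
    congr 1
    unfold KK
    rw [← mul_assoc 2 (C1 c₀ k) G, Real.mul_rpow (by positivity) hG0]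
    ring

end St2
end Pool.Agent.N249.Ed
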