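import Pool.Agent.N249.Multi2
import Pool.Agent.N249.Kernel
set_option autoImplicit false
set_option linter.unusedSectionVars false
set_option linter.unusedSimpArgs false

namespace Pool.Agent.N249.Ed
open MeasureTheory Complex
open scoped ComplexConjugate ENNReal

section TS
variable {H : Type*} [NormedAddCommGroup H] [InnerProductSpace ℂ H] [CompleteSpace H]
variable {X : Type*} [MeasurableSpace X]

/-- unitarity and dispersion -/
structure Disp (ν : Measure X) (e : ℝ × X → H) (c₀ : ℝ) (d : ℕ) : Prop where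
  ha : ∀ (t : ℝ) (f : H), ∫⁻ x, ‖inner ℂ (e (t, x)) f‖ₑ ^ 2 ∂ν ≤ ‖f‖ₑ ^ 2
  hb : ∀ (t s : ℝ) (x y : X), t ≠ s → ‖inner ℂ (e (t, x)) (e (s, y))‖ ^ 2 ≤ c₀ * (1 / |t - s| ^ d)

/-- weighted measure -/
noncomputable def wm (ν : Measure X) (S : Set (ℝ × X)) (lev : ℝ × X → ℤ) : Measure (ℝ × X) :=
  (((volume : Measure ℝ).prod ν).restrict S).withDensity
    (fun z => ENNReal.ofReal ((256 : ℝ) ^ (lev z)))

/-- section measure -/
noncomputable def sec (ν : Measure X) (A : Set (ℝ × X)) (t : ℝ) : ℝ≥0∞ :=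
  ν (Prod.mk t ⁻¹' A)

variable {ν : Measure X} [SigmaFinite ν]

lemma sec_meas {A : Set (ℝ × X)} (hA : MeasurableSet A) : Measurable (sec ν A) :=
  measurable_measure_prodMk_left hA

lemma wm_meas {lev : ℝ × X → ℤ} (hlev : Measurable lev) :
    Measurable (fun z => ENNReal.ofReal ((256 : ℝ) ^ (lev z))) := by
  have h1 : Measurable fun j : ℤ => ENNReal.ofReal ((256 : ℝ) ^ j) := measurable_from_top
  exact h1.comp hlev

lemma wm_restrict {S : Set (ℝ × X)} {lev : ℝ × X → ℤ}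
    {A : Set (ℝ × X)} (hA : MeasurableSet A) (j : ℤ) (hAj : ∀ z ∈ A, lev z = j) :
    (wm ν S lev).restrict A = ENNReal.ofReal ((256 : ℝ) ^ j) •
      (((volume : Measure ℝ).prod ν).restrict (A ∩ S)) := by
  unfold wm
  rw [restrict_withDensity hA, Measure.restrict_restrict hA]
  have h1 : (((volume : Measure ℝ).prod ν).restrict (A ∩ S)).withDensity
      (fun z => ENNReal.ofReal ((256 : ℝ) ^ (lev z))) =
      (((volume : Measure ℝ).prod ν).restrict (A ∩ S)).withDensity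
      (fun _ => ENNReal.ofReal ((256 : ℝ) ^ j)) := by
    refine withDensity_congr_ae ?_
    have h2 : ∀ᵐ z ∂(((volume : Measure ℝ).prod ν).restrict (A ∩ S)), z ∈ A := by
      have h3 : ∀ᵐ z ∂(((volume : Measure ℝ).prod ν).restrict A), z ∈ A := ae_restrict_mem hA
      exact ae_mono (Measure.restrict_mono Set.inter_subset_left le_rfl) h3
    filter_upwards [h2] with z hz
    rw [hAj z hz]
  rw [h1, withDensity_const]

lemma wm_finite {S : Set (ℝ × X)} (hSf : ((volume : Measure ℝ).prod ν) S ≠ ∞)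
    {lev : ℝ × X → ℤ} (J : Finset ℤ) (hJ : ∀ z, lev z ∈ J) :
    IsFiniteMeasure (wm ν S lev) := by
  constructor
  unfold wm
  rw [withDensity_apply _ MeasurableSet.univ, Measure.restrict_univ]
  have hbd : ∀ z, ENNReal.ofReal ((256 : ℝ) ^ (lev z)) ≤
      ∑ j ∈ J, ENNReal.ofReal ((256 : ℝ) ^ j) := by
    intro z
    exact Finset.single_le_sum (f := fun j => ENNReal.ofReal ((256 : ℝ) ^ j))
      (fun _ _ => zero_le) (hJ z)
  calc ∫⁻ z, ENNReal.ofReal ((256 : ℝ) ^ (lev z)) ∂(((volume : Measure ℝ).prod ν).restrict S)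
      ≤ ∫⁻ _z, (∑ j ∈ J, ENNReal.ofReal ((256 : ℝ) ^ j))
          ∂(((volume : Measure ℝ).prod ν).restrict S) := lintegral_mono fun z => hbd z
    _ = (∑ j ∈ J, ENNReal.ofReal ((256 : ℝ) ^ j)) * ((volume : Measure ℝ).prod ν) S := by
        rw [lintegral_const, Measure.restrict_apply_univ]
    _ < ∞ := ENNReal.mul_lt_top (ENNReal.sum_lt_top.mpr fun _ _ => ENNReal.ofReal_lt_top)
        (lt_top_iff_ne_top.mpr hSf)

variable {e : ℝ × X → H} {M : ℝ}

lemma enorm_sq_eq (z : ℂ) : ‖z‖ₑ ^ 2 = ENNReal.ofReal (‖z‖ ^ 2) := by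
  rw [← ofReal_norm, ENNReal.ofReal_pow (norm_nonneg _)]

/-- (F1) -/
lemma Q_block {c₀ : ℝ} {d : ℕ} (he : Fam e M) (hD : Disp ν e c₀ d) {S : Set (ℝ × X)}
    {lev : ℝ × X → ℤ} {A : Set (ℝ × X)} (hA : MeasurableSet A) (j : ℤ)
    (hAj : ∀ z ∈ A, lev z = j) (T' : Set ℝ) (hT : MeasurableSet T') (r : ℝ) (hr : 0 ≤ r)
    (hTr : volume T' ≤ ENNReal.ofReal r) (hAT : ∀ z ∈ A ∩ S, z.1 ∈ T') (h : H) :
    Q e ((wm ν S lev).restrict A) h ≤ 256 ^ j * r * ‖h‖ ^ 2 := by
  rw [wm_restrict hA j hAj]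
  unfold Q
  rw [integral_smul_measure, ENNReal.toReal_ofReal (by positivity), smul_eq_mul, mul_assoc]
  refine mul_le_mul_of_nonneg_left ?_ (by positivity)
  have hms : StronglyMeasurable fun z => ‖inner ℂ (e z) h‖ ^ 2 := (he.inner_meas h).norm.pow 2
  rw [integral_eq_lintegral_of_nonneg_ae (Filter.Eventually.of_forall fun _ => by
    simp only [Pi.zero_apply]; positivity) hms.aestronglyMeasurable]
  refine ENNReal.toReal_le_of_le_ofReal (by positivity) ?_
  have hsub : A ∩ S ⊆ T' ×ˢ (Set.univ : Set X) := fun z hz => ⟨hAT z hz, trivial⟩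
  calc ∫⁻ z in A ∩ S, ENNReal.ofReal (‖inner ℂ (e z) h‖ ^ 2) ∂((volume : Measure ℝ).prod ν)
      ≤ ∫⁻ z in T' ×ˢ (Set.univ : Set X), ENNReal.ofReal (‖inner ℂ (e z) h‖ ^ 2)
          ∂((volume : Measure ℝ).prod ν) := lintegral_mono_set hsub
    _ = ∫⁻ t in T', ∫⁻ x, ENNReal.ofReal (‖inner ℂ (e (t, x)) h‖ ^ 2) ∂ν := by
        rw [← Measure.prod_restrict, Measure.restrict_univ, lintegral_prod]
        exact ((he.inner_meas h).norm.pow 2).measurable.ennreal_ofReal.aemeasurable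
    _ ≤ ∫⁻ _t in T', ‖h‖ₑ ^ 2 := by
        refine lintegral_mono fun t => ?_
        refine le_trans (le_of_eq (lintegral_congr fun x => ?_)) (hD.ha t h)
        rw [enorm_sq_eq]
    _ = ‖h‖ₑ ^ 2 * volume T' := by rw [lintegral_const, Measure.restrict_apply_univ]
    _ ≤ ‖h‖ₑ ^ 2 * ENNReal.ofReal r := by gcongr
    _ = ENNReal.ofReal (r * ‖h‖ ^ 2) := by
        rw [ENNReal.ofReal_mul hr, mul_comm, ENNReal.ofReal_pow (norm_nonneg _), ofReal_norm]

/-- time integrals over a set of space-time -/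
lemma lintegral_time {A : Set (ℝ × X)} (hA : MeasurableSet A) (φ : ℝ → ℝ≥0∞) (hφ : Measurable φ) :
    ∫⁻ z in A, φ z.1 ∂((volume : Measure ℝ).prod ν) = ∫⁻ t, φ t * sec ν A t := by
  rw [← lintegral_indicator hA, lintegral_prod]
  · refine lintegral_congr fun t => ?_
    have : ∀ x, A.indicator (fun z => φ z.1) (t, x) =
        (Prod.mk t ⁻¹' A).indicator (fun _ => φ t) x := by
      intro x
      by_cases h : (t, x) ∈ A
      · rw [Set.indicator_of_mem h, Set.indicator_of_mem (by exact h)]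
      · rw [Set.indicator_of_notMem h, Set.indicator_of_notMem (by exact h)]
    simp_rw [this]
    rw [lintegral_indicator (measurable_prodMk_left hA), lintegral_const,
      Measure.restrict_apply_univ]
    rfl
  · exact ((hφ.comp measurable_fst).indicator hA).aemeasurable

lemma weighted_conv (d : ℕ) (hd : 2 ≤ d) (ρ : ℝ) (hρ : 0 < ρ) (a b : ℝ → ℝ≥0∞)
    (ha : Measurable a) (hb : Measurable b) (j l : ℤ) :
    ∫⁻ t, ∫⁻ s, ker d ρ (t - s) * (a t * b s) ≤
      ENNReal.ofReal (ρ / ρ ^ d) * ((∫⁻ t, a t ^ 2) * ENNReal.ofReal ((16 ^ (d + 1)) ^ (j - l)) +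
        (∫⁻ t, b t ^ 2) * ENNReal.ofReal ((16 ^ (d + 1)) ^ (l - j))) := by
  have hw : ∀ i : ℤ, ENNReal.ofReal (((4 : ℝ) ^ (d + 1)) ^ i) ^ 2 =
      ENNReal.ofReal (((16 : ℝ) ^ (d + 1)) ^ i) := by
    intro i
    rw [← ENNReal.ofReal_pow (by positivity)]
    congr 1
    have : (16 : ℝ) ^ (d + 1) = ((4 : ℝ) ^ (d + 1)) ^ 2 := by
      rw [← pow_mul, mul_comm, pow_mul]; norm_num
    rw [this, ← zpow_natCast, ← zpow_natCast, ← zpow_natCast, ← zpow_mul, ← zpow_mul, ← zpow_mul,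
      ← zpow_mul]
    congr 1
    push_cast
    ring
  have hprod : ENNReal.ofReal (((4 : ℝ) ^ (d + 1)) ^ (j - l)) *
      ENNReal.ofReal (((4 : ℝ) ^ (d + 1)) ^ (l - j)) = 1 := by
    rw [← ENNReal.ofReal_mul (by positivity), ← zpow_add₀ (by positivity)]
    simp
  have h1 := conv_bound d hd ρ hρ
    (fun t => ENNReal.ofReal (((4 : ℝ) ^ (d + 1)) ^ (j - l)) * a t)
    (fun t => ENNReal.ofReal (((4 : ℝ) ^ (d + 1)) ^ (l - j)) * b t)
    (ha.const_mul _) (hb.const_mul _)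
  have h2 : ∀ t s, ker d ρ (t - s) * (ENNReal.ofReal (((4 : ℝ) ^ (d + 1)) ^ (j - l)) * a t *
      (ENNReal.ofReal (((4 : ℝ) ^ (d + 1)) ^ (l - j)) * b s)) =
      ker d ρ (t - s) * (a t * b s) := by
    intro t s
    calc _ = ker d ρ (t - s) * ((ENNReal.ofReal (((4 : ℝ) ^ (d + 1)) ^ (j - l)) *
        ENNReal.ofReal (((4 : ℝ) ^ (d + 1)) ^ (l - j))) * (a t * b s)) := by ring
      _ = _ := by rw [hprod, one_mul]
  simp_rw [h2, mul_pow, hw] at h1
  rw [lintegral_const_mul _ (ha.pow_const 2), lintegral_const_mul _ (hb.pow_const 2)] at h1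
  refine h1.trans (le_of_eq ?_)
  ring

/-- far part for one pair -/
lemma far_pair {c₀ : ℝ} (hc₀ : 0 ≤ c₀) {d : ℕ} (hd : 2 ≤ d) (he : Fam e M)
    (hD : Disp ν e c₀ d) {S : Set (ℝ × X)} (hS : MeasurableSet S) {lev : ℝ × X → ℤ}
    (J : Finset ℤ) (hJ : ∀ z, lev z ∈ J) (hSf : ((volume : Measure ℝ).prod ν) S ≠ ∞)
    {A A' : Set (ℝ × X)} (hA : MeasurableSet A) (hA' : MeasurableSet A')
    (j l : ℤ) (hAj : ∀ z ∈ A, lev z = j) (hAl : ∀ z ∈ A', lev z = l) (ρ : ℝ) (hρ : 0 < ρ) :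
    ∫⁻ p in A ×ˢ A', (if ρ ≤ |p.1.1 - p.2.1| then ‖inner ℂ (e p.1) (e p.2)‖ₑ ^ 2 else 0)
      ∂((wm ν S lev).prod (wm ν S lev)) ≤
    ENNReal.ofReal (256 ^ j * 256 ^ l * c₀ * (ρ / ρ ^ d)) *
      ((∫⁻ t, (sec ν (A ∩ S) t) ^ 2) * ENNReal.ofReal ((16 ^ (d + 1)) ^ (j - l)) +
       (∫⁻ t, (sec ν (A' ∩ S) t) ^ 2) * ENNReal.ofReal ((16 ^ (d + 1)) ^ (l - j))) := by
  have := wm_finite (ν := ν) hSf J hJ
  have hpt : ∀ p : (ℝ × X) × (ℝ × X),
      (if ρ ≤ |p.1.1 - p.2.1| then ‖inner ℂ (e p.1) (e p.2)‖ₑ ^ 2 else 0) ≤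
      ENNReal.ofReal c₀ * ker d ρ (p.1.1 - p.2.1) := by
    intro p
    unfold ker
    by_cases h : ρ ≤ |p.1.1 - p.2.1|
    · rw [if_pos h, if_pos h, enorm_sq_eq, ← ENNReal.ofReal_mul hc₀]
      refine ENNReal.ofReal_le_ofReal ?_
      refine hD.hb p.1.1 p.2.1 p.1.2 p.2.2 ?_
      intro h0
      rw [h0, sub_self, abs_zero] at h
      linarith
    · rw [if_neg h, if_neg h]; exact zero_le
  have hkm := ker_meas d ρ
  calc ∫⁻ p in A ×ˢ A', (if ρ ≤ |p.1.1 - p.2.1| then ‖inner ℂ (e p.1) (e p.2)‖ₑ ^ 2 else 0)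
      ∂((wm ν S lev).prod (wm ν S lev))
      ≤ ∫⁻ p in A ×ˢ A', ENNReal.ofReal c₀ * ker d ρ (p.1.1 - p.2.1)
        ∂((wm ν S lev).prod (wm ν S lev)) := lintegral_mono fun p => hpt p
    _ = ENNReal.ofReal c₀ * ∫⁻ p, ker d ρ (p.1.1 - p.2.1)
        ∂(((wm ν S lev).restrict A).prod ((wm ν S lev).restrict A')) := by
        have hm : Measurable fun p : (ℝ × X) × (ℝ × X) => ker d ρ (p.1.1 - p.2.1) :=
          hkm.comp ((measurable_fst.comp measurable_fst).sub (measurable_fst.comp measurable_snd))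
        rw [lintegral_const_mul _ hm, Measure.prod_restrict]
    _ = ENNReal.ofReal c₀ * (ENNReal.ofReal (256 ^ j) * (ENNReal.ofReal (256 ^ l) *
        ∫⁻ t, ∫⁻ s, ker d ρ (t - s) * (sec ν (A ∩ S) t * sec ν (A' ∩ S) s))) := by
        have hm : Measurable fun p : (ℝ × X) × (ℝ × X) => ker d ρ (p.1.1 - p.2.1) :=
          hkm.comp ((measurable_fst.comp measurable_fst).sub (measurable_fst.comp measurable_snd))
        rw [lintegral_prod _ hm.aemeasurable, wm_restrict hA j hAj, wm_restrict hA' l hAl]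
        rw [lintegral_smul_measure]
        simp_rw [lintegral_smul_measure]
        simp only [smul_eq_mul]
        have hin : ∀ z : ℝ × X, ∫⁻ w in A' ∩ S, ker d ρ (z.1 - w.1) ∂((volume : Measure ℝ).prod ν) =
            ∫⁻ s, ker d ρ (z.1 - s) * sec ν (A' ∩ S) s := fun z =>
          lintegral_time (hA'.inter hS) (fun s => ker d ρ (z.1 - s))
            (hkm.comp (measurable_const.sub measurable_id))
        simp_rw [hin]
        have hm2 : Measurable fun q : ℝ × ℝ => ker d ρ (q.1 - q.2) * sec ν (A' ∩ S) q.2 :=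
          (hkm.comp (measurable_fst.sub measurable_snd)).mul
            ((sec_meas (hA'.inter hS)).comp measurable_snd)
        have hm3 : Measurable fun t : ℝ => ENNReal.ofReal (256 ^ l) *
            ∫⁻ s, ker d ρ (t - s) * sec ν (A' ∩ S) s := hm2.lintegral_prod_right'.const_mul _
        rw [lintegral_time (hA.inter hS) (fun t => ENNReal.ofReal (256 ^ l) *
          ∫⁻ s, ker d ρ (t - s) * sec ν (A' ∩ S) s) hm3]
        congr 2
        rw [← lintegral_const_mul]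
        · refine lintegral_congr fun t => ?_
          rw [mul_assoc]
          congr 1
          rw [← lintegral_mul_const _ (by
            exact (hkm.comp (measurable_const.sub measurable_id)).mul (sec_meas (hA'.inter hS)))]
          refine lintegral_congr fun s => ?_
          ring
        · have hm4 : Measurable fun q : ℝ × ℝ => ker d ρ (q.1 - q.2) *
            (sec ν (A ∩ S) q.1 * sec ν (A' ∩ S) q.2) :=
            (hkm.comp (measurable_fst.sub measurable_snd)).mul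
            (((sec_meas (hA.inter hS)).comp measurable_fst).mul
              ((sec_meas (hA'.inter hS)).comp measurable_snd))
          exact hm4.lintegral_prod_right'
    _ ≤ ENNReal.ofReal c₀ * (ENNReal.ofReal (256 ^ j) * (ENNReal.ofReal (256 ^ l) *
        (ENNReal.ofReal (ρ / ρ ^ d) *
      ((∫⁻ t, (sec ν (A ∩ S) t) ^ 2) * ENNReal.ofReal ((16 ^ (d + 1)) ^ (j - l)) +
       (∫⁻ t, (sec ν (A' ∩ S) t) ^ 2) * ENNReal.ofReal ((16 ^ (d + 1)) ^ (l - j)))))) := by
        gcongr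
        exact weighted_conv d hd ρ hρ _ _ (sec_meas (hA.inter hS)) (sec_meas (hA'.inter hS)) j l
    _ = _ := by
        rw [ENNReal.ofReal_mul (by positivity), ENNReal.ofReal_mul (by positivity),
          ENNReal.ofReal_mul (by positivity)]
        ring

end TS
end Pool.Agent.N249.Ed
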