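import Pool.Agent.N819.UD.Stm

/-!
Project UD (helper819), part MOD2 (helper249): an element of the kernel of the boundary operator gives
one modulo two.
-/

set_option autoImplicit false

namespace Pool.Agent.N249.UD_MOD2

open Pool.Agent.TH625.LOG Pool.Agent.N819.UD

variable {V E : Type}

theorem bdry_zero (L : LOG V E) : L.bdry 0 = 0 := by
  unfold LOG.bdry
  exact Finsupp.sum_zero_index

theorem bdry_add (L : LOG V E) (c d : (E × L.G) →₀ ℤ) :
    L.bdry (c + d) = L.bdry c + L.bdry d := by
  classical
  unfold LOG.bdry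
  refine Finsupp.sum_add_index' (fun a => ?_) (fun a m n => ?_)
  · refine Finset.sum_eq_zero fun k _ => ?_
    rw [mul_zero, Finsupp.single_zero]
  · rw [← Finset.sum_add_distrib]
    refine Finset.sum_congr rfl fun k _ => ?_
    rw [mul_add, Finsupp.single_add]

theorem neg_two (n : ℤ) : ((-n : ℤ) : ZMod 2) = (n : ZMod 2) := by
  rw [Int.cast_neg, CharTwo.neg_eq]

theorem bd_mod [Fintype E] [DecidableEq V] [DecidableEq E] (L : LOG V E)
    (c : (E × L.G) →₀ ℤ) (v : V) (g : L.G) :
    ((L.bdry c (v, g) : ℤ) : ZMod 2) =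
      ∑ e, ((if L.ini e = v then ((c (e, g) : ℤ) : ZMod 2) else 0) +
        (if L.lab e = v then ((c (e, g * (L.gen (L.ini e))⁻¹) : ℤ) : ZMod 2) else 0) +
        (if L.lab e = v then ((c (e, g) : ℤ) : ZMod 2) else 0) +
        (if L.ter e = v then ((c (e, g * (L.gen (L.lab e))⁻¹) : ℤ) : ZMod 2) else 0)) := by
  classical
  induction c using Finsupp.induction_linear with
  | zero => simp [bdry_zero]
  | add c d hc hd =>
    rw [bdry_add, Finsupp.add_apply, Int.cast_add, hc, hd, ← Finset.sum_add_distrib]
    refine Finset.sum_congr rfl fun e _ => ?_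
    simp only [Finsupp.add_apply, Int.cast_add]
    split_ifs <;> ring
  | single d n =>
    obtain ⟨e0, g0⟩ := d
    have hb : L.bdry (Finsupp.single (e0, g0) n) =
        ∑ k : Fin 4, Finsupp.single (L.side (e0, g0) k) (sgn k * n) := by
      unfold LOG.bdry
      refine Finsupp.sum_single_index ?_
      refine Finset.sum_eq_zero fun k _ => ?_
      rw [mul_zero, Finsupp.single_zero]
    have s0 : (Finsupp.single (L.side (e0, g0) 0) (sgn 0 * n)) (v, g) =
        if L.ini e0 = v ∧ g0 = g then n else 0 := by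
      have h1 : L.side (e0, g0) 0 = (L.ini e0, g0) := by
        change (L.ini e0, g0 * 1) = _
        rw [mul_one]
      have h2 : sgn 0 = 1 := rfl
      rw [h1, h2, one_mul, Finsupp.single_apply]
      simp only [Prod.mk.injEq]
    have s1 : (Finsupp.single (L.side (e0, g0) 1) (sgn 1 * n)) (v, g) =
        if L.lab e0 = v ∧ g0 * L.gen (L.ini e0) = g then n else 0 := by
      have h1 : L.side (e0, g0) 1 = (L.lab e0, g0 * L.gen (L.ini e0)) := rfl
      have h2 : sgn 1 = 1 := rfl
      rw [h1, h2, one_mul, Finsupp.single_apply]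
      simp only [Prod.mk.injEq]
    have s2 : (Finsupp.single (L.side (e0, g0) 2) (sgn 2 * n)) (v, g) =
        if L.lab e0 = v ∧ g0 = g then -n else 0 := by
      have h1 : L.side (e0, g0) 2 = (L.lab e0, g0) := by
        change (L.lab e0, g0 * 1) = _
        rw [mul_one]
      have h2 : sgn 2 = -1 := rfl
      rw [h1, h2, neg_one_mul, Finsupp.single_apply]
      simp only [Prod.mk.injEq]
    have s3 : (Finsupp.single (L.side (e0, g0) 3) (sgn 3 * n)) (v, g) =
        if L.ter e0 = v ∧ g0 * L.gen (L.lab e0) = g then -n else 0 := by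
      have h1 : L.side (e0, g0) 3 = (L.ter e0, g0 * L.gen (L.lab e0)) := rfl
      have h2 : sgn 3 = -1 := rfl
      rw [h1, h2, neg_one_mul, Finsupp.single_apply]
      simp only [Prod.mk.injEq]
    have key : ∀ (p q : Prop) [Decidable p] [Decidable q] (m : ℤ),
        ((if p ∧ q then m else 0 : ℤ) : ZMod 2) =
          if p then ((if q then m else 0 : ℤ) : ZMod 2) else 0 := by
      intro p q _ _ m
      by_cases hp : p <;> by_cases hq : q <;> simp [hp, hq]
    have key2 : ∀ (p q : Prop) [Decidable p] [Decidable q] (m : ℤ),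
        ((if p ∧ q then -m else 0 : ℤ) : ZMod 2) =
          if p then ((if q then m else 0 : ℤ) : ZMod 2) else 0 := by
      intro p q _ _ m
      by_cases hp : p <;> by_cases hq : q
      · rw [if_pos ⟨hp, hq⟩, if_pos hp, if_pos hq, neg_two]
      · rw [if_neg (fun h => hq h.2), if_pos hp, if_neg hq]
      · rw [if_neg (fun h => hp h.1), if_neg hp, Int.cast_zero]
      · rw [if_neg (fun h => hp h.1), if_neg hp, Int.cast_zero]
    have c0 : ∀ g' : L.G, (Finsupp.single (e0, g0) n) (e0, g') = if g0 = g' then n else 0 := by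
      intro g'
      rw [Finsupp.single_apply]
      simp only [Prod.mk.injEq, true_and]
    have c1 : ∀ x : L.G, (Finsupp.single (e0, g0) n) (e0, g * x⁻¹) =
        if g0 * x = g then n else 0 := by
      intro x
      rw [c0]
      simp only [eq_mul_inv_iff_mul_eq]
    rw [hb, Finset.sum_eq_single e0]
    · rw [Finsupp.finsetSum_apply, Fin.sum_univ_four, s0, s1, s2, s3, c0, c1, c1]
      simp only [Int.cast_add]
      rw [key, key, key2, key2]
    · intro e _ he
      have h0 : ∀ g' : L.G, (Finsupp.single (e0, g0) n) (e, g') = 0 := by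
        intro g'
        rw [Finsupp.single_apply, if_neg]
        intro h
        exact he (congrArg Prod.fst h).symm
      rw [h0, h0, h0]
      simp
    · intro h
      exact absurd (Finset.mem_univ _) h

/-- halving -/
noncomputable def half {A : Type} (c : A →₀ ℤ) : A →₀ ℤ := c.mapRange (fun n => n / 2) (by norm_num)

theorem half_add {A : Type} (c : A →₀ ℤ) (h : ∀ d, 2 ∣ c d) : half c + half c = c := by
  ext d
  have h1 := h d
  rw [Finsupp.add_apply]
  have h2 : half c d = c d / 2 := Finsupp.mapRange_apply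
  rw [h2]
  omega

theorem pow_dvd [Fintype E] [DecidableEq V] [DecidableEq E] (L : LOG V E)
    (hy : ∀ y : E → L.G → ZMod 2, {z : E × L.G | y z.1 z.2 ≠ 0}.Finite →
      (∀ v g, ∑ e, ((if L.ini e = v then y e g else 0) +
        (if L.lab e = v then y e (g * (L.gen (L.ini e))⁻¹) else 0) +
        (if L.lab e = v then y e g else 0) +
        (if L.ter e = v then y e (g * (L.gen (L.lab e))⁻¹) else 0)) = 0) →
      ∀ e g, y e g = 0) (k : ℕ) :
    ∀ c : (E × L.G) →₀ ℤ, L.bdry c = 0 → ∀ d, (2 : ℤ) ^ k ∣ c d := by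
  induction k with
  | zero => intro c _ d; rw [pow_zero]; exact one_dvd _
  | succ k ih =>
    intro c hc d
    have h1 : ∀ e g, ((c (e, g) : ℤ) : ZMod 2) = 0 := by
      refine hy (fun e g => ((c (e, g) : ℤ) : ZMod 2)) ?_ ?_
      · refine (c.support.finite_toSet).subset fun z hz => ?_
        rw [Finset.mem_coe, Finsupp.mem_support_iff]
        intro h
        apply hz
        change ((c (z.1, z.2) : ℤ) : ZMod 2) = 0
        rw [Prod.mk.eta, h, Int.cast_zero]
      · intro v g
        have h2 := bd_mod L c v g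
        rw [hc, Finsupp.coe_zero, Pi.zero_apply, Int.cast_zero] at h2
        exact h2.symm
    have h2 : ∀ d, 2 ∣ c d := by
      rintro ⟨e, g⟩
      exact_mod_cast (ZMod.intCast_zmod_eq_zero_iff_dvd (c (e, g)) 2).1 (h1 e g)
    have h3 := half_add c h2
    have h4 : L.bdry (half c) = 0 := by
      have h5 := bdry_add L (half c) (half c)
      rw [h3, hc] at h5
      ext x
      have h6 : (0 : (V × L.G) →₀ ℤ) x = (L.bdry (half c) + L.bdry (half c)) x := by rw [← h5]
      rw [Finsupp.add_apply, Finsupp.coe_zero, Pi.zero_apply] at h6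
      rw [Finsupp.coe_zero, Pi.zero_apply]
      omega
    obtain ⟨m, hm⟩ := ih (half c) h4 d
    have h7 : c d = half c d + half c d := by
      rw [← Finsupp.add_apply, h3]
    exact ⟨m, by rw [h7, hm, pow_succ]; ring⟩

theorem main : Pool.Agent.N819.UD.S_MOD2 := by
  intro V E _ _ _ _ L hy c hc
  ext d
  rw [Finsupp.coe_zero, Pi.zero_apply]
  have h1 := pow_dvd L hy (c d).natAbs c hc d
  refine Int.eq_zero_of_abs_lt_dvd h1 ?_
  have h2 : (c d).natAbs < 2 ^ (c d).natAbs := Nat.lt_two_pow_self
  rw [Int.abs_eq_natAbs]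
  exact_mod_cast h2

end Pool.Agent.N249.UD_MOD2
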