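import Pool.Agent.N249.Gauss
set_option autoImplicit false
set_option linter.unusedSectionVars false
set_option linter.unusedSimpArgs false
set_option linter.unusedVariables false

namespace Pool.Agent.N249.Ed
open MeasureTheory Complex Filter FourierTransform
open scoped ENNReal Topology RealInnerProductSpace ComplexConjugate

section Un
variable {d : ℕ}

/-- the multiplier `e^{-4π²(ε+it)|w|²}` -/
noncomputable def mm (ε t : ℝ) (w : Rd d) : ℂ := cexp (-(aa ε t) * ‖w‖ ^ 2)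

lemma mm_continuous (ε t : ℝ) : Continuous (mm (d := d) ε t) := by
  unfold mm; fun_prop

lemma norm_mm (ε t : ℝ) (w : Rd d) : ‖mm ε t w‖ = Real.exp (-(4 * Real.pi ^ 2 * ε) * ‖w‖ ^ 2) := by
  unfold mm
  rw [Complex.norm_exp]
  congr 1
  have e1 : (-(aa ε t) * (‖w‖ : ℂ) ^ 2) = ((-‖w‖ ^ 2 : ℝ) : ℂ) * aa ε t := by push_cast; ring
  rw [e1, Complex.re_ofReal_mul, aa_re]
  ring

lemma norm_mm_le {ε : ℝ} (hε : 0 ≤ ε) (t : ℝ) (w : Rd d) : ‖mm ε t w‖ ≤ 1 := by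
  rw [norm_mm, Real.exp_le_one_iff]
  have : 0 ≤ (4 * Real.pi ^ 2 * ε) * ‖w‖ ^ 2 := by positivity
  linarith

lemma memLp_mm_mul {ε : ℝ} (hε : 0 ≤ ε) (t : ℝ) (h : Lp ℂ 2 (volume : Measure (Rd d))) :
    MemLp (fun w => mm ε t w * h w) 2 (volume : Measure (Rd d)) := by
  refine (Lp.memLp h).of_le ?_ (Filter.Eventually.of_forall fun w => ?_)
  · exact (mm_continuous ε t).aestronglyMeasurable.mul (Lp.aestronglyMeasurable h)
  · rw [norm_mul]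
    calc ‖mm ε t w‖ * ‖h w‖ ≤ 1 * ‖h w‖ :=
          mul_le_mul_of_nonneg_right (norm_mm_le hε t w) (norm_nonneg _)
      _ = _ := one_mul _

lemma memLp_mm {ε : ℝ} (hε : 0 < ε) (t : ℝ) : MemLp (mm (d := d) ε t) 2 volume := by
  have h1 := memLp_gs (d := d) hε (-t, 0)
  refine h1.of_le (mm_continuous ε t).aestronglyMeasurable (Filter.Eventually.of_forall fun w => ?_)
  unfold mm gs
  simp

lemma integrable_mm_mul {ε : ℝ} (hε : 0 < ε) (t : ℝ) (h : Lp ℂ 2 (volume : Measure (Rd d))) :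
    Integrable (fun w => mm ε t w * h w) := by
  exact (memLp_mm hε t).integrable_mul (Lp.memLp h)

/-- the regularised propagator acting on the Fourier side -/
noncomputable def PP {ε : ℝ} (hε : 0 ≤ ε) (t : ℝ) (h : Lp ℂ 2 (volume : Measure (Rd d))) :
    Lp ℂ 2 (volume : Measure (Rd d)) := 𝓕⁻ ((memLp_mm_mul hε t h).toLp _)

lemma inner_ev_eq {ε : ℝ} (hε : 0 < ε) (t : ℝ) (h : Lp ℂ 2 (volume : Measure (Rd d))) :
    ∀ᵐ x : Rd d, inner ℂ (ev hε (t, x)) h = PP hε.le t h x := by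
  have h1 := fourierInv_L12 (integrable_mm_mul hε t h) (memLp_mm_mul hε.le t h)
  filter_upwards [h1] with x hx
  unfold PP
  rw [hx, inner_ev, Real.fourierInv_eq']
  refine integral_congr_ae (Filter.Eventually.of_forall fun w => ?_)
  simp only [smul_eq_mul]
  rw [conj_gs]
  unfold mm
  rw [Complex.exp_add, real_inner_comm]
  push_cast
  have : cexp (2 * (Real.pi : ℂ) * I * ((⟪w, x⟫ : ℝ) : ℂ)) =
      cexp (2 * (Real.pi : ℂ) * ((⟪w, x⟫ : ℝ) : ℂ) * I) := by congr 1; ring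
  rw [this]
  ring

lemma lintegral_enorm_sq (f : Lp ℂ 2 (volume : Measure (Rd d))) :
    ∫⁻ x, ‖f x‖ₑ ^ 2 = ‖f‖ₑ ^ 2 := by
  rw [Lp.enorm_def, eLpNorm_eq_lintegral_rpow_enorm_toReal (by norm_num) (by norm_num)]
  simp only [ENNReal.toReal_ofNat]
  rw [← ENNReal.rpow_natCast, ← ENNReal.rpow_mul]
  norm_num

lemma norm_PP_le {ε : ℝ} (hε : 0 ≤ ε) (t : ℝ) (h : Lp ℂ 2 (volume : Measure (Rd d))) :
    ‖PP hε t h‖ ≤ ‖h‖ := by
  have h1 : ‖PP hε t h‖ = ‖(memLp_mm_mul hε t h).toLp _‖ :=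
    (Lp.fourierTransformₗᵢ (Rd d) ℂ).symm.norm_map _
  rw [h1]
  refine Lp.norm_le_norm_of_ae_le ?_
  filter_upwards [(memLp_mm_mul hε t h).coeFn_toLp] with w hw
  rw [hw, norm_mul]
  calc ‖mm ε t w‖ * ‖h w‖ ≤ 1 * ‖h w‖ :=
        mul_le_mul_of_nonneg_right (norm_mm_le hε t w) (norm_nonneg _)
    _ = _ := one_mul _

/-- unitarity bound -/
lemma unitarity {ε : ℝ} (hε : 0 < ε) (t : ℝ) (h : Lp ℂ 2 (volume : Measure (Rd d))) :
    ∫⁻ x, ‖inner ℂ (ev hε (t, x)) h‖ₑ ^ 2 ≤ ‖h‖ₑ ^ 2 := by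
  have h1 : ∫⁻ x, ‖inner ℂ (ev hε (t, x)) h‖ₑ ^ 2 = ∫⁻ x, ‖PP hε.le t h x‖ₑ ^ 2 := by
    refine lintegral_congr_ae ?_
    filter_upwards [inner_ev_eq hε t h] with x hx
    rw [hx]
  rw [h1, lintegral_enorm_sq]
  gcongr
  rw [← ofReal_norm, ← ofReal_norm]
  exact ENNReal.ofReal_le_ofReal (norm_PP_le _ _ _)

lemma ev_disp {ε : ℝ} (hε : 0 < ε) {k : ℕ} :
    Disp (volume : Measure (Rd (k + 1))) (ev (d := k + 1) hε) ((1 / (4 * Real.pi)) ^ (k + 1)) (k + 1) := by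
  constructor
  · intro t f
    exact unitarity hε t f
  · intro t s x y hts
    exact dispersive hε (t, x) (s, y) hts

/-- the defect of regularisation -/
noncomputable def Dl (ε : ℝ) (h : Lp ℂ 2 (volume : Measure (Rd d))) : ℝ≥0∞ :=
  ∫⁻ w, ENNReal.ofReal ((1 - Real.exp (-(4 * Real.pi ^ 2 * ε) * ‖w‖ ^ 2)) ^ 2) * ‖h w‖ₑ ^ 2

lemma mm_sub (ε t : ℝ) (w : Rd d) : ‖mm ε t w - mm 0 t w‖ =
    |1 - Real.exp (-(4 * Real.pi ^ 2 * ε) * ‖w‖ ^ 2)| := by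
  have h1 : mm ε t w = mm 0 t w * ((Real.exp (-(4 * Real.pi ^ 2 * ε) * ‖w‖ ^ 2) : ℝ) : ℂ) := by
    unfold mm
    rw [Complex.ofReal_exp, ← Complex.exp_add]
    congr 1
    unfold aa
    push_cast
    ring
  rw [h1]
  have h2 : mm 0 t w * ((Real.exp (-(4 * Real.pi ^ 2 * ε) * ‖w‖ ^ 2) : ℝ) : ℂ) - mm 0 t w =
      mm 0 t w * (((Real.exp (-(4 * Real.pi ^ 2 * ε) * ‖w‖ ^ 2) - 1 : ℝ)) : ℂ) := by
    push_cast; ring
  rw [h2, norm_mul, norm_mm, Complex.norm_real, Real.norm_eq_abs, abs_sub_comm]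
  simp

lemma defect {ε : ℝ} (hε : 0 < ε) (t : ℝ) (h : Lp ℂ 2 (volume : Measure (Rd d))) :
    ∫⁻ x, ‖inner ℂ (ev hε (t, x)) h - PP le_rfl t h x‖ₑ ^ 2 = Dl ε h := by
  have h1 : ∫⁻ x, ‖inner ℂ (ev hε (t, x)) h - PP le_rfl t h x‖ₑ ^ 2 =
      ∫⁻ x, ‖(PP hε.le t h - PP le_rfl t h : Lp ℂ 2 (volume : Measure (Rd d))) x‖ₑ ^ 2 := by
    refine lintegral_congr_ae ?_
    filter_upwards [inner_ev_eq hε t h, Lp.coeFn_sub (PP hε.le t h) (PP le_rfl t h)] with x hx hx2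
    rw [hx, hx2]
    rfl
  rw [h1, lintegral_enorm_sq]
  have h2 : ‖PP hε.le t h - PP le_rfl t h‖ₑ =
      ‖(memLp_mm_mul hε.le t h).toLp _ - (memLp_mm_mul le_rfl t h).toLp _‖ₑ := by
    have h3 : PP hε.le t h - PP le_rfl t h = (Lp.fourierTransformₗᵢ (Rd d) ℂ).symm
        ((memLp_mm_mul hε.le t h).toLp _ - (memLp_mm_mul le_rfl t h).toLp _) := by
      rw [map_sub]; rfl
    rw [h3, ← ofReal_norm, ← ofReal_norm, LinearIsometryEquiv.norm_map]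
  rw [h2, ← lintegral_enorm_sq]
  unfold Dl
  refine lintegral_congr_ae ?_
  filter_upwards [Lp.coeFn_sub ((memLp_mm_mul hε.le t h).toLp _) ((memLp_mm_mul le_rfl t h).toLp _),
    (memLp_mm_mul hε.le t h).coeFn_toLp, (memLp_mm_mul le_rfl t h).coeFn_toLp] with w h3 h4 h5
  rw [h3, Pi.sub_apply, h4, h5, ← sub_mul, enorm_mul, mul_pow]
  congr 1
  rw [enorm_sq_eq, mm_sub, sq_abs]

lemma Dl_le (ε : ℝ) (hε : 0 ≤ ε) (h : Lp ℂ 2 (volume : Measure (Rd d))) : Dl ε h ≤ ‖h‖ₑ ^ 2 := by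
  rw [← lintegral_enorm_sq]
  unfold Dl
  refine lintegral_mono fun w => ?_
  have h1 : (1 - Real.exp (-(4 * Real.pi ^ 2 * ε) * ‖w‖ ^ 2)) ^ 2 ≤ 1 := by
    have h2 : Real.exp (-(4 * Real.pi ^ 2 * ε) * ‖w‖ ^ 2) ≤ 1 := by
      rw [Real.exp_le_one_iff]
      have : 0 ≤ (4 * Real.pi ^ 2 * ε) * ‖w‖ ^ 2 := by positivity
      linarith
    have h3 := Real.exp_pos (-(4 * Real.pi ^ 2 * ε) * ‖w‖ ^ 2)
    nlinarith
  calc _ ≤ ENNReal.ofReal 1 * ‖h w‖ₑ ^ 2 := by gcongr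
    _ = _ := by simp

lemma Dl_tendsto (h : Lp ℂ 2 (volume : Measure (Rd d))) :
    Tendsto (fun ε => Dl ε h) (𝓝[>] 0) (𝓝 0) := by
  have h0 : (0 : ℝ≥0∞) = ∫⁻ w : Rd d, 0 := by simp
  rw [h0]
  unfold Dl
  refine tendsto_lintegral_filter_of_dominated_convergence (fun w => ‖h w‖ₑ ^ 2) ?_ ?_ ?_ ?_
  · refine Filter.Eventually.of_forall fun ε => ?_
    have h1 : Continuous fun w : Rd d => ENNReal.ofReal ((1 - Real.exp (-(4 * Real.pi ^ 2 * ε) * ‖w‖ ^ 2)) ^ 2) := by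
      refine ENNReal.continuous_ofReal.comp ?_
      fun_prop
    exact h1.measurable.mul ((Lp.stronglyMeasurable h).measurable.enorm.pow_const 2)
  · filter_upwards [self_mem_nhdsWithin] with ε hε
    refine Filter.Eventually.of_forall fun w => ?_
    have hε' : 0 < ε := hε
    have h1 : (1 - Real.exp (-(4 * Real.pi ^ 2 * ε) * ‖w‖ ^ 2)) ^ 2 ≤ 1 := by
      have h2 : Real.exp (-(4 * Real.pi ^ 2 * ε) * ‖w‖ ^ 2) ≤ 1 := by
        rw [Real.exp_le_one_iff]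
        have : 0 ≤ (4 * Real.pi ^ 2 * ε) * ‖w‖ ^ 2 := by positivity
        linarith
      have h3 := Real.exp_pos (-(4 * Real.pi ^ 2 * ε) * ‖w‖ ^ 2)
      nlinarith
    calc _ ≤ ENNReal.ofReal 1 * ‖h w‖ₑ ^ 2 := by gcongr
      _ = _ := by simp
  · rw [lintegral_enorm_sq]
    exact ENNReal.pow_ne_top enorm_ne_top
  · refine Filter.Eventually.of_forall fun w => ?_
    have h1 : Continuous fun ε : ℝ => ENNReal.ofReal ((1 - Real.exp (-(4 * Real.pi ^ 2 * ε) * ‖w‖ ^ 2)) ^ 2) := by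
      refine ENNReal.continuous_ofReal.comp ?_
      fun_prop
    have h2 := (h1.tendsto 0).mono_left (nhdsWithin_le_nhds (s := Set.Ioi 0))
    have h3 := ENNReal.Tendsto.mul_const (b := ‖h w‖ₑ ^ 2) h2 (Or.inr (ENNReal.pow_ne_top enorm_ne_top))
    simpa using h3

end Un
end Pool.Agent.N249.Ed
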