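import Pool.Agent.N249.TimeSpace
set_option autoImplicit false
set_option linter.unusedSectionVars false
set_option linter.unusedSimpArgs false
set_option linter.unusedVariables false

namespace Pool.Agent.N249.Ed
open MeasureTheory Complex
open scoped ComplexConjugate ENNReal

/-- time scale for a pair of levels -/
noncomputable def rho (κ : ℝ) (j l : ℤ) : ℝ := κ * ((256 : ℝ) ^ (min j l))⁻¹ * (1 / 8) ^ (j - l).natAbs / 324

lemma rho_pos {κ : ℝ} (hκ : 0 < κ) (j l : ℤ) : 0 < rho κ j l := by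
  unfold rho; positivity

lemma rho_comm (κ : ℝ) (j l : ℤ) : rho κ j l = rho κ l j := by
  unfold rho
  rw [min_comm, show (j - l).natAbs = (l - j).natAbs by omega]

lemma rho_F1 {κ : ℝ} (j l : ℤ) (h : l ≤ j) :
    (256 : ℝ) ^ l * rho κ j l = κ * (1 / 8) ^ (j - l).natAbs / 324 := by
  unfold rho
  rw [min_eq_right h]
  have : (256 : ℝ) ^ l ≠ 0 := by positivity
  field_simp

lemma E1_aux (k : ℕ) {κ : ℝ} (hκ : 0 < κ) (l : ℤ) (i : ℕ) :
    (256 : ℝ) ^ (l + i) * 256 ^ l * (((16 : ℝ) ^ (k + 2)) ^ (l + i + l))⁻¹ *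
      ((κ * ((256 : ℝ) ^ l)⁻¹ * (1 / 8) ^ i / 324) ^ k)⁻¹ = (324 / κ) ^ k * ((1 / 2) ^ k) ^ i := by
  have h2 : (2 : ℝ) ≠ 0 := by norm_num
  have e256 : ∀ n : ℤ, (256 : ℝ) ^ n = 2 ^ (8 * n) := by
    intro n; rw [zpow_mul]; norm_num
  have e16 : ∀ n : ℤ, ((16 : ℝ) ^ (k + 2)) ^ n = 2 ^ (4 * (k + 2) * n) := by
    intro n
    rw [zpow_mul, zpow_mul]
    norm_num
    congr 1
  have e8 : ((1 / 8 : ℝ)) ^ i = 2 ^ (-(3 * (i : ℤ))) := by
    rw [zpow_neg, zpow_mul, one_div, inv_pow]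
    norm_num
  have ehalf : (((1 / 2 : ℝ)) ^ k) ^ i = 2 ^ (-((k : ℤ) * i)) := by
    rw [zpow_neg, zpow_mul, ← inv_zpow, ← inv_zpow]
    norm_num
  have e324 : ((κ * ((256 : ℝ) ^ l)⁻¹ * (1 / 8) ^ i / 324) ^ k)⁻¹ =
      (324 / κ) ^ k * 2 ^ ((8 * l + 3 * i) * (k : ℤ)) := by
    rw [e256, e8]
    have : (κ * ((2 : ℝ) ^ (8 * l))⁻¹ * 2 ^ (-(3 * (i : ℤ))) / 324) =
        (324 / κ)⁻¹ * (2 ^ (8 * l + 3 * i))⁻¹ := by
      rw [zpow_add₀ h2, zpow_neg]
      field_simp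
    rw [this, mul_pow, mul_inv, inv_pow, inv_inv, inv_pow, inv_inv, zpow_mul, zpow_natCast]
  rw [e324, e256, e256, e16, ehalf, ← zpow_neg]
  calc _ = (324 / κ) ^ k * (2 ^ (8 * (l + i)) * 2 ^ (8 * l) * 2 ^ (-(4 * (k + 2) * (l + i + l))) *
        2 ^ ((8 * l + 3 * i) * (k : ℤ))) := by ring
    _ = _ := by
        rw [← zpow_add₀ h2, ← zpow_add₀ h2, ← zpow_add₀ h2]
        congr 2
        ring

lemma E1 (k : ℕ) {κ : ℝ} (hκ : 0 < κ) (j l : ℤ) :
    (256 : ℝ) ^ j * 256 ^ l * (((16 : ℝ) ^ (k + 2)) ^ (j + l))⁻¹ *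
      ((rho κ j l) ^ k)⁻¹ = (324 / κ) ^ k * ((1 / 2) ^ k) ^ (j - l).natAbs := by
  rcases le_total l j with h | h
  · have := E1_aux k hκ l (j - l).natAbs
    have e1 : l + ((j - l).natAbs : ℤ) = j := by omega
    rw [e1] at this
    unfold rho
    rw [min_eq_right h]
    exact this
  · have := E1_aux k hκ j (l - j).natAbs
    have e1 : j + ((l - j).natAbs : ℤ) = l := by omega
    rw [e1] at this
    rw [rho_comm]
    unfold rho
    rw [min_eq_right h, show (j - l).natAbs = (l - j).natAbs by omega]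
    rw [add_comm j l, mul_comm ((256 : ℝ) ^ j)]
    exact this

lemma E2 (k : ℕ) {κ : ℝ} (hκ : 0 < κ) (j : ℤ) :
    4 * (256 ^ j * 256 ^ j * ((κ / (6 * 256 ^ j)) / (κ / (6 * 256 ^ j)) ^ (k + 1))) * 2 / κ ^ 2 =
      8 * 6 ^ k / κ ^ (k + 2) * ((16 : ℝ) ^ (k + 2)) ^ (2 * j) := by
  have h2 : (2 : ℝ) ≠ 0 := by norm_num
  have e256 : ∀ n : ℤ, (256 : ℝ) ^ n = 2 ^ (8 * n) := by
    intro n; rw [zpow_mul]; norm_num
  have e16 : ∀ n : ℤ, ((16 : ℝ) ^ (k + 2)) ^ n = 2 ^ (4 * (k + 2) * n) := by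
    intro n
    rw [zpow_mul, zpow_mul]
    norm_num
    congr 1
  have hb : (256 : ℝ) ^ j ≠ 0 := by positivity
  have e3 : (κ / (6 * 256 ^ j)) / (κ / (6 * 256 ^ j)) ^ (k + 1) = 6 ^ k * (256 ^ j) ^ k / κ ^ k := by
    have h3 : (κ / (6 * 256 ^ j)) ≠ 0 := by positivity
    have h4 : (κ / (6 * 256 ^ j)) / (κ / (6 * 256 ^ j)) ^ (k + 1) =
        ((κ / (6 * 256 ^ j)) ^ k)⁻¹ := by
      rw [pow_succ, div_mul_eq_div_div_swap, div_self h3, one_div]
    rw [h4, ← inv_pow, inv_div, div_pow, mul_pow]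
  rw [e3, e16, e256]
  have e4 : (2 : ℝ) ^ (4 * ((k : ℤ) + 2) * (2 * j)) = (2 ^ (8 * j)) ^ k * (2 ^ (8 * j) * 2 ^ (8 * j)) := by
    rw [← zpow_natCast, ← zpow_mul, ← zpow_add₀ h2, ← zpow_add₀ h2]
    congr 1
    ring
  rw [e4, pow_add κ k 2]
  field_simp
  ring

section W
variable {H : Type*} [NormedAddCommGroup H] [InnerProductSpace ℂ H] [CompleteSpace H]
variable {X : Type*} [MeasurableSpace X]
variable {ν : Measure X} [SigmaFinite ν]
variable {e : ℝ × X → H} {M : ℝ}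

/-- clamped time -/
noncomputable def cl (R : ℝ) (z : ℝ × X) : ℝ := max (-R) (min R z.1)

/-- block index -/
noncomputable def blk (R r : ℝ) (z : ℝ × X) : ℤ := ⌊cl R z / r⌋

lemma cl_meas (R : ℝ) : Measurable (cl (X := X) R) :=
  measurable_const.max (measurable_const.min measurable_fst)

lemma blk_meas (R r : ℝ) : Measurable (blk (X := X) R r) :=
  ((cl_meas R).div_const r).floor

lemma cl_eq {R : ℝ} {z : ℝ × X} (h : |z.1| ≤ R) : cl R z = z.1 := by
  unfold cl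
  have := abs_le.mp h
  rw [min_eq_right this.2, max_eq_right this.1]

lemma blk_mem {R r : ℝ} (hR : 0 ≤ R) (hr : 0 < r) (z : ℝ × X) :
    blk R r z ∈ Finset.Icc ⌊-R / r⌋ ⌊R / r⌋ := by
  rw [Finset.mem_Icc]
  unfold blk cl
  constructor
  · refine Int.floor_le_floor ?_
    gcongr
    exact le_max_left _ _
  · refine Int.floor_le_floor ?_
    gcongr
    exact max_le (by linarith) (min_le_left _ _)

lemma blk_time {R r : ℝ} (hr : 0 < r) {z : ℝ × X} (h : |z.1| ≤ R) {b : ℤ} (hb : blk R r z = b) :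
    z.1 ∈ Set.Ico ((b : ℝ) * r) ((b + 1) * r) := by
  unfold blk at hb
  rw [cl_eq h] at hb
  have h1 := Int.floor_eq_iff.mp hb
  rw [le_div_iff₀ hr, div_lt_iff₀ hr] at h1
  exact h1

lemma blk_far {R r : ℝ} (hr : 0 < r) {z w : ℝ × X} (hz : |z.1| ≤ R) (hw : |w.1| ≤ R)
    (h : ¬ |blk R r z - blk R r w| ≤ 1) : r ≤ |z.1 - w.1| := by
  have h1 := blk_time hr hz rfl
  have h2 := blk_time hr hw rfl
  rw [not_le] at h
  have h3 : 2 ≤ |blk R r z - blk R r w| := h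
  rcases le_abs.mp h3 with h4 | h4
  · have h5 : (2 : ℝ) ≤ blk R r z - blk R r w := by exact_mod_cast h4
    have : r ≤ z.1 - w.1 := by
      have h6 := h1.1
      have h7 := h2.2
      nlinarith
    exact this.trans (le_abs_self _)
  · have h5 : (2 : ℝ) ≤ -(blk R r z - blk R r w) := by exact_mod_cast h4
    have : r ≤ -(z.1 - w.1) := by
      have h6 := h1.2
      have h7 := h2.1
      nlinarith
    exact this.trans (neg_le_abs _)

lemma vol_Ico_block (b : ℤ) {r : ℝ} : volume (Set.Ico ((b : ℝ) * r) ((b + 1) * r)) ≤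
    ENNReal.ofReal r := by
  rw [Real.volume_Ico]
  refine ENNReal.ofReal_le_ofReal (le_of_eq ?_)
  ring

/-- a.e. point lies in `S` -/
lemma ae_mem_S {S : Set (ℝ × X)} (hS : MeasurableSet S) (lev : ℝ × X → ℤ) :
    ∀ᵐ z ∂(wm ν S lev), z ∈ S := by
  have h1 : (wm ν S lev) ≪ (((volume : Measure ℝ).prod ν).restrict S) :=
    withDensity_absolutelyContinuous _ _
  exact h1.ae_le (ae_restrict_mem hS)

/-- removal for one block -/
lemma removal_block {c₀ : ℝ} (hc₀ : 0 ≤ c₀) {k : ℕ} (hk : 1 ≤ k) (he : Fam e M)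
    (hD : Disp ν e c₀ (k + 1)) {S : Set (ℝ × X)} (hS : MeasurableSet S) {R : ℝ} (hR : 0 ≤ R)
    (hSR : ∀ z ∈ S, |z.1| ≤ R)
    (hSf : ((volume : Measure ℝ).prod ν) S ≠ ∞) {lev : ℝ × X → ℤ}
    (J : Finset ℤ) (hJ : ∀ z, lev z ∈ J) {A : Set (ℝ × X)} (hA : MeasurableSet A)
    (j : ℤ) (hAj : ∀ z ∈ A, lev z = j) (κ : ℝ) (hκ : 0 < κ) (s : ℝ) (hs : 0 ≤ s)
    (hsA : ∫⁻ t, (sec ν (A ∩ S) t) ^ 2 ≤ ENNReal.ofReal s) :
    ∃ n : ℕ, (n : ℝ) ≤ c₀ * (8 * 6 ^ k / κ ^ (k + 2) * ((16 : ℝ) ^ (k + 2)) ^ (2 * j)) * s ∧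
      ∃ h : Fin n → H, ∀ f, (∀ i, inner ℂ (h i) f = 0) →
      Q e ((wm ν S lev).restrict A) f ≤ κ * ‖f‖ ^ 2 := by
  have := wm_finite (ν := ν) hSf J hJ
  set r : ℝ := κ / (6 * 256 ^ j) with hr
  have hr0 : 0 < r := by rw [hr]; positivity
  refine removal _ κ _ fun n f hf hQ => ?_
  set Φ : ℝ := 256 ^ j * 256 ^ j * c₀ * (r / r ^ (k + 1)) * (2 * s) with hΦdef
  have hβ := blk_meas (X := X) R r
  have key := count_single he ((wm ν S lev).restrict A) (blk R r) hβ _ (blk_mem hR hr0)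
    κ hκ ?_ Φ ?_ n f hf hQ
  · refine key.trans (le_of_eq ?_)
    have := E2 k hκ j
    rw [← hr] at this
    calc 4 * Φ / κ ^ 2 = c₀ * (4 * (256 ^ j * 256 ^ j * (r / r ^ (k + 1))) * 2 / κ ^ 2) * s := by
          rw [hΦdef]; ring
      _ = _ := by rw [this]
  · intro b h
    rw [Measure.restrict_restrict (s := {z | blk R r z = b}) (hβ (measurableSet_singleton b))]
    have h1 := Q_block (S := S) (lev := lev) he hD ((hβ (measurableSet_singleton b)).inter hA) j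
      (fun z hz => hAj z hz.2) (Set.Ico ((b : ℝ) * r) ((b + 1) * r)) measurableSet_Ico r hr0.le
      (vol_Ico_block b) ?_ h
    · refine h1.trans (le_of_eq ?_)
      have : (256 : ℝ) ^ j * r = κ / 6 := by
        rw [hr]
        have hb : (256 : ℝ) ^ j ≠ 0 := by positivity
        field_simp
      rw [this]
    · rintro z ⟨⟨hz1, _⟩, hz2⟩
      exact blk_time hr0 (hSR z hz2) hz1
  · have hmK : StronglyMeasurable fun p : (ℝ × X) × (ℝ × X) => ‖inner ℂ (e p.1) (e p.2)‖ ^ 2 :=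
      (he.meas1.inner he.meas2).norm.pow 2
    rw [integral_eq_lintegral_of_nonneg_ae (Filter.Eventually.of_forall fun _ => by
      simp only [Pi.zero_apply]; positivity) hmK.aestronglyMeasurable]
    refine ENNReal.toReal_le_of_le_ofReal (by rw [hΦdef]; positivity) ?_
    have hN : MeasurableSet {p : (ℝ × X) × (ℝ × X) | |blk R r p.1 - blk R r p.2| ≤ 1} := by
      have h1 : Measurable fun p : (ℝ × X) × (ℝ × X) => |blk R r p.1 - blk R r p.2| :=
        ((hβ.comp measurable_fst).sub (hβ.comp measurable_snd)).abs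
      exact measurableSet_le h1 measurable_const
    have hae : ∀ᵐ p ∂(((wm ν S lev).restrict A).prod ((wm ν S lev).restrict A)),
        p.1 ∈ S ∧ p.2 ∈ S := by
      have h1 : ∀ᵐ z ∂((wm ν S lev).restrict A), z ∈ S := ae_restrict_of_ae (ae_mem_S hS lev)
      exact (Measure.quasiMeasurePreserving_fst.ae h1).and
        (Measure.quasiMeasurePreserving_snd.ae h1)
    have hfar := far_pair hc₀ (by omega : 2 ≤ k + 1) he hD hS J hJ hSf hA hA j j hAj hAj r hr0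
    calc ∫⁻ p in {p : (ℝ × X) × (ℝ × X) | |blk R r p.1 - blk R r p.2| ≤ 1}ᶜ,
          ENNReal.ofReal (‖inner ℂ (e p.1) (e p.2)‖ ^ 2)
          ∂(((wm ν S lev).restrict A).prod ((wm ν S lev).restrict A))
        ≤ ∫⁻ p, (if r ≤ |p.1.1 - p.2.1| then ‖inner ℂ (e p.1) (e p.2)‖ₑ ^ 2 else 0)
          ∂(((wm ν S lev).restrict A).prod ((wm ν S lev).restrict A)) := by
          rw [← lintegral_indicator hN.compl]
          refine lintegral_mono_ae ?_
          filter_upwards [hae] with p hp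
          by_cases hpN : p ∈ {p : (ℝ × X) × (ℝ × X) | |blk R r p.1 - blk R r p.2| ≤ 1}ᶜ
          · rw [Set.indicator_of_mem hpN]
            rw [if_pos (blk_far hr0 (hSR _ hp.1) (hSR _ hp.2) hpN), enorm_sq_eq]
          · rw [Set.indicator_of_notMem hpN]
            exact zero_le
      _ = ∫⁻ p in A ×ˢ A, (if r ≤ |p.1.1 - p.2.1| then ‖inner ℂ (e p.1) (e p.2)‖ₑ ^ 2 else 0)
          ∂((wm ν S lev).prod (wm ν S lev)) := by
          rw [Measure.prod_restrict]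
      _ ≤ _ := hfar
      _ ≤ ENNReal.ofReal (256 ^ j * 256 ^ j * c₀ * (r / r ^ (k + 1))) *
          (ENNReal.ofReal s * ENNReal.ofReal 1 + ENNReal.ofReal s * ENNReal.ofReal 1) := by
          simp only [sub_self, zpow_zero]
          gcongr
      _ = ENNReal.ofReal Φ := by
          rw [← ENNReal.ofReal_mul hs, ← ENNReal.ofReal_add (by positivity) (by positivity),
            ← ENNReal.ofReal_mul (by positivity)]
          congr 1
          rw [hΦdef]; ring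

end W
end Pool.Agent.N249.Ed
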