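import Pool.Agent.N249.Weak
set_option autoImplicit false
set_option linter.unusedSectionVars false
set_option linter.unusedSimpArgs false
set_option linter.unusedVariables false

namespace Pool.Agent.N249.Ed
open MeasureTheory Complex
open scoped ComplexConjugate ENNReal

/-- the constant of the weak estimate -/
noncomputable def C1 (c₀ : ℝ) (k : ℕ) : ℝ := c₀ * (72 * 6 ^ k + 24 * 324 ^ k)

section W2
variable {H : Type*} [NormedAddCommGroup H] [InnerProductSpace ℂ H] [CompleteSpace H]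
variable {X : Type*} [MeasurableSpace X]
variable {ν : Measure X} [SigmaFinite ν]
variable {e : ℝ × X → H} {M : ℝ}

/-- sections of a block -/
lemma sec_block_sum {S : Set (ℝ × X)} (hS : MeasurableSet S) {L : Set (ℝ × X)}
    (hL : MeasurableSet L) (R r : ℝ) (K : Finset ℤ) :
    ∑ b ∈ K, ∫⁻ t, (sec ν ((L ∩ {z | blk R r z = b}) ∩ S) t) ^ 2 ≤
      ∫⁻ t, (sec ν (L ∩ S) t) ^ 2 := by
  have hβ := blk_meas (X := X) R r
  rw [← lintegral_finset_sum']
  · refine lintegral_mono fun t => ?_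
    by_cases hX : Nonempty X
    · obtain ⟨x₀⟩ := hX
      have hb : ∀ b, (sec ν ((L ∩ {z | blk R r z = b}) ∩ S) t) ^ 2 ≤
          if blk R r (t, x₀) = b then (sec ν (L ∩ S) t) ^ 2 else 0 := by
        intro b
        by_cases h : blk R r (t, x₀) = b
        · rw [if_pos h]
          gcongr
          refine measure_mono ?_
          rintro x ⟨⟨h1, _⟩, h2⟩
          exact ⟨h1, h2⟩
        · rw [if_neg h]
          have : sec ν ((L ∩ {z | blk R r z = b}) ∩ S) t = 0 := by
            unfold sec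
            have : (Prod.mk t ⁻¹' ((L ∩ {z : ℝ × X | blk R r z = b}) ∩ S)) = ∅ := by
              ext x
              simp only [Set.mem_preimage, Set.mem_inter_iff, Set.mem_setOf_eq,
                Set.mem_empty_iff_false, iff_false]
              rintro ⟨⟨_, h1⟩, _⟩
              exact h h1
            rw [this, measure_empty]
          rw [this]; simp
      refine (Finset.sum_le_sum fun b _ => hb b).trans ?_
      rw [Finset.sum_ite_eq]
      split_ifs
      · exact le_rfl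
      · exact zero_le
    · have : IsEmpty X := not_nonempty_iff.mp hX
      have h0 : ∀ A : Set (ℝ × X), sec ν A t = 0 := by
        intro A
        unfold sec
        have : (Prod.mk t ⁻¹' A) = ∅ := Set.eq_empty_of_isEmpty _
        rw [this, measure_empty]
      simp [h0]
  · intro b _
    exact ((sec_meas ((hL.inter (hβ (measurableSet_singleton b))).inter hS)).pow_const 2).aemeasurable

theorem weak_main {c₀ : ℝ} (hc₀ : 0 ≤ c₀) {k : ℕ} (hk : 1 ≤ k) (he : Fam e M)
    (hD : Disp ν e c₀ (k + 1)) {S : Set (ℝ × X)} (hS : MeasurableSet S) {R : ℝ} (hR : 0 ≤ R)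
    (hSR : ∀ z ∈ S, |z.1| ≤ R) (hSf : ((volume : Measure ℝ).prod ν) S ≠ ∞)
    {lev : ℝ × X → ℤ} (hlev : Measurable lev) (J : Finset ℤ) (hJ : ∀ z, lev z ∈ J)
    (s : ℤ → ℝ) (hs : ∀ j, 0 ≤ s j)
    (hsJ : ∀ j, ∫⁻ t, (sec ν ({z | lev z = j} ∩ S) t) ^ 2 ≤ ENNReal.ofReal (s j))
    (κ : ℝ) (hκ : 0 < κ) (V : Submodule ℂ H) [FiniteDimensional ℂ V]
    (hV : ∀ f ∈ V, κ * ‖f‖ ^ 2 ≤ Q e (wm ν S lev) f) :
    (Module.finrank ℂ V : ℝ) ≤
      C1 c₀ k / κ ^ (k + 2) * ∑ j ∈ J, ((16 : ℝ) ^ (k + 2)) ^ (2 * j) * s j := by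
  classical
  have := wm_finite (ν := ν) hSf J hJ
  set η : ℤ → ℝ := fun j => ((16 : ℝ) ^ (k + 2)) ^ (2 * j) * s j with hη
  have hη0 : ∀ j, 0 ≤ η j := fun j => mul_nonneg (by positivity) (hs j)
  set L : ℤ → Set (ℝ × X) := fun j => {z | lev z = j} with hLdef
  have hLm : ∀ j, MeasurableSet (L j) := fun j => hlev (measurableSet_singleton j)
  set β : ℤ → ℤ → ℝ × X → ℤ := fun j l => blk R (rho κ j l) with hβdef
  have hβ : ∀ j l, Measurable (β j l) := fun j l => blk_meas _ _
  have hβs : ∀ j l, β j l = β l j := fun j l => by rw [hβdef]; simp only [rho_comm κ j l]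
  set K : ℤ → ℤ → Finset ℤ := fun j l => Finset.Icc ⌊-R / rho κ j l⌋ ⌊R / rho κ j l⌋ with hKdef
  have hK : ∀ j l z, β j l z ∈ K j l := fun j l z => blk_mem hR (rho_pos hκ j l) z
  -- energies of the blocks
  set σ : ℤ → ℤ → ℤ → ℝ := fun j l b =>
    (∫⁻ t, (sec ν ((L j ∩ {z | β j l z = b}) ∩ S) t) ^ 2).toReal with hσ
  have hfin : ∀ j l b, ∫⁻ t, (sec ν ((L j ∩ {z | β j l z = b}) ∩ S) t) ^ 2 ≠ ∞ := by
    intro j l b
    have h1 : ∫⁻ t, (sec ν ((L j ∩ {z | β j l z = b}) ∩ S) t) ^ 2 ≤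
        ∫⁻ t, (sec ν (L j ∩ S) t) ^ 2 := by
      refine lintegral_mono fun t => ?_
      gcongr
      refine measure_mono ?_
      rintro x ⟨⟨h1, _⟩, h2⟩
      exact ⟨h1, h2⟩
    exact ((h1.trans (hsJ j)).trans_lt ENNReal.ofReal_lt_top).ne
  have hσ0 : ∀ j l b, 0 ≤ σ j l b := fun _ _ _ => ENNReal.toReal_nonneg
  have hσsum : ∀ j l, ∑ b ∈ K j l, σ j l b ≤ s j := by
    intro j l
    rw [hσ]
    simp only
    rw [← ENNReal.toReal_sum fun b _ => hfin j l b]
    refine ENNReal.toReal_le_of_le_ofReal (hs j) ?_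
    exact (sec_block_sum hS (hLm j) R (rho κ j l) (K j l)).trans (hsJ j)
  -- removal
  have hrem : ∀ j l b, ∃ n : ℕ, (n : ℝ) ≤ c₀ * (8 * 6 ^ k / (κ * 2 ^ (j - l).natAbs) ^ (k + 2) *
      ((16 : ℝ) ^ (k + 2)) ^ (2 * j)) * σ j l b ∧
      ∃ h : Fin n → H, ∀ f, (∀ i, inner ℂ (h i) f = 0) →
      Q e ((wm ν S lev).restrict (L j ∩ {z | β j l z = b})) f ≤
        κ * 2 ^ (j - l).natAbs * ‖f‖ ^ 2 := by
    intro j l b
    refine removal_block hc₀ hk he hD hS hR hSR hSf J hJ
      ((hLm j).inter (hβ j l (measurableSet_singleton b))) j (fun z hz => hz.1) _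
      (by positivity) (σ j l b) (hσ0 j l b) ?_
    rw [hσ]
    simp only
    rw [ENNReal.ofReal_toReal (hfin j l b)]
    exact le_rfl
  choose kk hkk hh hF2 using hrem
  -- the count
  have hCnt : ∑ q ∈ (J ×ˢ J).filter (fun q => q.2 ≤ q.1),
      ∑ b ∈ K q.1 q.2, 3 * (kk q.1 q.2 b : ℝ) ≤ c₀ * (72 * 6 ^ k) / κ ^ (k + 2) * ∑ j ∈ J, η j := by
    have hq : ∀ q : ℤ × ℤ, ∑ b ∈ K q.1 q.2, 3 * (kk q.1 q.2 b : ℝ) ≤
        c₀ * (24 * 6 ^ k) / κ ^ (k + 2) * ((1 / 2) ^ (q.1 - q.2).natAbs * η q.1) := by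
      rintro ⟨j, l⟩
      simp only
      calc ∑ b ∈ K j l, 3 * (kk j l b : ℝ)
          ≤ ∑ b ∈ K j l, 3 * (c₀ * (8 * 6 ^ k / (κ * 2 ^ (j - l).natAbs) ^ (k + 2) *
            ((16 : ℝ) ^ (k + 2)) ^ (2 * j)) * σ j l b) := by
            refine Finset.sum_le_sum fun b _ => ?_
            exact mul_le_mul_of_nonneg_left (hkk j l b) (by norm_num)
        _ = 3 * (c₀ * (8 * 6 ^ k / (κ * 2 ^ (j - l).natAbs) ^ (k + 2) *
            ((16 : ℝ) ^ (k + 2)) ^ (2 * j))) * ∑ b ∈ K j l, σ j l b := by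
            rw [Finset.mul_sum]
            exact Finset.sum_congr rfl fun b _ => by ring
        _ ≤ 3 * (c₀ * (8 * 6 ^ k / (κ * 2 ^ (j - l).natAbs) ^ (k + 2) *
            ((16 : ℝ) ^ (k + 2)) ^ (2 * j))) * s j :=
            mul_le_mul_of_nonneg_left (hσsum j l) (by positivity)
        _ = c₀ * (24 * 6 ^ k) / κ ^ (k + 2) * (((1 / 2) ^ (j - l).natAbs) ^ (k + 2) * η j) := by
            rw [hη]
            simp only
            rw [mul_pow κ, one_div, inv_pow, inv_pow]
            field_simp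
            ring
        _ ≤ c₀ * (24 * 6 ^ k) / κ ^ (k + 2) * ((1 / 2) ^ (j - l).natAbs * η j) := by
            refine mul_le_mul_of_nonneg_left ?_ (by positivity)
            refine mul_le_mul_of_nonneg_right ?_ (hη0 j)
            have h1 : (0 : ℝ) ≤ (1 / 2) ^ (j - l).natAbs := by positivity
            have h2 : ((1 : ℝ) / 2) ^ (j - l).natAbs ≤ 1 := pow_le_one₀ (by norm_num) (by norm_num)
            calc (((1 : ℝ) / 2) ^ (j - l).natAbs) ^ (k + 2) ≤ ((1 / 2) ^ (j - l).natAbs) ^ 1 :=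
                  pow_le_pow_of_le_one h1 h2 (by omega)
              _ = _ := pow_one _
    calc ∑ q ∈ (J ×ˢ J).filter (fun q => q.2 ≤ q.1), ∑ b ∈ K q.1 q.2, 3 * (kk q.1 q.2 b : ℝ)
        ≤ ∑ q ∈ (J ×ˢ J).filter (fun q => q.2 ≤ q.1),
          c₀ * (24 * 6 ^ k) / κ ^ (k + 2) * ((1 / 2) ^ (q.1 - q.2).natAbs * η q.1) :=
          Finset.sum_le_sum fun q _ => hq q
      _ ≤ ∑ q ∈ (J ×ˢ J), c₀ * (24 * 6 ^ k) / κ ^ (k + 2) *
          ((1 / 2) ^ (q.1 - q.2).natAbs * η q.1) := by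
          refine Finset.sum_le_sum_of_subset_of_nonneg (Finset.filter_subset _ _) ?_
          intro q _ _
          have := hη0 q.1
          positivity
      _ = c₀ * (24 * 6 ^ k) / κ ^ (k + 2) * ∑ j ∈ J, (∑ l ∈ J, (1 / 2) ^ (j - l).natAbs) * η j := by
          rw [← Finset.mul_sum, Finset.sum_product]
          congr 1
          refine Finset.sum_congr rfl fun j _ => ?_
          rw [Finset.sum_mul]
      _ ≤ c₀ * (24 * 6 ^ k) / κ ^ (k + 2) * ∑ j ∈ J, 3 * η j := by
          refine mul_le_mul_of_nonneg_left ?_ (by positivity)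
          refine Finset.sum_le_sum fun j _ => ?_
          exact mul_le_mul_of_nonneg_right (geom_three J j) (hη0 j)
      _ = _ := by
          rw [← Finset.mul_sum]
          ring
  -- the far part
  set Φ : ℝ := c₀ * (6 * (324 / κ) ^ k) * ∑ j ∈ J, η j with hΦdef
  have hΦ : ∫ p in {p : (ℝ × X) × (ℝ × X) | |β (lev p.1) (lev p.2) p.1 -
      β (lev p.1) (lev p.2) p.2| ≤ 1}ᶜ, ‖inner ℂ (e p.1) (e p.2)‖ ^ 2
      ∂((wm ν S lev).prod (wm ν S lev)) ≤ Φ := by
    have hmK : StronglyMeasurable fun p : (ℝ × X) × (ℝ × X) => ‖inner ℂ (e p.1) (e p.2)‖ ^ 2 :=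
      (he.meas1.inner he.meas2).norm.pow 2
    rw [integral_eq_lintegral_of_nonneg_ae (Filter.Eventually.of_forall fun _ => by
      simp only [Pi.zero_apply]; positivity) hmK.aestronglyMeasurable]
    have hη00 : 0 ≤ ∑ j ∈ J, η j := Finset.sum_nonneg fun j _ => hη0 j
    refine ENNReal.toReal_le_of_le_ofReal (by rw [hΦdef]; positivity) ?_
    have hae : ∀ᵐ p ∂((wm ν S lev).prod (wm ν S lev)), p.1 ∈ S ∧ p.2 ∈ S := by
      have h1 : ∀ᵐ z ∂(wm ν S lev), z ∈ S := ae_mem_S hS lev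
      exact (Measure.quasiMeasurePreserving_fst.ae h1).and
        (Measure.quasiMeasurePreserving_snd.ae h1)
    have hfar : ∀ j l, ∫⁻ p in L j ×ˢ L l,
        (if rho κ j l ≤ |p.1.1 - p.2.1| then ‖inner ℂ (e p.1) (e p.2)‖ₑ ^ 2 else 0)
        ∂((wm ν S lev).prod (wm ν S lev)) ≤
        ENNReal.ofReal (c₀ * (324 / κ) ^ k * ((1 / 2) ^ (j - l).natAbs * (η j + η l))) := by
      intro j l
      have h1 := far_pair hc₀ (by omega : 2 ≤ k + 1) he hD hS J hJ hSf (hLm j) (hLm l) j l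
        (fun z hz => hz) (fun z hz => hz) (rho κ j l) (rho_pos hκ j l)
      refine h1.trans ?_
      have hρ := rho_pos hκ j l
      have h2 : ∀ j l : ℤ, (∫⁻ t, (sec ν (L j ∩ S) t) ^ 2) *
          ENNReal.ofReal ((16 ^ (k + 1 + 1)) ^ (j - l)) ≤
          ENNReal.ofReal ((((16 : ℝ) ^ (k + 2)) ^ (j + l))⁻¹ * η j) := by
        intro j l
        refine (mul_le_mul_left (hsJ j) _).trans (le_of_eq ?_)
        rw [← ENNReal.ofReal_mul (hs j)]
        congr 1
        rw [hη]
        simp only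
        have h16 : ((16 : ℝ) ^ (k + 2)) ≠ 0 := by positivity
        have h3 : ((16 : ℝ) ^ (k + 1 + 1)) ^ (j - l) =
            (((16 : ℝ) ^ (k + 2)) ^ (j + l))⁻¹ * ((16 : ℝ) ^ (k + 2)) ^ (2 * j) := by
          rw [← zpow_neg, ← zpow_add₀ h16]
          congr 1
          ring
        rw [h3]
        ring
      have h3 := h2 j l
      have h4 := h2 l j
      rw [add_comm l j] at h4
      have hpos : 0 ≤ 256 ^ j * 256 ^ l * c₀ * (rho κ j l / rho κ j l ^ (k + 1)) := by positivity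
      calc _ ≤ ENNReal.ofReal (256 ^ j * 256 ^ l * c₀ * (rho κ j l / rho κ j l ^ (k + 1))) *
            (ENNReal.ofReal ((((16 : ℝ) ^ (k + 2)) ^ (j + l))⁻¹ * η j) +
             ENNReal.ofReal ((((16 : ℝ) ^ (k + 2)) ^ (j + l))⁻¹ * η l)) := by
            gcongr
        _ = ENNReal.ofReal (c₀ * (256 ^ j * 256 ^ l * (((16 : ℝ) ^ (k + 2)) ^ (j + l))⁻¹ *
            ((rho κ j l) ^ k)⁻¹) * (η j + η l)) := by
            rw [← ENNReal.ofReal_add (mul_nonneg (by positivity) (hη0 j))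
              (mul_nonneg (by positivity) (hη0 l)), ← ENNReal.ofReal_mul hpos]
            congr 1
            have h5 : rho κ j l / rho κ j l ^ (k + 1) = ((rho κ j l) ^ k)⁻¹ := by
              rw [pow_succ, div_mul_eq_div_div_swap, div_self hρ.ne', one_div]
            rw [h5]
            ring
        _ ≤ _ := by
            rw [E1 k hκ j l]
            refine ENNReal.ofReal_le_ofReal ?_
            have h6 : ((1 / 2 : ℝ) ^ k) ^ (j - l).natAbs ≤ (1 / 2) ^ (j - l).natAbs := by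
              refine pow_le_pow_left₀ (by positivity) ?_ _
              calc (1 / 2 : ℝ) ^ k ≤ (1 / 2) ^ 1 :=
                    pow_le_pow_of_le_one (by norm_num) (by norm_num) hk
                _ = _ := pow_one _
            have h7 : 0 ≤ η j + η l := add_nonneg (hη0 j) (hη0 l)
            calc c₀ * ((324 / κ) ^ k * ((1 / 2) ^ k) ^ (j - l).natAbs) * (η j + η l)
                = c₀ * (324 / κ) ^ k * (((1 / 2) ^ k) ^ (j - l).natAbs * (η j + η l)) := by ring
              _ ≤ _ := by gcongr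
    calc ∫⁻ p in {p : (ℝ × X) × (ℝ × X) | |β (lev p.1) (lev p.2) p.1 -
          β (lev p.1) (lev p.2) p.2| ≤ 1}ᶜ, ENNReal.ofReal (‖inner ℂ (e p.1) (e p.2)‖ ^ 2)
          ∂((wm ν S lev).prod (wm ν S lev))
        ≤ ∫⁻ p, ∑ q ∈ J ×ˢ J, (L q.1 ×ˢ L q.2).indicator (fun p => if rho κ q.1 q.2 ≤ |p.1.1 - p.2.1|
            then ‖inner ℂ (e p.1) (e p.2)‖ₑ ^ 2 else 0) p
          ∂((wm ν S lev).prod (wm ν S lev)) := by
          have hN : MeasurableSet {p : (ℝ × X) × (ℝ × X) | |β (lev p.1) (lev p.2) p.1 -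
              β (lev p.1) (lev p.2) p.2| ≤ 1} := by
            have hun : {p : (ℝ × X) × (ℝ × X) | |β (lev p.1) (lev p.2) p.1 -
              β (lev p.1) (lev p.2) p.2| ≤ 1} = ⋃ q ∈ J ×ˢ J, (L q.1 ×ˢ L q.2) ∩
                {p | |β q.1 q.2 p.1 - β q.1 q.2 p.2| ≤ 1} := by
              ext p
              simp only [Set.mem_iUnion, Set.mem_inter_iff, Set.mem_setOf_eq, exists_prop,
                Set.mem_prod, Finset.mem_product, hLdef]
              constructor
              · intro h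
                exact ⟨(lev p.1, lev p.2), ⟨hJ _, hJ _⟩, ⟨rfl, rfl⟩, h⟩
              · rintro ⟨q, _, ⟨h1, h2⟩, h3⟩
                rw [h1, h2]; exact h3
            rw [hun]
            refine Finset.measurableSet_biUnion _ fun q _ => ((hLm _).prod (hLm _)).inter ?_
            have h1 : Measurable fun p : (ℝ × X) × (ℝ × X) => |β q.1 q.2 p.1 - β q.1 q.2 p.2| :=
              (((hβ q.1 q.2).comp measurable_fst).sub ((hβ q.1 q.2).comp measurable_snd)).abs
            exact measurableSet_le h1 measurable_const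
          rw [← lintegral_indicator hN.compl]
          refine lintegral_mono_ae ?_
          filter_upwards [hae] with p hp
          by_cases hpN : p ∈ {p : (ℝ × X) × (ℝ × X) | |β (lev p.1) (lev p.2) p.1 -
              β (lev p.1) (lev p.2) p.2| ≤ 1}ᶜ
          · rw [Set.indicator_of_mem hpN]
            have hmem : (lev p.1, lev p.2) ∈ J ×ˢ J := Finset.mem_product.mpr ⟨hJ _, hJ _⟩
            refine le_trans ?_ (Finset.single_le_sum (f := fun q : ℤ × ℤ =>
              (L q.1 ×ˢ L q.2).indicator (fun p => if rho κ q.1 q.2 ≤ |p.1.1 - p.2.1|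
              then ‖inner ℂ (e p.1) (e p.2)‖ₑ ^ 2 else 0) p) (fun _ _ => zero_le) hmem)
            simp only
            rw [Set.indicator_of_mem (show p ∈ L (lev p.1) ×ˢ L (lev p.2) from ⟨rfl, rfl⟩)]
            rw [if_pos (blk_far (rho_pos hκ _ _) (hSR _ hp.1) (hSR _ hp.2) hpN), enorm_sq_eq]
          · rw [Set.indicator_of_notMem hpN]
            exact zero_le
      _ = ∑ q ∈ J ×ˢ J, ∫⁻ p in L q.1 ×ˢ L q.2, (if rho κ q.1 q.2 ≤ |p.1.1 - p.2.1|
            then ‖inner ℂ (e p.1) (e p.2)‖ₑ ^ 2 else 0) ∂((wm ν S lev).prod (wm ν S lev)) := by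
          rw [lintegral_finset_sum']
          · refine Finset.sum_congr rfl fun q _ => ?_
            rw [lintegral_indicator ((hLm _).prod (hLm _))]
          · intro q _
            have h1 : Measurable fun p : (ℝ × X) × (ℝ × X) => if rho κ q.1 q.2 ≤ |p.1.1 - p.2.1|
              then ‖inner ℂ (e p.1) (e p.2)‖ₑ ^ 2 else 0 := by
              refine Measurable.ite ?_ ?_ measurable_const
              · exact measurableSet_le measurable_const
                  (((measurable_fst.comp measurable_fst).sub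
                    (measurable_fst.comp measurable_snd)).abs)
              · exact ((he.meas1.inner he.meas2).measurable.enorm.pow_const 2)
            exact (h1.indicator ((hLm _).prod (hLm _))).aemeasurable
      _ ≤ ∑ q ∈ J ×ˢ J, ENNReal.ofReal (c₀ * (324 / κ) ^ k *
          ((1 / 2) ^ (q.1 - q.2).natAbs * (η q.1 + η q.2))) :=
          Finset.sum_le_sum fun q _ => hfar q.1 q.2
      _ = ENNReal.ofReal (∑ q ∈ J ×ˢ J, c₀ * (324 / κ) ^ k *
          ((1 / 2) ^ (q.1 - q.2).natAbs * (η q.1 + η q.2))) := by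
          rw [ENNReal.ofReal_sum_of_nonneg]
          intro q _
          have := add_nonneg (hη0 q.1) (hη0 q.2)
          positivity
      _ ≤ ENNReal.ofReal Φ := by
          refine ENNReal.ofReal_le_ofReal ?_
          rw [← Finset.mul_sum]
          have hs1 : ∑ q ∈ J ×ˢ J, (1 / 2 : ℝ) ^ (q.1 - q.2).natAbs * η q.1 ≤ 3 * ∑ j ∈ J, η j := by
            rw [Finset.sum_product, Finset.mul_sum]
            refine Finset.sum_le_sum fun j _ => ?_
            simp only
            rw [← Finset.sum_mul]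
            exact mul_le_mul_of_nonneg_right (geom_three J j) (hη0 j)
          have hs2 : ∑ q ∈ J ×ˢ J, (1 / 2 : ℝ) ^ (q.1 - q.2).natAbs * η q.2 ≤ 3 * ∑ j ∈ J, η j := by
            rw [Finset.sum_product_right, Finset.mul_sum]
            refine Finset.sum_le_sum fun j _ => ?_
            simp only
            rw [← Finset.sum_mul]
            refine mul_le_mul_of_nonneg_right ?_ (hη0 j)
            have := geom_three J j
            refine le_trans (le_of_eq (Finset.sum_congr rfl fun l _ => ?_)) this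
            congr 1
            omega
          have hs3 : ∑ q ∈ J ×ˢ J, (1 / 2 : ℝ) ^ (q.1 - q.2).natAbs * (η q.1 + η q.2) ≤
              6 * ∑ j ∈ J, η j := by
            simp_rw [mul_add]
            rw [Finset.sum_add_distrib]
            linarith
          rw [hΦdef]
          calc c₀ * (324 / κ) ^ k * ∑ q ∈ J ×ˢ J, (1 / 2 : ℝ) ^ (q.1 - q.2).natAbs * (η q.1 + η q.2)
              ≤ c₀ * (324 / κ) ^ k * (6 * ∑ j ∈ J, η j) := by gcongr
            _ = _ := by ring
  have hF1 : ∀ j l, l ≤ j → ∀ b h, Q e ((wm ν S lev).restrict (L l ∩ {z | β j l z = b})) h ≤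
      κ * (1 / 8) ^ (j - l).natAbs / 324 * ‖h‖ ^ 2 := by
    intro j l hjl b h
    have h1 := Q_block (S := S) (lev := lev) he hD
      ((hLm l).inter (hβ j l (measurableSet_singleton b))) l
      (fun z hz => hz.1) (Set.Ico ((b : ℝ) * rho κ j l) ((b + 1) * rho κ j l)) measurableSet_Ico
      (rho κ j l) (rho_pos hκ j l).le (vol_Ico_block b) ?_ h
    · refine h1.trans (le_of_eq ?_)
      rw [rho_F1 j l hjl]
    · rintro z ⟨⟨_, hz1⟩, hz2⟩
      exact blk_time (rho_pos hκ j l) (hSR z hz2) hz1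
  have hfinal := multi_level he (wm ν S lev) lev hlev J hJ β hβ hβs K hK κ hκ hF1 kk hh
    (fun j l _ b f hf => hF2 j l b f hf) _ hCnt Φ hΦ V hV
  refine hfinal.trans (le_of_eq ?_)
  rw [hΦdef]
  unfold C1
  have hκ' : κ ≠ 0 := hκ.ne'
  rw [div_pow 324 κ k]
  field_simp
  ring

end W2
end Pool.Agent.N249.Ed
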